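import Pool.Graph.R_seed8.TH204.WR.W3

/-!
The second moment over the shifts of the sums of a function at polynomial values: a bound by the
mean square of the function and by its sums over initial segments of residue classes to small moduli.
-/

set_option autoImplicit false

namespace Pool.Agent.H542.TW

open Finset Polynomial
open Pool.Agent.TH204.WR
open Pool.Agent.Helper112 (ee ls_ee_add ls_conj_ee ls_ee_zero ls_norm_ee ls_ee_int ls_ee_nat_mul)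
open Pool.Agent.TH892.SW (rc rc_cor rc_zero rc_big div_sq)
open Pool.Agent.H373R2.NB (Ph Ph_poly)

/-- translates of polynomial phases -/
lemma Ph_shift (d : ℕ) : ∀ (α : ℝ) (φ : ℕ → ℝ), Ph d α φ → Ph d α (fun n => φ (n + 1)) := by
  induction d with
  | zero => intro α φ h n; exact h (n + 1)
  | succ d ih =>
    intro α φ h k
    have h1 := ih _ _ (h k)
    have h2 : (fun n => φ (n + 1 + k) - φ (n + 1)) = fun n => φ (n + k + 1) - φ (n + 1) := by
      funext n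
      rw [show n + 1 + k = n + k + 1 by ring]
    show Ph d _ (fun n => φ (n + k + 1) - φ (n + 1))
    rw [h2] at h1
    exact h1

/-- a sum over a progression inside `[1,Y]` is a difference of two initial segments -/
lemma win_sum (Y J w : ℕ) (hw : 1 ≤ w) (e : ℤ → ℝ) (Δ : ℝ)
    (hΔ : ∀ (b : ℤ) (t : ℕ), t ≤ Y →
      |∑ y ∈ (Icc (1 : ℤ) t).filter (fun y => y ≡ b [ZMOD w]), e y| ≤ Δ) (v : ℤ) :
    |∑ j ∈ range J, cutf Y e (v + w * j)| ≤ 2 * Δ := by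
  classical
  have hw0 : (0 : ℤ) < w := by exact_mod_cast hw
  -- the sum over a set of integers
  have e1 : ∑ j ∈ range J, cutf Y e (v + w * j) =
      ∑ y ∈ (Icc (1 : ℤ) Y).filter (fun y => y ≡ v [ZMOD w] ∧ v ≤ y ∧ y ≤ v + w * J - 1), e y := by
    unfold cutf
    rw [← sum_filter]
    refine sum_nbij' (fun j : ℕ => v + w * j) (fun y => ((y - v) / w).toNat) ?_ ?_ ?_ ?_ ?_
    · intro j hj
      rw [mem_filter, mem_range] at hj
      rw [mem_filter, mem_Icc]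
      refine ⟨hj.2, ?_, ?_, ?_⟩
      · have : v ≡ v + w * j [ZMOD w] := by
          rw [Int.modEq_iff_dvd]
          exact ⟨j, by ring⟩
        exact this.symm
      · have : (0 : ℤ) ≤ w * j := by positivity
        linarith
      · have h1 : (j : ℤ) + 1 ≤ J := by exact_mod_cast hj.1
        have h2 : (w : ℤ) * (j + 1) ≤ w * J := mul_le_mul_of_nonneg_left h1 hw0.le
        have h3 : (w : ℤ) * (j + 1) = w * j + w := by ring
        linarith
    · intro y hy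
      rw [mem_filter, mem_Icc] at hy
      obtain ⟨h1, h2, h3, h4⟩ := hy
      rw [mem_filter, mem_range]
      obtain ⟨k, hk⟩ := (Int.modEq_iff_dvd.1 h2.symm)
      have h5 : (y - v) / w = k := by rw [hk, Int.mul_ediv_cancel_left _ hw0.ne']
      have h6 : 0 ≤ k := by
        by_contra hc
        push Not at hc
        have : (w : ℤ) * k < 0 := mul_neg_of_pos_of_neg hw0 hc
        linarith
      rw [h5]
      have h7 : ((k.toNat : ℕ) : ℤ) = k := Int.toNat_of_nonneg h6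
      refine ⟨?_, ?_⟩
      · have : (w : ℤ) * k < w * J := by linarith
        have h8 : k < J := lt_of_mul_lt_mul_left this hw0.le
        omega
      · rw [h7, ← hk]
        constructor <;> linarith [h1.1, h1.2]
    · intro j hj
      rw [show v + (w : ℤ) * j - v = w * j by ring, Int.mul_ediv_cancel_left _ hw0.ne']
      exact Int.toNat_natCast j
    · intro y hy
      rw [mem_filter, mem_Icc] at hy
      obtain ⟨h1, h2, h3, h4⟩ := hy
      obtain ⟨k, hk⟩ := (Int.modEq_iff_dvd.1 h2.symm)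
      have h5 : (y - v) / w = k := by rw [hk, Int.mul_ediv_cancel_left _ hw0.ne']
      have h6 : 0 ≤ k := by
        by_contra hc
        push Not at hc
        have : (w : ℤ) * k < 0 := mul_neg_of_pos_of_neg hw0 hc
        linarith
      have h7 : ((k.toNat : ℕ) : ℤ) = k := Int.toNat_of_nonneg h6
      rw [h5, h7, ← hk]
      ring
    · intro j _
      rfl
  -- initial segments
  have e2 : ∀ s : ℤ, |∑ y ∈ (Icc (1 : ℤ) Y).filter (fun y => y ≡ v [ZMOD w] ∧ y ≤ s), e y| ≤ Δ := by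
    intro s
    have h1 : (Icc (1 : ℤ) Y).filter (fun y => y ≡ v [ZMOD w] ∧ y ≤ s) =
        (Icc (1 : ℤ) ((min s Y).toNat : ℕ)).filter (fun y => y ≡ v [ZMOD w]) := by
      ext y
      rw [mem_filter, mem_filter, mem_Icc, mem_Icc]
      constructor
      · rintro ⟨⟨h2, h3⟩, h4, h5⟩
        refine ⟨⟨h2, ?_⟩, h4⟩
        have h6 : y ≤ min s Y := le_min h5 h3
        omega
      · rintro ⟨⟨h2, h3⟩, h4⟩
        have h5 : y ≤ min s Y := by
          rcases le_or_gt 0 (min s (Y : ℤ)) with h6 | h6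
          · rw [Int.toNat_of_nonneg h6] at h3
            exact h3
          · rw [Int.toNat_of_nonpos h6.le] at h3
            push_cast at h3
            omega
        exact ⟨⟨h2, h5.trans (min_le_right _ _)⟩, h4, h5.trans (min_le_left _ _)⟩
    rw [h1]
    apply hΔ
    have : min s (Y : ℤ) ≤ Y := min_le_right _ _
    omega
  have e3 : (Icc (1 : ℤ) Y).filter (fun y => y ≡ v [ZMOD w] ∧ v ≤ y ∧ y ≤ v + w * J - 1) =
      (Icc (1 : ℤ) Y).filter (fun y => y ≡ v [ZMOD w] ∧ y ≤ v + w * J - 1) \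
      (Icc (1 : ℤ) Y).filter (fun y => y ≡ v [ZMOD w] ∧ y ≤ v - 1) := by
    ext y
    rw [mem_sdiff, mem_filter, mem_filter, mem_filter]
    constructor
    · rintro ⟨h1, h2, h3, h4⟩
      exact ⟨⟨h1, h2, h4⟩, fun h5 => by linarith [h5.2.2]⟩
    · rintro ⟨⟨h1, h2, h3⟩, h4⟩
      refine ⟨h1, h2, ?_, h3⟩
      by_contra hc
      push Not at hc
      exact h4 ⟨h1, h2, by omega⟩
  have hsub : (Icc (1 : ℤ) Y).filter (fun y => y ≡ v [ZMOD w] ∧ y ≤ v - 1) ⊆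
      (Icc (1 : ℤ) Y).filter (fun y => y ≡ v [ZMOD w] ∧ y ≤ v + w * J - 1) := by
    intro y hy
    rw [mem_filter] at hy ⊢
    refine ⟨hy.1, hy.2.1, ?_⟩
    have : (0 : ℤ) ≤ w * J := by positivity
    linarith [hy.2.2]
  have e4 := Finset.sum_sdiff (f := e) hsub
  rw [← e3] at e4
  rw [e1]
  have h1 := e2 (v + w * J - 1)
  have h2 := e2 (v - 1)
  have e5 : ∑ y ∈ (Icc (1 : ℤ) Y).filter (fun y => y ≡ v [ZMOD w] ∧ v ≤ y ∧ y ≤ v + w * J - 1), e y =
      ∑ y ∈ (Icc (1 : ℤ) Y).filter (fun y => y ≡ v [ZMOD w] ∧ y ≤ v + w * J - 1), e y -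
      ∑ y ∈ (Icc (1 : ℤ) Y).filter (fun y => y ≡ v [ZMOD w] ∧ y ≤ v - 1), e y := by
    linarith
  rw [e5]
  refine (abs_sub _ _).trans ?_
  linarith

/-- the mean of the correlations over the windows of a progression -/
lemma win_rc (Y J w : ℕ) (hw : 1 ≤ w) (e : ℤ → ℝ) (Δ : ℝ)
    (hΔ : ∀ (b : ℤ) (t : ℕ), t ≤ Y →
      |∑ y ∈ (Icc (1 : ℤ) t).filter (fun y => y ≡ b [ZMOD w]), e y| ≤ Δ) :
    ∑ j ∈ range J, ∑ j' ∈ range J, rc Y e ((w : ℤ) * ((j' : ℤ) - j)) ≤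
      ((Y : ℝ) + w * J) * (2 * Δ) ^ 2 := by
  classical
  have hw0 : (0 : ℤ) < w := by exact_mod_cast hw
  have h1 : ∑ j ∈ range J, ∑ j' ∈ range J, rc Y e ((w : ℤ) * ((j' : ℤ) - j)) =
      ∑ v ∈ Icc (1 - (w : ℤ) * J) Y, (∑ j ∈ range J, cutf Y e (v + w * j)) ^ 2 := by
    have h2 : ∀ v : ℤ, (∑ j ∈ range J, cutf Y e (v + w * j)) ^ 2 =
        ∑ j ∈ range J, ∑ j' ∈ range J, cutf Y e (v + w * j) * cutf Y e (v + w * j') := by
      intro v
      rw [sq, sum_mul_sum]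
    simp_rw [h2]
    symm
    rw [Finset.sum_comm]
    refine sum_congr rfl fun j hj => ?_
    rw [Finset.sum_comm]
    refine sum_congr rfl fun j' _ => ?_
    rw [mem_range] at hj
    rw [rc_eq]
    symm
    have hj1 : (w : ℤ) * j ≤ w * J := by
      have : (j : ℤ) ≤ J := by exact_mod_cast hj.le
      exact mul_le_mul_of_nonneg_left this hw0.le
    have h3 : ∑ u ∈ Icc (1 : ℤ) Y, cutf Y e u * cutf Y e (u + w * ((j' : ℤ) - j)) =
        ∑ v ∈ Icc (1 - (w : ℤ) * j) (Y - w * j), cutf Y e (v + w * j) * cutf Y e (v + w * j') := by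
      refine sum_nbij' (fun u => u - w * j) (fun v => v + w * j) ?_ ?_ ?_ ?_ ?_
      · intro u hu
        rw [mem_Icc] at hu ⊢
        constructor <;> linarith [hu.1, hu.2]
      · intro v hv
        rw [mem_Icc] at hv ⊢
        constructor <;> linarith [hv.1, hv.2]
      · intro u _
        ring
      · intro v _
        ring
      · intro u _
        rw [show u - (w : ℤ) * j + w * j = u by ring,
          show u - (w : ℤ) * j + w * j' = u + w * ((j' : ℤ) - j) by ring]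
    rw [h3]
    apply sum_subset
    · intro v hv
      rw [mem_Icc] at hv ⊢
      have h0 : (0 : ℤ) ≤ w * j := by positivity
      constructor <;> linarith [hv.1, hv.2]
    · intro v _ hv
      rw [cutf_out (x := v + w * j), zero_mul]
      intro h4
      apply hv
      rw [mem_Icc] at h4 ⊢
      constructor <;> linarith [h4.1, h4.2]
  rw [h1]
  have h2 : ∀ v ∈ Icc (1 - (w : ℤ) * J) Y, (∑ j ∈ range J, cutf Y e (v + w * j)) ^ 2 ≤ (2 * Δ) ^ 2 := by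
    intro v _
    rw [← sq_abs]
    exact pow_le_pow_left₀ (abs_nonneg _) (win_sum Y J w hw e Δ hΔ v) 2
  refine (sum_le_sum h2).trans ?_
  rw [sum_const, nsmul_eq_mul]
  apply mul_le_mul_of_nonneg_right _ (sq_nonneg _)
  rw [Int.card_Icc]
  have h3 : (Y : ℤ) + 1 - (1 - (w : ℤ) * J) = ((Y + w * J : ℕ) : ℤ) := by
    push_cast
    ring
  rw [h3, Int.toNat_natCast]
  push_cast
  exact le_rfl

/-- **The second moment over the shifts.** -/
theorem transf (d : ℕ) (hd : 1 ≤ d) : ∃ c m : ℕ, 1 ≤ c ∧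
    ∀ (f : ℤ[X]) (A : ℕ), f.natDegree ≤ d → (A : ℤ) = |(d.factorial : ℤ) * f.coeff d| → 1 ≤ A →
    ∀ (M Y J : ℕ) (e : ℤ → ℝ) (Q Δ u : ℝ) (I : Finset ℤ), 1 ≤ M → 1 ≤ J → 1 ≤ u →
    8 * (J : ℝ) * (c * u ^ m) ≤ (M : ℝ) ^ d →
    ∑ y ∈ Icc (1 : ℤ) Y, e y ^ 2 ≤ Q →
    (∀ q : ℕ, 1 ≤ q → (q : ℝ) ≤ A * (c * u ^ m) → ∀ (b : ℤ) (t : ℕ), t ≤ Y →
      |∑ y ∈ (Icc (1 : ℤ) t).filter (fun y => y ≡ b [ZMOD q]), e y| ≤ Δ) →
    ∑ k ∈ I, TT (fun n => f.eval (n : ℤ)) 1 M Y e k ^ 2 ≤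
      (M : ℝ) ^ 2 / u * Q + (M : ℝ) ^ 2 * ((c * u ^ m) * (4 / (J : ℝ) ^ 2 *
        (((Y : ℝ) + A * (c * u ^ m) * J) * (2 * Δ) ^ 2))) := by
  obtain ⟨c, m, hc, hW⟩ := weyl_one d hd
  refine ⟨c, m, hc, fun f A hfd hA hA1 M Y J e Q Δ u I hM hJ hu hJM hQ hΔ => ?_⟩
  classical
  set G : ℕ → ℤ := fun n => f.eval (n : ℤ) with hG
  have hM0 : (0 : ℝ) < M := by exact_mod_cast hM
  have hu0 : 0 < u := by linarith
  have hJ0 : (0 : ℝ) < J := by exact_mod_cast hJ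
  have hc1 : (1 : ℝ) ≤ c := by exact_mod_cast hc
  have hQ0 : 0 ≤ Q := (sum_nonneg fun _ _ => sq_nonneg _).trans hQ
  have hrc0 : rc Y e 0 ≤ Q := by rw [rc_zero]; exact hQ
  have hrc00 : 0 ≤ rc Y e 0 := by rw [rc_zero]; exact sum_nonneg fun _ _ => sq_nonneg _
  set P := ⌊(c : ℝ) * u ^ m⌋₊ with hP
  have hPr : (P : ℝ) ≤ c * u ^ m := Nat.floor_le (by positivity)
  -- all shifts
  obtain ⟨Kb, hK1, hK2⟩ : ∃ Kb : ℤ, (∀ n ∈ Icc 1 M, |G n| + Y ≤ Kb) ∧ I ⊆ Icc (-Kb) Kb := by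
    refine ⟨∑ n ∈ Icc 1 M, |G n| + Y + ∑ k ∈ I, |k|, ?_, ?_⟩
    · intro n hn
      have h1 := single_le_sum (f := fun n => |G n|) (fun i _ => abs_nonneg _) hn
      have h2 : 0 ≤ ∑ k ∈ I, |k| := sum_nonneg fun _ _ => abs_nonneg _
      linarith
    · intro k hk
      have h1 := single_le_sum (f := fun k : ℤ => |k|) (fun i _ => abs_nonneg _) hk
      have h2 : 0 ≤ ∑ n ∈ Icc 1 M, |G n| := sum_nonneg fun _ _ => abs_nonneg _
      have h3 : (0 : ℤ) ≤ Y := Int.natCast_nonneg Y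
      rw [mem_Icc, ← abs_le]
      linarith
  have h1 : ∑ k ∈ I, TT G 1 M Y e k ^ 2 ≤ ∑ k ∈ Icc (-Kb) Kb, TT G 1 M Y e k ^ 2 :=
    sum_le_sum_of_subset_of_nonneg hK2 fun _ _ _ => sq_nonneg _
  refine h1.trans ?_
  rw [energy G 1 M Y e Kb hK1]
  -- the modulus
  obtain ⟨R, hR0, hRY, hR1, hR2⟩ : ∃ R : ℕ, 0 < R ∧ Y ≤ R ∧
      (∀ x ∈ Icc 1 M ×ˢ Icc 1 M, |G x.2 - G x.1| + Y ≤ (R : ℤ)) ∧
      (∀ q ∈ Icc 1 P, |(((q * A : ℕ)) : ℤ)| * J + Y ≤ R) := by
    refine ⟨1 + Y + (∑ x ∈ Icc 1 M ×ˢ Icc 1 M, (G x.2 - G x.1).natAbs) + (P * A) * J,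
      by omega, by omega, ?_, ?_⟩
    · intro x hx
      have h4 := single_le_sum (f := fun x : ℕ × ℕ => (G x.2 - G x.1).natAbs)
        (fun i _ => Nat.zero_le _) hx
      rw [← Int.natCast_natAbs]
      have h6 : (G x.2 - G x.1).natAbs + Y ≤
          1 + Y + (∑ x ∈ Icc 1 M ×ˢ Icc 1 M, (G x.2 - G x.1).natAbs) + (P * A) * J := by
        have : 0 ≤ (P * A) * J := Nat.zero_le _
        omega
      exact_mod_cast h6
    · intro q hq
      rw [mem_Icc] at hq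
      have h3 : (q * A) * J ≤ (P * A) * J :=
        Nat.mul_le_mul_right _ (Nat.mul_le_mul_right _ hq.2)
      rw [abs_of_nonneg (Int.natCast_nonneg _)]
      have h6 : (q * A) * J + Y ≤
          1 + Y + (∑ x ∈ Icc 1 M ×ˢ Icc 1 M, (G x.2 - G x.1).natAbs) + (P * A) * J := by
        omega
      exact_mod_cast h6
  have hRr : (0 : ℝ) < R := by exact_mod_cast hR0
  have hpars : ∑ b ∈ range R, ‖EE Y e ((b : ℝ) / R)‖ ^ 2 = R * rc Y e 0 := by
    have h3 := sq_rc Y R 1 hR0 e 0 (by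
      rw [abs_zero, zero_mul, zero_add]
      exact_mod_cast hRY)
    simpa [ls_ee_zero] using h3
  have h3 := sum_rc_le Y R hR0 e (Icc 1 M ×ˢ Icc 1 M) (fun x => G x.2 - G x.1) hR1
  rw [sum_product] at h3
  -- the Weyl sums
  have h4 : ∀ b ∈ range R, ‖∑ x ∈ Icc 1 M ×ˢ Icc 1 M,
      ee (-(((G x.2 - G x.1 : ℤ) : ℝ) * ((b : ℝ) / R)))‖ ≤
      M * (M / u + M * ∑ q ∈ Icc 1 P, 4 / (J : ℝ) ^ 2 *
        ‖∑ j ∈ range J, ee (j * ((((q * A : ℕ) : ℤ) : ℝ) * ((b : ℝ) / R)))‖ ^ 2) := by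
    intro b _
    set θ : ℝ := (b : ℝ) / R with hθ
    have e1 : ∑ x ∈ Icc 1 M ×ˢ Icc 1 M, ee (-(((G x.2 - G x.1 : ℤ) : ℝ) * θ)) =
        (∑ n ∈ Icc 1 M, ee (θ * (G n : ℝ))) * ∑ n ∈ Icc 1 M, ee (-(θ * (G n : ℝ))) := by
      rw [sum_mul_sum, ← sum_product']
      refine sum_congr rfl fun x _ => ?_
      rw [← ls_ee_add]
      congr 1
      push_cast
      ring
    have e2 : ∀ γ : ℝ, ∑ n ∈ Icc 1 M, ee (γ * (G n : ℝ)) =
        ∑ n ∈ range M, ee (γ * (G (n + 1) : ℝ)) := by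
      intro γ
      rw [range_eq_Ico, sum_Ico_add' (fun n => ee (γ * (G n : ℝ))) 0 M 1]
      rfl
    have hPh : ∀ γ : ℝ, Ph d (γ * ((d.factorial : ℝ) * (f.coeff d : ℤ)))
        (fun n => γ * (G (n + 1) : ℝ)) := by
      intro γ
      exact Ph_shift d _ _ (Ph_poly d f hfd γ)
    have h5 := hW M M J u _ _ hM le_rfl hJ hu (hPh θ) hJM
    have e4 : ∀ q : ℕ, ‖∑ j ∈ range J, ee (j * (q * (θ * ((d.factorial : ℝ) * (f.coeff d : ℤ)))))‖ =
        ‖∑ j ∈ range J, ee (j * ((((q * A : ℕ) : ℤ) : ℝ) * θ))‖ := by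
      intro q
      rcases le_or_gt 0 ((d.factorial : ℤ) * f.coeff d) with hpos | hneg
      · rw [abs_of_nonneg hpos] at hA
        have hA' : ((A : ℤ) : ℝ) = (((d.factorial : ℤ) * f.coeff d : ℤ) : ℝ) := by rw [hA]
        push_cast at hA'
        congr 1
        refine sum_congr rfl fun j _ => ?_
        congr 1
        push_cast
        rw [hA']
        ring
      · rw [abs_of_neg hneg] at hA
        have hA' : ((A : ℤ) : ℝ) = ((-((d.factorial : ℤ) * f.coeff d) : ℤ) : ℝ) := by rw [hA]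
        push_cast at hA'
        rw [← geom_neg]
        congr 1
        refine sum_congr rfl fun j _ => ?_
        congr 1
        push_cast
        rw [hA']
        ring
    simp_rw [e4] at h5
    rw [e1, norm_mul]
    have h6 : ‖∑ n ∈ Icc 1 M, ee (-(θ * (G n : ℝ)))‖ ≤ M := by
      refine (norm_sum_le _ _).trans (le_of_eq ?_)
      simp [ls_norm_ee]
    rw [e2 θ]
    have h7 : 0 ≤ (M : ℝ) / u + M * ∑ q ∈ Icc 1 P, 4 / (J : ℝ) ^ 2 *
        ‖∑ j ∈ range J, ee (j * ((((q * A : ℕ) : ℤ) : ℝ) * θ))‖ ^ 2 := by positivity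
    calc ‖∑ n ∈ range M, ee (θ * (G (n + 1) : ℝ))‖ * ‖∑ n ∈ Icc 1 M, ee (-(θ * (G n : ℝ)))‖ ≤
        ((M : ℝ) / u + M * ∑ q ∈ Icc 1 P, 4 / (J : ℝ) ^ 2 *
        ‖∑ j ∈ range J, ee (j * ((((q * A : ℕ) : ℤ) : ℝ) * θ))‖ ^ 2) * M :=
          mul_le_mul h5 h6 (norm_nonneg _) h7
      _ = _ := by ring
  have h5 : ∑ b ∈ range R, ‖EE Y e ((b : ℝ) / R)‖ ^ 2 * ‖∑ x ∈ Icc 1 M ×ˢ Icc 1 M,
      ee (-(((G x.2 - G x.1 : ℤ) : ℝ) * ((b : ℝ) / R)))‖ ≤
      R * (M * (M / u * rc Y e 0 + M * ∑ q ∈ Icc 1 P, 4 / (J : ℝ) ^ 2 *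
        ∑ j ∈ range J, ∑ j' ∈ range J, rc Y e ((((q * A : ℕ) : ℤ)) * ((j' : ℤ) - j)))) := by
    refine (sum_le_sum fun b hb => mul_le_mul_of_nonneg_left (h4 b hb) (by positivity)).trans
      (le_of_eq ?_)
    simp_rw [mul_add]
    rw [sum_add_distrib]
    congr 1
    · have : ∀ b ∈ range R, ‖EE Y e ((b : ℝ) / R)‖ ^ 2 * ((M : ℝ) * (M / u)) =
          (M * (M / u)) * ‖EE Y e ((b : ℝ) / R)‖ ^ 2 := fun b _ => by ring
      rw [sum_congr rfl this, ← mul_sum, hpars]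
      ring
    · simp_rw [mul_sum]
      rw [sum_comm]
      refine sum_congr rfl fun q hq => ?_
      have h6 := sq_rc Y R J hR0 e (((q * A : ℕ)) : ℤ) (hR2 q hq)
      have h7 : ∑ b ∈ range R, ‖EE Y e ((b : ℝ) / R)‖ ^ 2 * (M * (M * (4 / (J : ℝ) ^ 2 *
          ‖∑ j ∈ range J, ee (j * (((((q * A : ℕ)) : ℤ) : ℝ) * ((b : ℝ) / R)))‖ ^ 2))) =
          (M * (M * (4 / (J : ℝ) ^ 2))) * ∑ b ∈ range R, ‖EE Y e ((b : ℝ) / R)‖ ^ 2 *
          ‖∑ j ∈ range J, ee (j * (((((q * A : ℕ)) : ℤ) : ℝ) * ((b : ℝ) / R)))‖ ^ 2 := by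
        rw [mul_sum]
        refine sum_congr rfl fun b _ => ?_
        ring
      rw [h7, h6]
      rw [mul_sum, mul_sum]
      refine sum_congr rfl fun j _ => ?_
      rw [mul_sum, mul_sum]
      refine sum_congr rfl fun j' _ => ?_
      ring
  have h6 : (R : ℝ) * (∑ n ∈ Icc 1 M, ∑ n' ∈ Icc 1 M, rc Y e (G n' - G n)) ≤
      R * (M * (M / u * rc Y e 0 + M * ∑ q ∈ Icc 1 P, 4 / (J : ℝ) ^ 2 *
        ∑ j ∈ range J, ∑ j' ∈ range J, rc Y e ((((q * A : ℕ) : ℤ)) * ((j' : ℤ) - j)))) := by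
    refine le_trans ?_ (h3.trans h5)
    exact mul_le_mul_of_nonneg_left (le_abs_self _) hRr.le
  have h7 := le_of_mul_le_mul_left h6 hRr
  refine h7.trans ?_
  have hPA : (A : ℝ) * P ≤ A * (c * u ^ m) := mul_le_mul_of_nonneg_left hPr (by positivity)
  have h8 : ∀ q ∈ Icc 1 P, 4 / (J : ℝ) ^ 2 *
      ∑ j ∈ range J, ∑ j' ∈ range J, rc Y e ((((q * A : ℕ) : ℤ)) * ((j' : ℤ) - j)) ≤
      4 / (J : ℝ) ^ 2 * (((Y : ℝ) + A * (c * u ^ m) * J) * (2 * Δ) ^ 2) := by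
    intro q hq
    rw [mem_Icc] at hq
    apply mul_le_mul_of_nonneg_left _ (by positivity)
    have hqA : ((q * A : ℕ) : ℝ) ≤ A * (c * u ^ m) := by
      push_cast
      calc (q : ℝ) * A ≤ P * A := by
            apply mul_le_mul_of_nonneg_right _ (by positivity)
            exact_mod_cast hq.2
        _ = A * P := by ring
        _ ≤ _ := hPA
    have h9 := win_rc Y J (q * A) (Nat.mul_pos (by omega) hA1) e Δ
      (hΔ (q * A) (Nat.mul_pos (by omega) hA1) hqA)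
    refine h9.trans ?_
    apply mul_le_mul_of_nonneg_right _ (sq_nonneg _)
    have := mul_le_mul_of_nonneg_right hqA hJ0.le
    linarith
  have h9 : ∑ q ∈ Icc 1 P, 4 / (J : ℝ) ^ 2 *
      ∑ j ∈ range J, ∑ j' ∈ range J, rc Y e ((((q * A : ℕ) : ℤ)) * ((j' : ℤ) - j)) ≤
      (c * u ^ m) * (4 / (J : ℝ) ^ 2 * (((Y : ℝ) + A * (c * u ^ m) * J) * (2 * Δ) ^ 2)) := by
    refine (sum_le_sum h8).trans ?_
    rw [sum_const, Nat.card_Icc, Nat.add_sub_cancel, nsmul_eq_mul]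
    exact mul_le_mul_of_nonneg_right hPr (by positivity)
  have h10 : (M : ℝ) / u * rc Y e 0 ≤ M / u * Q := mul_le_mul_of_nonneg_left hrc0 (by positivity)
  have h11 := mul_le_mul_of_nonneg_left h9 hM0.le
  calc (M : ℝ) * (M / u * rc Y e 0 + M * ∑ q ∈ Icc 1 P, 4 / (J : ℝ) ^ 2 *
        ∑ j ∈ range J, ∑ j' ∈ range J, rc Y e ((((q * A : ℕ) : ℤ)) * ((j' : ℤ) - j))) ≤
      M * (M / u * Q + M * ((c * u ^ m) * (4 / (J : ℝ) ^ 2 *
        (((Y : ℝ) + A * (c * u ^ m) * J) * (2 * Δ) ^ 2)))) := by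
        apply mul_le_mul_of_nonneg_left _ hM0.le
        linarith
    _ = _ := by ring

end Pool.Agent.H542.TW
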