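import Pool.Agent.H542.TW.T9

/-!
A prime and an almost prime from a positive value of the function.
-/

set_option autoImplicit false

namespace Pool.Agent.H542.TW

open Finset Polynomial
open Pool.Agent.H373R2.T7 (pz)
open Pool.Agent.W23.DC (tt pr)
open Pool.Agent.Y882 (VV PZ)
open Pool.Agent.Y882.KW (WW)
open Pool.Agent.TH204.WR (TT cutf rho flp rho_le_deg)
open ArithmeticFunction (vonMangoldt vonMangoldt_nonneg)

/-- a polynomial is bounded by its leading term -/
lemma eval_le (f : ℤ[X]) : ∃ K : ℕ, 1 ≤ K ∧ ∀ m : ℕ, 1 ≤ m → |f.eval (m : ℤ)| ≤ K * (m : ℤ) ^ f.natDegree := by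
  refine ⟨(∑ i ∈ range (f.natDegree + 1), |f.coeff i|).toNat + 1, by omega, fun m hm => ?_⟩
  have hm1 : (1 : ℤ) ≤ m := by exact_mod_cast hm
  have h0 : 0 ≤ ∑ i ∈ range (f.natDegree + 1), |f.coeff i| := sum_nonneg fun _ _ => abs_nonneg _
  have h1 : |f.eval (m : ℤ)| ≤ (∑ i ∈ range (f.natDegree + 1), |f.coeff i|) * (m : ℤ) ^ f.natDegree := by
    rw [eval_eq_sum_range, sum_mul]
    refine (abs_sum_le_sum_abs _ _).trans (sum_le_sum fun i hi => ?_)
    rw [abs_mul, abs_of_nonneg (show (0 : ℤ) ≤ (m : ℤ) ^ i by positivity)]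
    apply mul_le_mul_of_nonneg_left _ (abs_nonneg _)
    rw [mem_range] at hi
    exact pow_le_pow_right₀ hm1 (by omega)
  refine h1.trans (mul_le_mul_of_nonneg_right ?_ (by positivity))
  push_cast
  rw [Int.toNat_of_nonneg h0]
  linarith

/-- a polynomial with positive leading coefficient is eventually nonnegative -/
lemma eval_pos (f : ℤ[X]) (hd : 1 ≤ f.natDegree) (hlc : 0 < f.leadingCoeff) :
    ∃ m0 : ℕ, ∀ m : ℕ, m0 ≤ m → 0 ≤ f.eval (m : ℤ) := by
  have h1 : Filter.Tendsto (fun x : ℝ => (f.map (Int.castRingHom ℝ)).eval x) Filter.atTop Filter.atTop := by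
    apply Polynomial.tendsto_atTop_of_leadingCoeff_nonneg
    · rw [Polynomial.degree_map_eq_of_injective (RingHom.injective_int _)]
      exact natDegree_pos_iff_degree_pos.1 hd
    · rw [leadingCoeff_map_of_injective (RingHom.injective_int _)]
      simp only [eq_intCast]
      exact_mod_cast hlc.le
  have h2 := (h1.comp (tendsto_natCast_atTop_atTop (R := ℝ))).eventually_ge_atTop 0
  obtain ⟨m0, hm0⟩ := Filter.eventually_atTop.1 h2
  refine ⟨m0, fun m hm => ?_⟩
  have h3 := hm0 m hm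
  simp only [Function.comp] at h3
  have h4 : (f.map (Int.castRingHom ℝ)).eval (m : ℝ) = ((f.eval (m : ℤ) : ℤ) : ℝ) := by
    have := eval_intCast_map (Int.castRingHom ℝ) f (m : ℤ)
    simpa using this
  rw [h4] at h3
  exact_mod_cast h3

/-- `n` is prime and `n + h` is an almost prime -/
def Gd (X : ℕ) (h n : ℤ) : Prop := n.toNat.Prime ∧ 1 < n + h ∧
  (n + h).toNat.primeFactorsList.length ≤ 3 ∧
  ∀ p : ℕ, p.Prime → p ∣ (n + h).toNat → (X : ℝ) ^ (3 / 25 : ℝ) ≤ p

lemma WW_le_one (X : ℕ) (hX : 3 ≤ X) (N : ℕ) :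
    WW X (3 / 25) (288 / 625) (8 / 9) (8 / 9 / (288 / 625)) N ≤ 1 := by
  classical
  unfold WW
  have h1 : 0 ≤ ∑ q ∈ pr X (3 / 25) (288 / 625), ((8 / 9 : ℝ) - 8 / 9 / (288 / 625) * tt X q) *
      (if q ∣ N then 1 else 0) := by
    apply sum_nonneg
    intro q hq
    unfold pr at hq
    rw [mem_filter] at hq
    have h2 := hq.2.2.2
    apply mul_nonneg
    · linarith
    · split_ifs <;> norm_num
  split_ifs
  · linarith
  · linarith

open Classical in
lemma FF_le (X z : ℕ) (h : ℤ) (c : Finset ℕ → ℝ) (hX : 3 ≤ X) (hhX : (h.natAbs : ℝ) ≤ X)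
    (hX2 : 2 ≤ (X : ℝ) ^ (1 / 10 : ℝ))
    (hW : ∀ N : ℕ, (∀ p ∈ pz z, ¬ p ∣ N) →
      VV (Pm X (288 / 625) z) c (fun p => if p ∣ N then 1 else 0) ≤
        WW X (3 / 25) (288 / 625) (8 / 9) (8 / 9 / (288 / 625)) N) (n : ℤ) (hn : n ∈ Icc (1 : ℤ) X) :
    FF z h (Pm X (288 / 625) z) c n ≤ Real.log X * (if Gd X h n ∨ n ∈ Bd X h then 1 else 0) := by
  have hX3 : (3 : ℝ) ≤ X := by exact_mod_cast hX
  have hL : 0 < Real.log X := Real.log_pos (by linarith)
  have hn' := mem_Icc.1 hn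
  by_cases hpos : FF z h (Pm X (288 / 625) z) c n ≤ 0
  · refine hpos.trans (mul_nonneg hL.le ?_)
    split_ifs <;> norm_num
  push Not at hpos
  have hFF : FF z h (Pm X (288 / 625) z) c n = if Rg z h n then vonMangoldt n.toNat *
      VV (Pm X (288 / 625) z) c (fun p => if (p : ℤ) ∣ n + h then 1 else 0) else 0 := rfl
  rw [hFF] at hpos ⊢
  by_cases hR : Rg z h n
  swap
  · rw [if_neg hR] at hpos
    exact absurd hpos (lt_irrefl _)
  rw [if_pos hR] at hpos ⊢
  set N := (n + h).natAbs with hN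
  have hVV : VV (Pm X (288 / 625) z) c (fun p => if (p : ℤ) ∣ n + h then 1 else 0) =
      VV (Pm X (288 / 625) z) c (fun p => if p ∣ N then 1 else 0) := by
    apply VV_congr_fun
    intro p _
    by_cases h1 : (p : ℤ) ∣ n + h
    · rw [if_pos h1, if_pos (Int.natCast_dvd.1 h1)]
    · rw [if_neg h1, if_neg (fun h2 => h1 (Int.natCast_dvd.2 h2))]
  rw [hVV] at hpos ⊢
  have hW1 := hW N (fun p hp hd => (hR p hp).2 (Int.natCast_dvd.2 hd))
  have hΛ0 : 0 ≤ vonMangoldt n.toNat := vonMangoldt_nonneg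
  have hΛL : vonMangoldt n.toNat ≤ Real.log X := by
    refine (ArithmeticFunction.vonMangoldt_le_log).trans ?_
    have h7 : n.toNat ≤ X := by omega
    have h8 : 1 ≤ n.toNat := by omega
    exact Real.log_le_log (by exact_mod_cast h8) (by exact_mod_cast h7)
  have hΛ : 0 < vonMangoldt n.toNat := by
    rcases hΛ0.lt_or_eq with h1 | h1
    · exact h1
    · rw [← h1, zero_mul] at hpos
      exact absurd hpos (lt_irrefl _)
  have hVpos : 0 < VV (Pm X (288 / 625) z) c (fun p => if p ∣ N then 1 else 0) := by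
    by_contra h1
    push Not at h1
    exact absurd hpos (not_lt.2 (mul_nonpos_of_nonneg_of_nonpos hΛ0 h1))
  have hle : vonMangoldt n.toNat * VV (Pm X (288 / 625) z) c (fun p => if p ∣ N then 1 else 0) ≤
      Real.log X * 1 := mul_le_mul hΛL (hW1.trans (WW_le_one X hX N)) hVpos.le hL.le
  have hgood : Gd X h n ∨ n ∈ Bd X h := by
    by_contra hcon
    push Not at hcon
    obtain ⟨hG, hB⟩ := hcon
    rw [Bd, mem_filter] at hB
    have hB2 : ¬ ((¬ n.toNat.Prime ∧ vonMangoldt n.toNat ≠ 0) ∨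
      (∃ q ∈ pr X (3 / 25) (288 / 625), ((q : ℤ) ^ 2) ∣ n + h) ∨ n + h ≤ 1) := fun hh => hB ⟨hn, hh⟩
    push Not at hB2
    obtain ⟨hB3, hB4, hB5⟩ := hB2
    have hprime : n.toNat.Prime := by
      by_contra h1
      exact hΛ.ne' (hB3 h1)
    have hNeq : (n + h).toNat = N := by omega
    have hN0 : N ≠ 0 := by omega
    have hNle : (N : ℝ) ≤ (X : ℝ) ^ (11 / 10 : ℝ) := by
      have h1 : N ≤ X + h.natAbs := by omega
      have h2 : (N : ℝ) ≤ X + h.natAbs := by exact_mod_cast h1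
      have h3 : (X : ℝ) ^ (11 / 10 : ℝ) = X * (X : ℝ) ^ (1 / 10 : ℝ) := by
        rw [show (11 / 10 : ℝ) = 1 + 1 / 10 by norm_num, Real.rpow_add (by linarith), Real.rpow_one]
      rw [h3]
      nlinarith
    have hal := Pool.Agent.Y882.KW.almost X (by omega) (3 / 25) (288 / 625) (8 / 9) (11 / 10) 3
      (by norm_num) (by norm_num) (by norm_num) (by norm_num) (by norm_num) N hN0 hNle
      (hVpos.trans_le hW1) (by
        intro q hq hd
        apply hB4 q hq
        have h1 : ((q ^ 2 : ℕ) : ℤ) ∣ n + h := Int.natCast_dvd.2 hd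
        push_cast at h1
        exact h1)
    apply hG
    refine ⟨hprime, hB5, ?_, ?_⟩
    · rw [hNeq]
      exact hal.1
    · rw [hNeq]
      exact hal.2
  rw [if_pos hgood]
  exact hle

end Pool.Agent.H542.TW
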