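import Pool.Agent.H542.TW.T10

/-!
The main term and the exceptional sets.
-/

set_option autoImplicit false

namespace Pool.Agent.H542.TW

open Finset Polynomial
open Pool.Agent.H373R2.T7 (pz)
open Pool.Agent.W23.DC (tt pr)
open Pool.Agent.Y882 (VV PZ)
open Pool.Agent.Y882.KW (WW)
open Pool.Agent.TH204.WR (TT cutf rho flp rho_le_deg)
open ArithmeticFunction (vonMangoldt vonMangoldt_nonneg)

/-- the number of the residues `s` modulo `p` with `p ∣ (f(s) + a) (f(s) + a + h)` -/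
def omg (f : ℤ[X]) (a h : ℤ) (p : ℕ) : ℕ :=
  ((range p).filter (fun s : ℕ => (p : ℤ) ∣ (f.eval (s : ℤ) + a) * (f.eval (s : ℤ) + a + h))).card

/-- the polynomial of the pair -/
noncomputable def Fp (f : ℤ[X]) (a h : ℤ) : ℤ[X] := (f + C a) * (f + C (a + h))

lemma Fp_eval (f : ℤ[X]) (a h s : ℤ) : (Fp f a h).eval s = (f.eval s + a) * (f.eval s + a + h) := by
  unfold Fp
  simp only [eval_mul, eval_add, eval_C]
  ring

lemma omg_rho (f : ℤ[X]) (a h : ℤ) (p : ℕ) : omg f a h p = rho (Fp f a h) 0 p := by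
  unfold omg rho
  congr 1
  apply filter_congr
  intro s _
  rw [Fp_eval, add_zero]

lemma Fp_deg (f : ℤ[X]) (hd : 1 ≤ f.natDegree) (a h : ℤ) : (Fp f a h).natDegree = 2 * f.natDegree := by
  unfold Fp
  have h1 : f + C a ≠ 0 := by
    intro h0
    have : (f + C a).natDegree = f.natDegree := natDegree_add_C
    rw [h0, natDegree_zero] at this
    omega
  have h2 : f + C (a + h) ≠ 0 := by
    intro h0
    have : (f + C (a + h)).natDegree = f.natDegree := natDegree_add_C
    rw [h0, natDegree_zero] at this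
    omega
  rw [natDegree_mul h1 h2, natDegree_add_C, natDegree_add_C]
  ring

lemma Fp_lc (f : ℤ[X]) (hd : 1 ≤ f.natDegree) (a h : ℤ) : (Fp f a h).leadingCoeff = f.leadingCoeff ^ 2 := by
  unfold Fp
  rw [leadingCoeff_mul, leadingCoeff_add_of_degree_lt' (by
    refine degree_C_le.trans_lt ?_
    exact natDegree_pos_iff_degree_pos.1 hd), leadingCoeff_add_of_degree_lt' (by
    refine degree_C_le.trans_lt ?_
    exact natDegree_pos_iff_degree_pos.1 hd)]
  ring

lemma omg_le (f : ℤ[X]) (hd : 1 ≤ f.natDegree) (hlc : 0 < f.leadingCoeff) (a h : ℤ) (p : ℕ)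
    (hp : p.Prime) (hpl : f.leadingCoeff < p) : omg f a h p ≤ 2 * f.natDegree := by
  rw [omg_rho, ← Fp_deg f hd a h]
  apply rho_le_lc _ _ p hp
  · rw [Fp_deg f hd]
    omega
  · rw [Fp_lc f hd]
    intro h1
    have h2 : (p : ℤ) ∣ f.leadingCoeff := (Nat.prime_iff_prime_int.1 hp).dvd_of_dvd_pow h1
    have h3 := Int.le_of_dvd hlc h2
    omega

lemma omg_le' (f : ℤ[X]) (hd : 1 ≤ f.natDegree) (a h : ℤ) (p : ℕ)
    (hp : p.Prime) (hlt : omg f a h p < p) : omg f a h p ≤ 2 * f.natDegree := by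
  rw [omg_rho] at hlt ⊢
  rw [← Fp_deg f hd a h]
  exact rho_le_deg _ _ p hp hlt

/-- the partial singular series -/
noncomputable def SS (f : ℤ[X]) (a h : ℤ) (w : ℕ) : ℝ :=
  ∏ p ∈ pz w, ((1 - (omg f a h p : ℝ) / p) / (1 - 1 / (p : ℝ)) ^ 2)

lemma cutf_sub (Y : ℕ) (g1 g2 : ℤ → ℝ) (k : ℝ) (x : ℤ) :
    cutf Y (fun n => g1 n - k * g2 n) x = cutf Y g1 x - k * cutf Y g2 x := by
  unfold cutf
  split_ifs <;> ring

/-- the first exceptional set -/
lemma exc1 (I : Finset ℕ) (T : ℤ → ℝ) (δ B : ℝ) (hδ : 0 < δ)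
    (hB : ∑ a ∈ I.image (fun a : ℕ => (a : ℤ)), T a ^ 2 ≤ B) :
    ((I.filter (fun a : ℕ => δ ≤ |T a|)).card : ℝ) ≤ B / δ ^ 2 := by
  rw [le_div_iff₀ (by positivity)]
  refine le_trans ?_ hB
  rw [sum_image (fun a _ b _ hab => by exact_mod_cast hab)]
  calc ((I.filter (fun a : ℕ => δ ≤ |T a|)).card : ℝ) * δ ^ 2 =
      ∑ a ∈ I.filter (fun a : ℕ => δ ≤ |T a|), δ ^ 2 := by rw [sum_const, nsmul_eq_mul]
    _ ≤ ∑ a ∈ I.filter (fun a : ℕ => δ ≤ |T a|), T a ^ 2 := by
        apply sum_le_sum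
        intro a ha
        rw [mem_filter] at ha
        rw [← sq_abs (T a)]
        exact pow_le_pow_left₀ hδ.le ha.2 2
    _ ≤ ∑ a ∈ I, T a ^ 2 :=
        sum_le_sum_of_subset_of_nonneg (filter_subset _ _) fun _ _ _ => sq_nonneg _

/-- the second exceptional set -/
lemma exc2 (I : Finset ℕ) (x : ℕ) (g : ℕ → ℤ) (B : Finset ℤ) (δ : ℝ) (hδ : 0 < δ) :
    ((I.filter (fun a : ℕ => δ ≤ (((Icc 1 x).filter (fun m : ℕ => g m + a ∈ B)).card : ℝ))).card : ℝ) ≤
      x * B.card / δ := by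
  rw [le_div_iff₀ hδ]
  calc ((I.filter (fun a : ℕ => δ ≤ (((Icc 1 x).filter (fun m : ℕ => g m + a ∈ B)).card : ℝ))).card : ℝ) * δ =
      ∑ a ∈ I.filter (fun a : ℕ => δ ≤ (((Icc 1 x).filter (fun m : ℕ => g m + a ∈ B)).card : ℝ)), δ := by
        rw [sum_const, nsmul_eq_mul]
    _ ≤ ∑ a ∈ I.filter (fun a : ℕ => δ ≤ (((Icc 1 x).filter (fun m : ℕ => g m + a ∈ B)).card : ℝ)),
        (((Icc 1 x).filter (fun m : ℕ => g m + a ∈ B)).card : ℝ) := by
        apply sum_le_sum
        intro a ha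
        rw [mem_filter] at ha
        exact ha.2
    _ ≤ ∑ a ∈ I, (((Icc 1 x).filter (fun m : ℕ => g m + a ∈ B)).card : ℝ) :=
        sum_le_sum_of_subset_of_nonneg (filter_subset _ _) fun _ _ _ => Nat.cast_nonneg _
    _ = ((∑ a ∈ I, ((Icc 1 x).filter (fun m : ℕ => g m + a ∈ B)).card : ℕ) : ℝ) := by
        push_cast
        rfl
    _ = ((∑ m ∈ Icc 1 x, (I.filter (fun a : ℕ => g m + a ∈ B)).card : ℕ) : ℝ) := by
        congr 1
        simp only [card_filter]
        rw [sum_comm]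
    _ ≤ ((∑ m ∈ Icc 1 x, B.card : ℕ) : ℝ) := by
        norm_cast
        apply sum_le_sum
        intro m _
        apply card_le_card_of_injOn (fun a : ℕ => g m + (a : ℤ))
        · intro a ha
          rw [mem_coe, mem_filter] at ha
          exact ha.2
        · intro a _ b _ hab
          simp only at hab
          omega
    _ = x * B.card := by
        rw [sum_const, Nat.card_Icc, smul_eq_mul, Nat.add_sub_cancel]
        push_cast
        ring

/-- the number of the `m` such that `f(m) + a` and `f(m) + a + h` have no small prime factors -/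
lemma main_count (f : ℤ[X]) (a : ℕ) (h : ℤ) (x X z m0 : ℕ) (ha : 1 ≤ a)
    (hm0 : ∀ m : ℕ, m0 ≤ m → 0 ≤ f.eval (m : ℤ))
    (hX : ∀ m : ℕ, 1 ≤ m → m ≤ x → f.eval (m : ℤ) + a ≤ X) :
    ((((Icc 1 x).filter (fun s : ℕ => ∀ p ∈ pz z, ¬ (p : ℤ) ∣ (Fp f a h).eval ((0 : ℤ) + s) + 0)).card : ℕ) : ℝ) -
      m0 ≤ ∑ m ∈ Icc 1 x, cutf X (GG z h) (f.eval (m : ℤ) + a) := by
  classical
  set S := (Icc 1 x).filter (fun s : ℕ => ∀ p ∈ pz z, ¬ (p : ℤ) ∣ (Fp f a h).eval ((0 : ℤ) + s) + 0) with hS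
  have h1 : ∀ m ∈ Icc 1 x, (if m ∈ S ∧ m0 ≤ m then (1 : ℝ) else 0) ≤
      cutf X (GG z h) (f.eval (m : ℤ) + a) := by
    intro m hm
    rw [mem_Icc] at hm
    split_ifs with h2
    · obtain ⟨h3, h4⟩ := h2
      have h5 := hm0 m h4
      have h6 := hX m hm.1 hm.2
      unfold cutf
      rw [if_pos ⟨by omega, h6⟩]
      unfold GG
      rw [if_pos]
      intro p hp
      rw [hS, mem_filter] at h3
      have h7 := h3.2 p hp
      rw [Fp_eval, add_zero, zero_add] at h7
      constructor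
      · intro h8
        exact h7 (dvd_mul_of_dvd_left h8 _)
      · intro h8
        exact h7 (dvd_mul_of_dvd_right h8 _)
    · unfold cutf GG
      split_ifs <;> norm_num
  refine le_trans ?_ (sum_le_sum h1)
  rw [← sum_filter, sum_const, nsmul_eq_mul, mul_one]
  have h2 : S ⊆ (Icc 1 x).filter (fun m => m ∈ S ∧ m0 ≤ m) ∪ range m0 := by
    intro m hm
    rw [mem_union, mem_filter, mem_range]
    by_cases h3 : m0 ≤ m
    · left
      refine ⟨?_, hm, h3⟩
      rw [hS, mem_filter] at hm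
      exact hm.1
    · right
      omega
  have h3 := (card_le_card h2).trans (card_union_le _ _)
  rw [card_range] at h3
  have h4 : (S.card : ℝ) ≤ ((Icc 1 x).filter (fun m => m ∈ S ∧ m0 ≤ m)).card + m0 := by exact_mod_cast h3
  linarith

lemma loglog_pow (k : ℕ) (K : ℝ) : ∀ᶠ X : ℕ in Filter.atTop,
    K * Real.log (Real.log X) ^ k ≤ Real.log X := by
  have h1 := (Real.isLittleO_pow_log_id_atTop (n := k)).bound
    (show (0 : ℝ) < 1 / (|K| + 1) by positivity)
  have h2 := (Real.tendsto_log_atTop.comp (tendsto_natCast_atTop_atTop (R := ℝ))).eventually h1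
  filter_upwards [h2, log_big 3] with X h3 h4
  simp only [Function.comp, id] at h3
  have hl : 0 < Real.log (Real.log X) := Real.log_pos (by linarith)
  rw [Real.norm_of_nonneg (by positivity), Real.norm_of_nonneg (by linarith)] at h3
  have h5 : (|K| + 1) * Real.log (Real.log X) ^ k ≤ Real.log X := by
    have := mul_le_mul_of_nonneg_left h3 (show (0 : ℝ) ≤ |K| + 1 by positivity)
    rwa [← mul_assoc, mul_one_div_cancel (by positivity), one_mul] at this
  refine le_trans ?_ h5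
  apply mul_le_mul_of_nonneg_right _ (by positivity)
  have := le_abs_self K
  linarith

end Pool.Agent.H542.TW
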