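import Pool.Agent.H542.TW.T11

/-!
Products of local factors, and the final count.
-/

set_option autoImplicit false

namespace Pool.Agent.H542.TW

open Finset Polynomial
open Pool.Agent.H373R2.T7 (pz)
open Pool.Agent.W23.DC (tt pr)
open Pool.Agent.Y882 (VV PZ)
open Pool.Agent.Y882.KW (WW)
open Pool.Agent.TH204.WR (TT cutf rho flp rho_le_deg)
open ArithmeticFunction (vonMangoldt vonMangoldt_nonneg)

lemma om_fac_nonneg (f : ℤ[X]) (a h : ℤ) (p : ℕ) (hp : p.Prime) : 0 ≤ 1 - (omg f a h p : ℝ) / p := by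
  have h1 : omg f a h p ≤ p := by
    unfold omg
    exact (card_filter_le _ _).trans (card_range p).le
  have hp0 : (0 : ℝ) < p := by exact_mod_cast hp.pos
  rw [sub_nonneg, div_le_one hp0]
  exact_mod_cast h1

/-- comparison of the products -/
theorem prod_cmp (f : ℤ[X]) (hd : 1 ≤ f.natDegree) (hlc : 0 < f.leadingCoeff) (h : ℤ) :
    ∃ c : ℝ, 0 < c ∧ ∀ (a : ℤ) (w z : ℕ), 3 ≤ w → w ≤ z → 2 * f.natDegree ≤ w →
    f.leadingCoeff ≤ w →
    c * (Real.log w / Real.log z) ^ (2 * f.natDegree) * SS f a h w ≤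
      Real.log z ^ 2 * ∏ p ∈ pz z, (1 - (omg f a h p : ℝ) / p) := by
  obtain ⟨c3, hc3, Hmid⟩ := mid_low (2 * f.natDegree) (by omega)
  obtain ⟨c4, hc4, Hml⟩ := mert_low
  refine ⟨c4 ^ 2 * c3, by positivity, fun a w z hw hwz hdw hlw => ?_⟩
  have hw3 : (3 : ℝ) ≤ w := by exact_mod_cast hw
  have hz3 : (3 : ℝ) ≤ z := by exact_mod_cast hw.trans hwz
  have hlz : 0 < Real.log z := Real.log_pos (by linarith)
  have hlw' : 0 < Real.log w := Real.log_pos (by linarith)
  -- the product up to `w`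
  have h1 : SS f a h w = (∏ p ∈ pz w, (1 - (omg f a h p : ℝ) / p)) / (∏ p ∈ pz w, (1 - 1 / (p : ℝ))) ^ 2 := by
    unfold SS
    rw [prod_div_distrib, prod_pow]
  have h2 := Hml z (hw.trans hwz)
  have hPz := pz_pos z
  have hPw := pz_pos w
  have hsub : (pz z).filter (fun p => p ≤ w) = pz w := by
    ext p
    rw [mem_filter, mem_pz, mem_pz]
    constructor
    · rintro ⟨⟨h1, h2⟩, h3⟩; exact ⟨h1, h3⟩
    · rintro ⟨h1, h2⟩; exact ⟨⟨h1, h2.trans hwz⟩, h2⟩
  have hPP : ∏ p ∈ pz z, (1 - 1 / (p : ℝ)) ≤ ∏ p ∈ pz w, (1 - 1 / (p : ℝ)) := by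
    rw [← prod_filter_mul_prod_filter_not (pz z) (fun p => p ≤ w), hsub]
    have h3 : ∏ p ∈ (pz z).filter (fun p => ¬ p ≤ w), (1 - 1 / (p : ℝ)) ≤ 1 := by
      apply prod_le_one
      · intro p hp
        have hp2 : (2 : ℝ) ≤ p := by exact_mod_cast (mem_pz.1 (mem_filter.1 hp).1).1.two_le
        rw [sub_nonneg, div_le_one (by linarith)]
        linarith
      · intro p hp
        have : (0 : ℝ) ≤ 1 / (p : ℝ) := by positivity
        linarith
    exact mul_le_of_le_one_right hPw.le h3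
  have hom0 : 0 ≤ ∏ p ∈ pz w, (1 - (omg f a h p : ℝ) / p) :=
    prod_nonneg fun p hp => om_fac_nonneg f a h p (mem_pz.1 hp).1
  have h3 : c4 ≤ Real.log z * ∏ p ∈ pz w, (1 - 1 / (p : ℝ)) := by
    rw [div_le_iff₀ hlz, mul_comm] at h2
    exact h2.trans (mul_le_mul_of_nonneg_left hPP hlz.le)
  have h4 : c4 ^ 2 * SS f a h w ≤ Real.log z ^ 2 * ∏ p ∈ pz w, (1 - (omg f a h p : ℝ) / p) := by
    have h5 : c4 ^ 2 ≤ (Real.log z * ∏ p ∈ pz w, (1 - 1 / (p : ℝ))) ^ 2 := pow_le_pow_left₀ hc4.le h3 2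
    rw [h1, ← mul_div_assoc, div_le_iff₀ (by positivity)]
    calc c4 ^ 2 * ∏ p ∈ pz w, (1 - (omg f a h p : ℝ) / p) ≤
        (Real.log z * ∏ p ∈ pz w, (1 - 1 / (p : ℝ))) ^ 2 * ∏ p ∈ pz w, (1 - (omg f a h p : ℝ) / p) :=
          mul_le_mul_of_nonneg_right h5 hom0
      _ = _ := by ring
  have h5 := Hmid w z hw hwz hdw (omg f a h) (by
    intro p hp hwp
    apply omg_le f hd hlc a h p (mem_pz.1 hp).1
    have : (w : ℤ) < p := by exact_mod_cast hwp
    linarith)
  have h6 : ∏ p ∈ pz z, (1 - (omg f a h p : ℝ) / p) =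
      (∏ p ∈ pz w, (1 - (omg f a h p : ℝ) / p)) *
        ∏ p ∈ (pz z).filter (fun p => ¬ p ≤ w), (1 - (omg f a h p : ℝ) / p) := by
    rw [← prod_filter_mul_prod_filter_not (pz z) (fun p => p ≤ w), hsub]
  rw [h6]
  calc c4 ^ 2 * c3 * (Real.log w / Real.log z) ^ (2 * f.natDegree) * SS f a h w =
      (c4 ^ 2 * SS f a h w) * (c3 * (Real.log w / Real.log z) ^ (2 * f.natDegree)) := by ring
    _ ≤ (Real.log z ^ 2 * ∏ p ∈ pz w, (1 - (omg f a h p : ℝ) / p)) *
        (∏ p ∈ (pz z).filter (fun p => ¬ p ≤ w), (1 - (omg f a h p : ℝ) / p)) := by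
        apply mul_le_mul h4 h5 (by positivity)
        exact mul_nonneg (by positivity) hom0
    _ = _ := by ring

/-- the partial singular series is not small -/
theorem SS_low (f : ℤ[X]) (hd : 1 ≤ f.natDegree) (h : ℤ) :
    ∃ c : ℝ, 0 < c ∧ ∀ (a : ℤ) (w : ℕ), 3 ≤ w → (∀ p ∈ pz w, omg f a h p < p) →
    c / Real.log w ^ (2 * f.natDegree - 2) ≤ SS f a h w := by
  obtain ⟨c2, hc2, Hlow⟩ := prod_low (2 * f.natDegree) (by omega)
  obtain ⟨c1, hc1, Hup⟩ := mert_up
  refine ⟨c2 / c1 ^ 2, by positivity, fun a w hw hlt => ?_⟩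
  have hw3 : (3 : ℝ) ≤ w := by exact_mod_cast hw
  have hlw' : 0 < Real.log w := Real.log_pos (by linarith)
  have hPw := pz_pos w
  have h1 : SS f a h w = (∏ p ∈ pz w, (1 - (omg f a h p : ℝ) / p)) / (∏ p ∈ pz w, (1 - 1 / (p : ℝ))) ^ 2 := by
    unfold SS
    rw [prod_div_distrib, prod_pow]
  have h2 := Hlow w hw (omg f a h) (fun p hp => ⟨omg_le' f hd a h p (mem_pz.1 hp).1 (hlt p hp), hlt p hp⟩)
  have h3 : (∏ p ∈ pz w, (1 - 1 / (p : ℝ))) ^ 2 ≤ (c1 / Real.log w) ^ 2 :=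
    pow_le_pow_left₀ hPw.le (Hup w hw) 2
  rw [h1]
  calc c2 / c1 ^ 2 / Real.log w ^ (2 * f.natDegree - 2) =
      (c2 / Real.log w ^ (2 * f.natDegree)) / (c1 / Real.log w) ^ 2 := by
        have h4 : Real.log w ^ (2 * f.natDegree) = Real.log w ^ (2 * f.natDegree - 2) * Real.log w ^ 2 := by
          rw [← pow_add]
          congr 1
          omega
        rw [h4]
        field_simp
    _ ≤ (∏ p ∈ pz w, (1 - (omg f a h p : ℝ) / p)) / (c1 / Real.log w) ^ 2 :=
        div_le_div_of_nonneg_right h2 (by positivity)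
    _ ≤ _ := div_le_div_of_nonneg_left (le_trans (by positivity) h2) (by positivity) h3

open Classical in
/-- **Chen type theorem for almost all shifts.** -/
theorem main (f : ℤ[X]) (hd : 1 ≤ f.natDegree) (hlc : 0 < f.leadingCoeff) (h : ℤ) (hh : h ≠ 0) (U : ℕ) :
    ∃ c : ℝ, 0 < c ∧ ∃ x0 : ℕ, ∀ x : ℕ, x0 ≤ x → ∃ E : Finset ℕ,
    (E.card : ℝ) ≤ (x : ℝ) ^ f.natDegree / Real.log x ^ U ∧
    ∀ a ∈ Icc 1 (x ^ f.natDegree), a ∉ E →
      c * SS f a h ⌊Real.log x⌋₊ * (x / Real.log x ^ 2) ≤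
        ((Icc 1 x).filter (fun m : ℕ => Gd (x ^ f.natDegree) h (f.eval (m : ℤ) + a))).card := by
  obtain ⟨d, hdd⟩ : ∃ d, d = f.natDegree := ⟨_, rfl⟩
  obtain ⟨K0, hK0, hKf⟩ := eval_le f
  obtain ⟨m0, hm0⟩ := eval_pos f hd hlc
  obtain ⟨ε₁, c0, C0, hε, hε2, hc0, hC0, X1, Hwt⟩ := wt
  obtain ⟨K, hK⟩ : ∃ K, K = K0 + 1 := ⟨_, rfl⟩
  obtain ⟨E, x1, hE1, Hsm⟩ := sm C0 hC0 f hd K (by omega) h hh (U + 10)
  obtain ⟨C1, y0, hC1, hy0, Hflp⟩ := flp (2 * f.natDegree) (by omega)
  obtain ⟨c2, hc2, Hlow⟩ := prod_low (2 * f.natDegree) (by omega)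
  obtain ⟨c5, hc5, Hcmp⟩ := prod_cmp f hd hlc h
  rw [← hdd] at hKf hd Hsm Hflp Hlow Hcmp ⊢
  obtain ⟨b, hb⟩ : ∃ b, b = max C1 2 := ⟨_, rfl⟩
  have hd0 : (0 : ℝ) < d := by exact_mod_cast hd
  have hθ : (0 : ℝ) < 1 / (2 * d) := by positivity
  set lc := f.leadingCoeff.toNat with hlcn
  have hev : ∀ᶠ X : ℕ in Filter.atTop,
      (2 * Real.log X ^ E ≤ (X : ℝ) ^ ε₁ ∧ 1 * Real.log X ^ (E * (C1 * b)) ≤ (X : ℝ) ^ (1 / (2 * d) : ℝ) ∧
      (4 * (m0 + 1) : ℝ) * Real.log X ^ 1 ≤ (X : ℝ) ^ (1 / (2 * d) : ℝ) ∧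
      1 * Real.log X ^ (U + 5) ≤ (X : ℝ) ^ (1 / 40 : ℝ)) ∧
      ((Bd X h).card : ℝ) ≤ (X : ℝ) ^ (19 / 20 : ℝ) ∧
      ((E : ℝ) ^ (2 * d) / c2) * Real.log (Real.log X) ^ (2 * d) ≤ Real.log X ∧
      (2 * K : ℝ) ≤ Real.log X ∧ (16 / c0 : ℝ) ≤ Real.log X ∧ (h.natAbs : ℝ) ≤ X ∧
      (1 * Real.log X ^ 0 ≤ (X : ℝ) ^ (1 / 10 : ℝ) / 2) ∧ X1 ≤ X ∧ 3 ≤ X := by
    filter_upwards [log_X_pow E ε₁ hε 2, log_X_pow (E * (C1 * b)) (1 / (2 * d)) hθ 1,
      log_X_pow 1 (1 / (2 * d)) hθ (4 * (m0 + 1)), log_X_pow (U + 5) (1 / 40) (by norm_num) 1,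
      Bd_card h, loglog_pow (2 * d) ((E : ℝ) ^ (2 * d) / c2), log_big (2 * K : ℝ),
      log_big (16 / c0 : ℝ), Filter.eventually_ge_atTop h.natAbs,
      log_X_pow 0 (1 / 10) (by norm_num) 2,
      Filter.eventually_ge_atTop X1, Filter.eventually_ge_atTop 3]
      with X h1 h2 h3 h4 h5 h6 h7 h8 h9 h10 h11 h12
    refine ⟨⟨h1, h2, h3, h4⟩, h5, h6, h7, h8, by exact_mod_cast h9, ?_, h11, h12⟩
    rw [pow_zero] at h10 ⊢
    linarith
  have hev2 : ∀ᶠ x : ℕ in Filter.atTop, (2 * d + 6 + lc + y0 : ℝ) ≤ Real.log x ∧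
      (2 * d : ℝ) ≤ Real.log x ∧ (4 : ℝ) ≤ Real.log x ∧ K ≤ x := by
    filter_upwards [log_big (2 * d + 6 + lc + y0 : ℝ), log_big (2 * d : ℝ), log_big 4,
      Filter.eventually_ge_atTop K] with x h1 h2 h3 h4
    exact ⟨h1, h2, h3, h4⟩
  obtain ⟨X0, hX0⟩ := Filter.eventually_atTop.1 hev
  obtain ⟨x2, hx2⟩ := Filter.eventually_atTop.1 hev2
  have hE1r : (1 : ℝ) ≤ E := by exact_mod_cast hE1
  refine ⟨c0 / (32 * d ^ 2) * (c5 * (1 / (4 * E)) ^ (2 * d)), by positivity,
    max (max X0 x1) (max x2 1), fun x hx => ?_⟩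
  have hxX0 : X0 ≤ x := (le_max_left _ _).trans ((le_max_left _ _).trans hx)
  have hxx1 : x1 ≤ x := (le_max_right _ _).trans ((le_max_left _ _).trans hx)
  have hxx2 : x2 ≤ x := (le_max_left _ _).trans ((le_max_right _ _).trans hx)
  have hx1 : 1 ≤ x := (le_max_right _ _).trans ((le_max_right _ _).trans hx)
  obtain ⟨g1, g2, g3, g4⟩ := hx2 x hxx2
  have hxr : (1 : ℝ) ≤ x := by exact_mod_cast hx1
  have hx0 : (0 : ℝ) < x := by linarith
  have Hsm' := Hsm x hxx1
  obtain ⟨X, hX⟩ : ∃ X, X = K * x ^ d := ⟨_, rfl⟩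
  rw [← hX] at Hsm'
  have hxd1 : 1 ≤ x ^ d := Nat.one_le_pow _ _ hx1
  have hxX : x ≤ X := by
    rw [hX]
    calc x = 1 * x ^ 1 := by ring
      _ ≤ K * x ^ d := Nat.mul_le_mul (by omega) (Nat.pow_le_pow_right hx1 hd)
  obtain ⟨⟨e1, e2, e3, e4⟩, e5, e6, e7, e8, e9, e10, e11, e12⟩ := hX0 X (hxX0.trans hxX)
  have hX3 : (3 : ℝ) ≤ X := by exact_mod_cast e12
  have hXpos : (0 : ℝ) < X := by linarith
  have hXr : (X : ℝ) = K * (x : ℝ) ^ d := by rw [hX]; push_cast; ring
  -- the logarithms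
  obtain ⟨l, hl⟩ : ∃ l, l = Real.log x := ⟨_, rfl⟩
  obtain ⟨L, hL⟩ : ∃ L, L = Real.log X := ⟨_, rfl⟩
  rw [← hl] at g1 g2 g3
  rw [← hL] at e1 e2 e3 e4 e6 e7 e8
  have hlL : l ≤ L := by
    rw [hl, hL]
    exact Real.log_le_log hx0 (by exact_mod_cast hxX)
  have hKx : K ≤ x ^ d := g4.trans (by
    calc x = x ^ 1 := (pow_one x).symm
      _ ≤ x ^ d := Nat.pow_le_pow_right hx1 hd)
  have hXx : (X : ℝ) ≤ (x : ℝ) ^ (2 * d) := by
    have h1 : (K : ℝ) ≤ (x : ℝ) ^ d := by exact_mod_cast hKx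
    calc (X : ℝ) = K * (x : ℝ) ^ d := hXr
      _ ≤ (x : ℝ) ^ d * (x : ℝ) ^ d := mul_le_mul_of_nonneg_right h1 (by positivity)
      _ = _ := by ring
  have hLl : L ≤ 2 * d * l := by
    rw [hl, hL]
    have h1 := Real.log_le_log hXpos hXx
    rw [Real.log_pow] at h1
    push_cast at h1
    exact h1
  have hXx2 : (X : ℝ) ^ (1 / (2 * d) : ℝ) ≤ x := by
    have h1 := Real.rpow_le_rpow hXpos.le hXx (show (0 : ℝ) ≤ 1 / (2 * d) by positivity)
    have h2 : ((x : ℝ) ^ (2 * d)) ^ (1 / (2 * d) : ℝ) = x := by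
      rw [← Real.rpow_natCast, ← Real.rpow_mul hx0.le]
      push_cast
      rw [mul_one_div_cancel (by positivity), Real.rpow_one]
    rw [h2] at h1
    exact h1
  have hl4 : 4 ≤ l := g3
  have hl0 : 0 < l := by linarith
  have hL0 : 0 < L := by linarith
  have hL1 : 1 ≤ L := by linarith
  have hll : 0 < Real.log l := Real.log_pos (by linarith)
  -- the sifting limits
  obtain ⟨w, hw⟩ : ∃ w, w = ⌊l⌋₊ := ⟨_, rfl⟩
  obtain ⟨z, hz⟩ : ∃ z, z = ⌊L ^ E⌋₊ := ⟨_, rfl⟩
  have hwl : (w : ℝ) ≤ l := by rw [hw]; exact Nat.floor_le hl0.le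
  have hlw1 : l < w + 1 := by rw [hw]; exact Nat.lt_floor_add_one l
  have hwhalf : l / 2 ≤ w := by linarith
  have hzL : (z : ℝ) ≤ L ^ E := by rw [hz]; exact Nat.floor_le (by positivity)
  have hwz : w ≤ z := by
    rw [hw, hz]
    apply Nat.floor_le_floor
    calc l ≤ L := hlL
      _ = L ^ 1 := (pow_one L).symm
      _ ≤ L ^ E := pow_le_pow_right₀ hL1 hE1
  have hwbig : 2 * d + 5 + lc + y0 ≤ w := by
    have h1 : ((2 * d + 5 + lc + y0 : ℕ) : ℝ) ≤ w := by
      push_cast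
      linarith
    exact_mod_cast h1
  have hw3 : 3 ≤ w := by omega
  have hz3 : 3 ≤ z := hw3.trans hwz
  have hw3r : (3 : ℝ) ≤ w := by exact_mod_cast hw3
  have hz3r : (3 : ℝ) ≤ z := by exact_mod_cast hz3
  have hlogz : 0 < Real.log z := Real.log_pos (by linarith)
  have hlogz1 : 1 ≤ Real.log z := by
    rw [Real.le_log_iff_exp_le (by linarith)]
    exact Real.exp_one_lt_three.le.trans hz3r
  have hlogw : 0 < Real.log w := Real.log_pos (by linarith)
  have hlcw : f.leadingCoeff ≤ w := by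
    have h1 : f.leadingCoeff = lc := by rw [hlcn]; omega
    rw [h1]
    exact_mod_cast (by omega : lc ≤ w)
  have hlogzL : Real.log z ≤ E * Real.log L := by
    rw [← Real.log_pow]
    exact Real.log_le_log (by linarith) hzL
  have hlogL : Real.log L ≤ 2 * Real.log l := by
    have h1 : L ≤ l * l := hLl.trans (mul_le_mul_of_nonneg_right g2 hl0.le)
    have h2 := Real.log_le_log hL0 h1
    rw [Real.log_mul hl0.ne' hl0.ne'] at h2
    linarith
  have hlogw2 : Real.log l / 2 ≤ Real.log w := by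
    have h1 := Real.log_le_log (by linarith : 0 < l / 2) hwhalf
    rw [Real.log_div hl0.ne' (by norm_num)] at h1
    have h2 : Real.log 4 ≤ Real.log l := Real.log_le_log (by norm_num) hl4
    have h3 : Real.log 4 = 2 * Real.log 2 := by
      rw [show (4 : ℝ) = 2 ^ 2 by norm_num, Real.log_pow]
      norm_num
    linarith
  have hratio : 1 / (4 * E) ≤ Real.log w / Real.log z := by
    rw [div_le_div_iff₀ (by positivity) hlogz]
    have h1 : Real.log z ≤ E * (2 * Real.log l) :=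
      hlogzL.trans (mul_le_mul_of_nonneg_left hlogL (by positivity))
    have h2 : E * (2 * Real.log l) ≤ Real.log w * (4 * E) := by
      have := mul_le_mul_of_nonneg_right hlogw2 (show (0 : ℝ) ≤ 4 * E by positivity)
      linarith
    linarith
  -- the weights
  obtain ⟨c, Hc1, Hc2, Hc3⟩ := Hwt X e11
  have hzX : (z : ℝ) < (X : ℝ) ^ ε₁ := by
    have h1 : 0 < L ^ E := by positivity
    linarith
  obtain ⟨Hc4, Hc5, Hc6, Hc7⟩ := Hc3 z hz3 hzX
  set P := Pm X (288 / 625) z with hP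
  set κ := kap z P c with hκ
  have Hsm2 := Hsm' c Hc1 Hc2 z (by rw [hz, hL]) Hc6 Hc7
    ((Icc 1 (x ^ d)).image (fun a : ℕ => (a : ℤ)))
  rw [← hL] at Hsm2 Hc5 Hc6
  -- the exceptional sets
  set T : ℤ → ℝ := fun a => TT (fun n => f.eval (n : ℤ)) 1 x X
    (fun n => FF z h P c n - κ * GG z h n) a with hT
  set E1 := (Icc 1 (x ^ d)).filter (fun a : ℕ => x / L ^ 4 ≤ |T a|) with hE1d
  set E2 := (Icc 1 (x ^ d)).filter (fun a : ℕ => x / (X : ℝ) ^ (1 / 40 : ℝ) ≤
    (((Icc 1 x).filter (fun m : ℕ => f.eval (m : ℤ) + a ∈ Bd X h)).card : ℝ)) with hE2d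
  have hcE1 : (E1.card : ℝ) ≤ X / L ^ (U + 2) := by
    have h1 := exc1 (Icc 1 (x ^ d)) T (x / L ^ 4) _ (by positivity) Hsm2
    refine h1.trans (le_of_eq ?_)
    field_simp
    ring
  have hcE2 : (E2.card : ℝ) ≤ X / L ^ (U + 2) := by
    have h1 := exc2 (Icc 1 (x ^ d)) x (fun m => f.eval (m : ℤ)) (Bd X h)
      (x / (X : ℝ) ^ (1 / 40 : ℝ)) (by positivity)
    refine h1.trans ?_
    calc (x : ℝ) * (Bd X h).card / (x / (X : ℝ) ^ (1 / 40 : ℝ)) =
        (Bd X h).card * (X : ℝ) ^ (1 / 40 : ℝ) := by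
          field_simp
      _ ≤ (X : ℝ) ^ (19 / 20 : ℝ) * (X : ℝ) ^ (1 / 40 : ℝ) :=
          mul_le_mul_of_nonneg_right e5 (by positivity)
      _ = X / (X : ℝ) ^ (1 / 40 : ℝ) := by
          rw [← Real.rpow_add hXpos, eq_div_iff (by positivity), ← Real.rpow_add hXpos]
          norm_num
      _ ≤ X / L ^ (U + 2) := by
          apply div_le_div_of_nonneg_left hXpos.le (by positivity)
          rw [one_mul] at e4
          refine le_trans ?_ e4
          exact pow_le_pow_right₀ hL1 (by omega)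
  refine ⟨E1 ∪ E2, ?_, ?_⟩
  · rw [← hl]
    calc ((E1 ∪ E2).card : ℝ) ≤ (E1.card : ℝ) + E2.card := by exact_mod_cast card_union_le _ _
      _ ≤ X / L ^ (U + 2) + X / L ^ (U + 2) := add_le_add hcE1 hcE2
      _ = (x : ℝ) ^ d / L ^ U * ((2 * K) / L ^ 2) := by
          rw [hXr]
          field_simp
          ring
      _ ≤ (x : ℝ) ^ d / L ^ U * 1 := by
          apply mul_le_mul_of_nonneg_left _ (by positivity)
          rw [div_le_one (by positivity)]
          have h1 : L * 1 ≤ L * L := mul_le_mul_of_nonneg_left hL1 hL0.le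
          rw [pow_two]
          linarith
      _ ≤ (x : ℝ) ^ d / l ^ U := by
          rw [mul_one]
          apply div_le_div_of_nonneg_left (by positivity) (by positivity)
          exact pow_le_pow_left₀ hl0.le hlL U
  · intro a ha hE
    rw [mem_union] at hE
    push Not at hE
    obtain ⟨hnE1, hnE2⟩ := hE
    have ha' := mem_Icc.1 ha
    have hT1 : |T a| < x / L ^ 4 := by
      by_contra h1
      push Not at h1
      exact hnE1 (mem_filter.2 ⟨ha, h1⟩)
    have hB1 : (((Icc 1 x).filter (fun m : ℕ => f.eval (m : ℤ) + a ∈ Bd X h)).card : ℝ) <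
        x / (X : ℝ) ^ (1 / 40 : ℝ) := by
      by_contra h1
      push Not at h1
      exact hnE2 (mem_filter.2 ⟨ha, h1⟩)
    set Gset := (Icc 1 x).filter (fun m : ℕ => Gd (x ^ d) h (f.eval (m : ℤ) + a)) with hGset
    rw [← hl, ← hw]
    by_cases hfix : ∃ p ∈ pz w, omg f a h p = p
    · obtain ⟨p, hp, hpe⟩ := hfix
      have h1 : SS f a h w = 0 := by
        unfold SS
        apply prod_eq_zero hp
        have hp0 : (p : ℝ) ≠ 0 := by exact_mod_cast (mem_pz.1 hp).1.ne_zero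
        rw [hpe, div_self hp0, sub_self, zero_div]
      rw [h1, mul_zero, zero_mul]
      exact Nat.cast_nonneg _
    push Not at hfix
    have homlt : ∀ p ∈ pz z, omg f a h p < p ∧ omg f a h p ≤ 2 * d := by
      intro p hp
      have hpp := mem_pz.1 hp
      have hle : omg f a h p ≤ p := by
        unfold omg
        exact (card_filter_le _ _).trans (card_range p).le
      by_cases hpw : p ≤ w
      · have h1 : omg f a h p < p := lt_of_le_of_ne hle (hfix p (mem_pz.2 ⟨hpp.1, hpw⟩))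
        refine ⟨h1, ?_⟩
        rw [hdd]
        exact omg_le' f (by omega) a h p hpp.1 h1
      · push Not at hpw
        have h1 : omg f a h p ≤ 2 * d := by
          rw [hdd]
          apply omg_le f (by omega) hlc a h p hpp.1
          have : (w : ℤ) < p := by exact_mod_cast hpw
          linarith
        exact ⟨by omega, h1⟩
    -- the main term
    set W0 := ∏ p ∈ pz z, (1 - (omg f a h p : ℝ) / p) with hW0
    have hW01 : 1 / L ≤ W0 := by
      refine le_trans ?_ (Hlow z hz3 (omg f a h) (fun p hp => ⟨(homlt p hp).2, (homlt p hp).1⟩))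
      rw [div_le_div_iff₀ hL0 (by positivity), one_mul]
      have h1 : Real.log z ^ (2 * d) ≤ (E * Real.log L) ^ (2 * d) :=
        pow_le_pow_left₀ hlogz.le hlogzL _
      have h2 : (E * Real.log L) ^ (2 * d) = c2 * ((E : ℝ) ^ (2 * d) / c2 * Real.log L ^ (2 * d)) := by
        rw [mul_pow]
        field_simp
      rw [h2] at h1
      exact h1.trans (mul_le_mul_of_nonneg_left e6 hc2.le)
    have hW00 : 0 < W0 := lt_of_lt_of_le (by positivity) hW01
    have hfl := Hflp (Fp f a h) 0 (by rw [Fp_deg f (by omega), hdd]) b (by omega) z (by omega)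
      (by intro p hp; rw [← omg_rho]; exact (homlt p hp).1) x
      (by
        have h1 : ((z ^ (C1 * b) : ℕ) : ℝ) ≤ x := by
          push_cast
          calc (z : ℝ) ^ (C1 * b) ≤ (L ^ E) ^ (C1 * b) := pow_le_pow_left₀ (by positivity) hzL _
            _ = 1 * L ^ (E * (C1 * b)) := by rw [← pow_mul, one_mul]
            _ ≤ _ := e2.trans hXx2
        exact_mod_cast h1) 0
    have hW0e : ∏ p ∈ pz z, (1 - (rho (Fp f a h) 0 p : ℝ) / p) = W0 := by
      rw [hW0]
      apply prod_congr rfl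
      intro p _
      rw [omg_rho]
    rw [hW0e] at hfl
    have hbb : (1 / 2 : ℝ) ^ b ≤ 1 / 4 := by
      calc (1 / 2 : ℝ) ^ b ≤ (1 / 2 : ℝ) ^ 2 :=
            pow_le_pow_of_le_one (by norm_num) (by norm_num) (by omega)
        _ = 1 / 4 := by norm_num
    have hxW0 : 0 < x * W0 := by positivity
    have hN1 : x * W0 / 2 ≤ ((((Icc 1 x).filter (fun s : ℕ =>
        ∀ p ∈ pz z, ¬ (p : ℤ) ∣ (Fp f a h).eval ((0 : ℤ) + s) + 0)).card : ℕ) : ℝ) := by
      have h1 := (abs_le.1 hfl).1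
      have h2 : 2 * (1 / 2 : ℝ) ^ b * (x * W0) ≤ 2 * (1 / 4) * (x * W0) :=
        mul_le_mul_of_nonneg_right (by linarith) hxW0.le
      linarith
    have hmc := main_count f a h x X z m0 ha'.1 hm0 (by
      intro m hm1 hm2
      have h1 := (abs_le.1 (hKf m hm1)).2
      have h2 : (m : ℤ) ^ d ≤ (x : ℤ) ^ d := by
        have : m ^ d ≤ x ^ d := Nat.pow_le_pow_left hm2 d
        exact_mod_cast this
      have h3 : (a : ℤ) ≤ (x : ℤ) ^ d := by exact_mod_cast ha'.2
      have h4 : (X : ℤ) = (K0 + 1) * (x : ℤ) ^ d := by rw [hX, hK]; push_cast; ring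
      rw [h4]
      have h5 : (0 : ℤ) ≤ K0 := by positivity
      have h6 : (K0 : ℤ) * (m : ℤ) ^ d ≤ K0 * (x : ℤ) ^ d := mul_le_mul_of_nonneg_left h2 h5
      have h7 : ((K0 : ℤ) + 1) * (x : ℤ) ^ d = K0 * (x : ℤ) ^ d + (x : ℤ) ^ d := by ring
      linarith)
    set S2 := ∑ m ∈ Icc 1 x, cutf X (GG z h) (f.eval (m : ℤ) + a) with hS2
    have hS2low : x * W0 / 4 ≤ S2 := by
      have h1 : (m0 : ℝ) ≤ x * W0 / 4 := by
        have h2 : 4 * (m0 + 1) * L ≤ x := by
          rw [pow_one] at e3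
          exact e3.trans hXx2
        have h3 : x * (1 / L) ≤ x * W0 := mul_le_mul_of_nonneg_left hW01 hx0.le
        have h4 : 4 * (m0 + 1 : ℝ) ≤ x * (1 / L) := by
          rw [mul_one_div, le_div_iff₀ hL0]
          exact h2
        linarith
      linarith
    have hS2up : S2 ≤ x := by
      calc S2 ≤ ∑ m ∈ Icc 1 x, (1 : ℝ) := by
            apply sum_le_sum
            intro m _
            unfold cutf GG
            split_ifs <;> norm_num
        _ = x := by simp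
    set S1 := ∑ m ∈ Icc 1 x, cutf X (FF z h P c) (f.eval (m : ℤ) + a) with hS1
    have hTS : T a = S1 - κ * S2 := by
      rw [hT, hS1, hS2, mul_sum, ← sum_sub_distrib]
      simp only [TT]
      apply sum_congr rfl
      intro m _
      exact cutf_sub X (FF z h P c) (GG z h) κ _
    have hS1low : κ * S2 - x / L ^ 4 ≤ S1 := by
      have h1 := (abs_lt.1 hT1).1
      rw [hTS] at h1
      linarith
    have hκ0 : 0 ≤ c0 * Real.log z ^ 2 / L := by positivity
    have hS1low2 : c0 * Real.log z ^ 2 / L * (x * W0 / 4) - x / L ^ 4 ≤ S1 := by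
      have h1 : c0 * Real.log z ^ 2 / L * (x * W0 / 4) ≤ κ * S2 :=
        mul_le_mul Hc5 hS2low (by positivity) (hκ0.trans Hc5)
      linarith
    -- the upper bound
    set Bset := (Icc 1 x).filter (fun m : ℕ => f.eval (m : ℤ) + a ∈ Bd X h) with hBset
    have hS1up : S1 ≤ L * (Gset.card + Bset.card) := by
      have h1 : ∀ m ∈ Icc 1 x, cutf X (FF z h P c) (f.eval (m : ℤ) + a) ≤
          L * ((if Gd (x ^ d) h (f.eval (m : ℤ) + a) then 1 else 0) +
            (if f.eval (m : ℤ) + a ∈ Bd X h then 1 else 0)) := by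
        intro m hm
        unfold cutf
        split_ifs with h2 h3 h4 h5
        all_goals try (apply mul_nonneg hL0.le; norm_num)
        all_goals
          have h6 := FF_le X z h c (by omega) e9 (by
            rw [pow_zero] at e10
            linarith) Hc4 (f.eval (m : ℤ) + a) (mem_Icc.2 h2)
          rw [← hL] at h6
          refine h6.trans ?_
          apply mul_le_mul_of_nonneg_left _ hL0.le
        · split_ifs <;> norm_num
        · split_ifs <;> norm_num
        · split_ifs <;> norm_num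
        · rw [if_neg]
          · norm_num
          · rintro (h7 | h7)
            · apply h3
              refine ⟨h7.1, h7.2.1, h7.2.2.1, fun p hp hpd => le_trans ?_ (h7.2.2.2 p hp hpd)⟩
              apply Real.rpow_le_rpow (by positivity) _ (by norm_num)
              rw [hX]
              push_cast
              have h8 : (1 : ℝ) ≤ K := by exact_mod_cast (by omega : 1 ≤ K)
              have h9 : (0 : ℝ) ≤ (x : ℝ) ^ d := by positivity
              exact le_mul_of_one_le_left h9 h8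
            · exact h5 h7
      refine (sum_le_sum h1).trans ?_
      rw [← mul_sum, sum_add_distrib, ← sum_filter, ← sum_filter, sum_const, sum_const]
      simp only [nsmul_eq_mul, mul_one]
      exact le_refl _
    -- the conclusion
    have hA1 : c0 * Real.log z ^ 2 * W0 * x / (8 * L ^ 2) ≤ Gset.card := by
      have h1 : x / (X : ℝ) ^ (1 / 40 : ℝ) ≤ x / L ^ 5 := by
        apply div_le_div_of_nonneg_left hx0.le (by positivity)
        rw [one_mul] at e4
        exact (pow_le_pow_right₀ hL1 (by omega)).trans e4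
      have h2 : (Bset.card : ℝ) ≤ x / L ^ 5 := hB1.le.trans h1
      have h3 : c0 * Real.log z ^ 2 / L * (x * W0 / 4) - x / L ^ 4 ≤ L * (Gset.card + x / L ^ 5) :=
        hS1low2.trans (hS1up.trans (mul_le_mul_of_nonneg_left (by linarith) hL0.le))
      have h4 : L * (Gset.card + x / L ^ 5) = L * Gset.card + x / L ^ 4 := by
        field_simp
      rw [h4] at h3
      have h5 : 2 * (x / L ^ 4) ≤ c0 * Real.log z ^ 2 / L * (x * W0 / 8) := by
        have h6 : 16 ≤ c0 * L := by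
          rw [div_le_iff₀ hc0] at e8
          linarith
        have h7 : 1 ≤ L * W0 := by
          rw [div_le_iff₀ hL0] at hW01
          linarith
        have h8 : 1 ≤ Real.log z ^ 2 := one_le_pow₀ hlogz1
        have h9 : 16 * 1 * 1 * 1 ≤ (c0 * L) * (Real.log z ^ 2) * (L * W0) * L := by
          apply mul_le_mul _ hL1 (by norm_num) (by positivity)
          apply mul_le_mul _ h7 (by norm_num) (by positivity)
          exact mul_le_mul h6 h8 (by norm_num) (by positivity)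
        calc 2 * (x / L ^ 4) = x / (8 * L ^ 4) * (16 * 1 * 1 * 1) := by
              field_simp
              ring
          _ ≤ x / (8 * L ^ 4) * ((c0 * L) * (Real.log z ^ 2) * (L * W0) * L) :=
              mul_le_mul_of_nonneg_left h9 (by positivity)
          _ = c0 * Real.log z ^ 2 / L * (x * W0 / 8) := by
              field_simp
      have h6 : c0 * Real.log z ^ 2 / L * (x * W0 / 8) ≤ L * Gset.card := by
        have h7 : c0 * Real.log z ^ 2 / L * (x * W0 / 4) =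
            c0 * Real.log z ^ 2 / L * (x * W0 / 8) + c0 * Real.log z ^ 2 / L * (x * W0 / 8) := by ring
        linarith
      calc c0 * Real.log z ^ 2 * W0 * x / (8 * L ^ 2) =
          (c0 * Real.log z ^ 2 / L * (x * W0 / 8)) / L := by
            field_simp
        _ ≤ (L * Gset.card) / L := div_le_div_of_nonneg_right h6 hL0.le
        _ = Gset.card := by field_simp
    have hSS0 : 0 ≤ SS f a h w := by
      unfold SS
      apply prod_nonneg
      intro p hp
      apply div_nonneg (om_fac_nonneg f a h p (mem_pz.1 hp).1) (sq_nonneg _)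
    have hcmp := Hcmp a w z hw3 hwz (by omega) hlcw
    have h10 : c5 * (1 / (4 * E)) ^ (2 * d) * SS f a h w ≤ Real.log z ^ 2 * W0 := by
      refine le_trans ?_ hcmp
      apply mul_le_mul_of_nonneg_right _ hSS0
      apply mul_le_mul_of_nonneg_left _ hc5.le
      exact pow_le_pow_left₀ (by positivity) hratio _
    refine le_trans ?_ hA1
    have h11 : L ^ 2 ≤ (2 * d * l) ^ 2 := pow_le_pow_left₀ hL0.le hLl 2
    calc c0 / (32 * d ^ 2) * (c5 * (1 / (4 * E)) ^ (2 * d)) * SS f a h w * (x / l ^ 2) =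
        c0 * x * (c5 * (1 / (4 * E)) ^ (2 * d) * SS f a h w) / (8 * (2 * d * l) ^ 2) := by
          field_simp
          ring
      _ ≤ c0 * x * (Real.log z ^ 2 * W0) / (8 * (2 * d * l) ^ 2) := by
          apply div_le_div_of_nonneg_right _ (by positivity)
          exact mul_le_mul_of_nonneg_left h10 (by positivity)
      _ ≤ c0 * x * (Real.log z ^ 2 * W0) / (8 * L ^ 2) := by
          apply div_le_div_of_nonneg_left (by positivity) (by positivity)
          linarith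
      _ = _ := by ring

end Pool.Agent.H542.TW
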