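import Pool.Graph.R_seed8.Y889.PN.BVMax
import Pool.Graph.R_seed8.H373R2.T7.Crt
import Pool.Graph.R_seed8.H373R2.T7.LamMaj

/-!
The von Mangoldt function at the integers `n` of a residue class such that `n` and `n + h` have no
small prime factor and `n + h` is divisible by given primes.
-/

set_option autoImplicit false

namespace Pool.Agent.H542.TW

open Finset
open Pool.Agent.H373R2.T7 (pz es es_nonneg sieve_gen' lam_mult_prime count_sys totient_prod)
open Pool.Agent.Y889.PN (PS)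

open ArithmeticFunction (vonMangoldt vonMangoldt_nonneg)

lemma mem_pz {z p : ℕ} : p ∈ pz z ↔ p.Prime ∧ p ≤ z := by
  unfold pz
  rw [mem_filter, mem_Icc]
  constructor
  · rintro ⟨h1, h2⟩; exact ⟨h2, h1.2⟩
  · rintro ⟨h1, h2⟩; exact ⟨⟨h1.one_le, h2⟩, h1⟩

/-- `n` and `n + h` have no prime factor up to `z` -/
def Rg (z : ℕ) (h : ℤ) (n : ℤ) : Prop := ∀ p ∈ pz z, ¬ (p : ℤ) ∣ n ∧ ¬ (p : ℤ) ∣ n + h

lemma sum_bU_le {ι α : Type*} [DecidableEq α] [DecidableEq ι] (I : Finset ι) (S : ι → Finset α)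
    (f : α → ℝ) (hf : ∀ a, 0 ≤ f a) : ∑ a ∈ I.biUnion S, f a ≤ ∑ i ∈ I, ∑ a ∈ S i, f a := by
  induction I using Finset.induction_on with
  | empty => simp
  | insert i I hi ih =>
    rw [biUnion_insert, sum_insert hi]
    have h1 := sum_union_inter (s₁ := S i) (s₂ := I.biUnion S) (f := f)
    have h2 : 0 ≤ ∑ a ∈ S i ∩ I.biUnion S, f a := sum_nonneg fun a _ => hf a
    linarith

/-- divisibility by a product of primes -/
lemma prod_dvd_iff (T : Finset ℕ) (hT : ∀ p ∈ T, p.Prime) (m : ℤ) :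
    (∀ p ∈ T, (p : ℤ) ∣ m) ↔ ((∏ p ∈ T, p : ℕ) : ℤ) ∣ m := by
  constructor
  · intro h
    have h1 : (∏ p ∈ T, p) ∣ m.natAbs := by
      apply Finset.prod_primes_dvd
      · intro p hp
        exact (hT p hp).prime
      · intro p hp
        exact Int.natCast_dvd.1 (h p hp)
    exact Int.natCast_dvd.2 h1
  · intro h p hp
    exact (Int.natCast_dvd_natCast.2 (dvd_prod_of_mem _ hp)).trans h

/-- a class modulo `q` and a divisibility condition is a class -/
lemma crt_class (q D : ℕ) (hq : 1 ≤ q) (hD : 1 ≤ D) (hcop : q.Coprime D) (b h : ℤ) :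
    ∃ a : ℕ, ∀ n : ℕ, ((n : ℤ) ≡ b [ZMOD q] ∧ (D : ℤ) ∣ n + h) ↔ n ≡ a [MOD q * D] := by
  have hq0 : (0 : ℤ) < q := by exact_mod_cast hq
  have hD0 : (0 : ℤ) < D := by exact_mod_cast hD
  have hb : (((b % q).toNat : ℕ) : ℤ) = b % q := Int.toNat_of_nonneg (Int.emod_nonneg _ hq0.ne')
  have hh : ((((-h) % D).toNat : ℕ) : ℤ) = (-h) % D := Int.toNat_of_nonneg (Int.emod_nonneg _ hD0.ne')
  obtain ⟨k, hk1, hk2⟩ := Nat.chineseRemainder hcop (b % q).toNat ((-h) % D).toNat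
  refine ⟨k, fun n => ?_⟩
  rw [← Nat.modEq_and_modEq_iff_modEq_mul hcop]
  apply and_congr
  · have h1 : (k : ℤ) ≡ b [ZMOD q] := by
      have h2 := (Int.natCast_modEq_iff).2 hk1
      rw [hb] at h2
      exact h2.trans (Int.mod_modEq _ _)
    constructor
    · intro h3
      exact (Int.natCast_modEq_iff).1 (h3.trans h1.symm)
    · intro h3
      exact ((Int.natCast_modEq_iff).2 h3).trans h1
  · have h1 : (k : ℤ) ≡ -h [ZMOD D] := by
      have h2 := (Int.natCast_modEq_iff).2 hk2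
      rw [hh] at h2
      exact h2.trans (Int.mod_modEq _ _)
    have h4 : (D : ℤ) ∣ (n : ℤ) + h ↔ (n : ℤ) ≡ -h [ZMOD D] := by
      rw [Int.modEq_iff_dvd, ← dvd_neg]
      have : -((n : ℤ) + h) = -h - n := by ring
      rw [this]
    rw [h4]
    constructor
    · intro h3
      exact (Int.natCast_modEq_iff).1 (h3.trans h1.symm)
    · intro h3
      exact ((Int.natCast_modEq_iff).2 h3).trans h1

/-- the primes up to `z` which divide neither `q` nor `h` -/
def Pq (z q : ℕ) (h : ℤ) : Finset ℕ := (pz z).filter (fun p => ¬ p ∣ q ∧ ¬ (p : ℤ) ∣ h)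

lemma tot_prod_real (S : Finset ℕ) (hS : ∀ p ∈ S, p.Prime) :
    (∏ p ∈ S, (1 / ((p : ℝ) - 1))) = 1 / (Nat.totient (∏ p ∈ S, p) : ℝ) := by
  rw [totient_prod S hS, prod_div_distrib, prod_const_one]
  congr 1
  push_cast
  apply prod_congr rfl
  intro p hp
  rw [Nat.cast_sub (hS p hp).one_le]
  simp

open Classical in
/-- one set `T` of large primes -/
lemma oneT (h : ℤ) (z q X t r : ℕ) (b : ℤ) (T : Finset ℕ) (M : ℕ → ℝ)
    (hT : ∀ p ∈ T, p.Prime ∧ z < p ∧ ¬ (p : ℤ) ∣ h) (hq : 1 ≤ q)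
    (hqz : ∀ p : ℕ, p.Prime → p ∣ q → p ≤ z)
    (hqb : ∀ p : ℕ, p.Prime → p ∣ q → ¬ (p : ℤ) ∣ b ∧ ¬ (p : ℤ) ∣ b + h) (ht : t ≤ X)
    (hM : ∀ k : ℕ, 1 ≤ k → ∀ a : ℕ, a.Coprime k → ∀ y : ℕ, y ≤ X →
      |PS y k a - y / (Nat.totient k : ℝ)| ≤ M k) :
    |∑ n ∈ (Icc 1 t).filter (fun n : ℕ => (n : ℤ) ≡ b [ZMOD q] ∧ (∀ p ∈ T, (p : ℤ) ∣ n + h) ∧
        Rg z h n), vonMangoldt n -
      (t / (Nat.totient q : ℝ) * ∏ p ∈ T, (1 / ((p : ℝ) - 1))) *
        ∏ p ∈ Pq z q h, (1 - 1 / ((p : ℝ) - 1))| ≤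
      ∑ j ∈ range (r + 1), ∑ S ∈ (Pq z q h).powersetCard j, M (q * (∏ p ∈ T, p) * ∏ p ∈ S, p) +
      2 * (t / (Nat.totient q : ℝ) * ∏ p ∈ T, (1 / ((p : ℝ) - 1))) *
        es (fun p => 1 / ((p : ℝ) - 1)) (Pq z q h) r +
      z * ((Nat.log 2 X + 1 : ℝ) * Real.log X) := by
  set P := Pq z q h with hP
  have hPm : ∀ p ∈ P, p.Prime ∧ p ≤ z ∧ ¬ p ∣ q ∧ ¬ (p : ℤ) ∣ h := by
    intro p hp
    rw [hP, Pq, mem_filter, mem_pz] at hp
    exact ⟨hp.1.1, hp.1.2, hp.2⟩
  set s := (Icc 1 t).filter (fun n : ℕ => (n : ℤ) ≡ b [ZMOD q] ∧ (∀ p ∈ T, (p : ℤ) ∣ n + h)) with hs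
  have hTp : ∀ p ∈ T, p.Prime := fun p hp => (hT p hp).1
  have hDT1 : 1 ≤ ∏ p ∈ T, p := Nat.pos_of_ne_zero (prod_ne_zero_iff.2 fun p hp => (hTp p hp).ne_zero)
  have hcopT : q.Coprime (∏ p ∈ T, p) := by
    apply Nat.Coprime.prod_right
    intro p hp
    rw [Nat.coprime_comm, Nat.Prime.coprime_iff_not_dvd (hTp p hp)]
    intro hd
    have := hqz p (hTp p hp) hd
    have := (hT p hp).2.1
    omega
  have hφq : 0 < (Nat.totient q : ℝ) := by exact_mod_cast Nat.totient_pos.2 (by omega)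
  have hgT0 : 0 ≤ ∏ p ∈ T, (1 / ((p : ℝ) - 1)) := by
    apply prod_nonneg
    intro p hp
    have : (2 : ℝ) ≤ p := by exact_mod_cast (hTp p hp).two_le
    exact div_nonneg zero_le_one (by linarith)
  set X0 : ℝ := t / (Nat.totient q : ℝ) * ∏ p ∈ T, (1 / ((p : ℝ) - 1)) with hX0
  have hX00 : 0 ≤ X0 := by positivity
  -- the sieve
  have h1 := sieve_gen' s (fun n => vonMangoldt n) (fun n _ => vonMangoldt_nonneg)
    (fun p n => (p : ℤ) ∣ (n : ℤ) + h) P (fun p => 1 / ((p : ℝ) - 1)) (by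
      intro p hp
      have : (2 : ℝ) ≤ p := by exact_mod_cast (hPm p hp).1.two_le
      refine ⟨div_nonneg zero_le_one (by linarith), ?_⟩
      rw [div_le_one (by linarith)]
      linarith) X0 hX00 (fun S => M (q * (∏ p ∈ T, p) * ∏ p ∈ S, p)) r (by
      intro S hS _
      have hSp : ∀ p ∈ S, p.Prime := fun p hp => (hPm p (hS hp)).1
      have hDS1 : 1 ≤ ∏ p ∈ S, p :=
        Nat.pos_of_ne_zero (prod_ne_zero_iff.2 fun p hp => (hSp p hp).ne_zero)
      have hcopS : q.Coprime (∏ p ∈ S, p) := by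
        apply Nat.Coprime.prod_right
        intro p hp
        rw [Nat.coprime_comm, Nat.Prime.coprime_iff_not_dvd (hSp p hp)]
        exact (hPm p (hS hp)).2.2.1
      have hdis : Disjoint T S := by
        rw [disjoint_left]
        intro p hp hp'
        have := (hT p hp).2.1
        have := (hPm p (hS hp')).2.1
        omega
      have hprod : (∏ p ∈ T, p) * ∏ p ∈ S, p = ∏ p ∈ T ∪ S, p := (prod_union hdis).symm
      have hcopTS : (∏ p ∈ T, p).Coprime (∏ p ∈ S, p) := by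
        apply Nat.Coprime.prod_left
        intro p hp
        apply Nat.Coprime.prod_right
        intro p' hp'
        rw [Nat.coprime_primes (hTp p hp) (hSp p' hp')]
        rintro rfl
        exact disjoint_left.1 hdis hp hp'
      obtain ⟨a, ha⟩ := crt_class q ((∏ p ∈ T, p) * ∏ p ∈ S, p) hq (Nat.mul_pos hDT1 hDS1)
        (Nat.Coprime.mul_right hcopT hcopS) b h
      have hacop : a.Coprime (q * ((∏ p ∈ T, p) * ∏ p ∈ S, p)) := by
        apply Nat.Coprime.symm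
        apply Nat.coprime_of_dvd
        intro p hp hpk hpa
        obtain ⟨ha1, ha2⟩ := (ha a).2 (Nat.ModEq.refl a)
        have hpa' : (p : ℤ) ∣ a := Int.natCast_dvd_natCast.2 hpa
        rcases (Nat.Prime.dvd_mul hp).1 hpk with hpq | hpD
        · have h2 : (p : ℤ) ∣ b := by
            have h3 := (Int.modEq_iff_dvd.1 ha1)
            have h4 : (p : ℤ) ∣ b - a := (Int.natCast_dvd_natCast.2 hpq).trans h3
            have h5 := dvd_add h4 hpa'
            rwa [sub_add_cancel] at h5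
          exact (hqb p hp hpq).1 h2
        · have h3 : (p : ℤ) ∣ (a : ℤ) + h := (Int.natCast_dvd_natCast.2 hpD).trans ha2
          have h4 : (p : ℤ) ∣ h := (dvd_add_right hpa').1 h3
          rw [hprod, hp.prime.dvd_finsetProd_iff] at hpD
          obtain ⟨p', hp', hd⟩ := hpD
          rw [mem_union] at hp'
          rcases hp' with hp' | hp'
          · rw [Nat.prime_dvd_prime_iff_eq hp (hTp p' hp')] at hd
            rw [hd] at h4
            exact (hT p' hp').2.2 h4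
          · rw [Nat.prime_dvd_prime_iff_eq hp (hSp p' hp')] at hd
            rw [hd] at h4
            exact (hPm p' (hS hp')).2.2.2 h4
      have h2 := hM (q * ((∏ p ∈ T, p) * ∏ p ∈ S, p)) (Nat.mul_pos hq (Nat.mul_pos hDT1 hDS1)) a hacop t ht
      have e1 : ∑ i ∈ s.filter (fun i : ℕ => ∀ p ∈ S, (p : ℤ) ∣ (i : ℤ) + h), vonMangoldt i =
          PS t (q * ((∏ p ∈ T, p) * ∏ p ∈ S, p)) a := by
        unfold PS
        rw [hs, filter_filter]
        apply sum_congr _ fun _ _ => rfl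
        apply filter_congr
        intro n _
        rw [← ha n, hprod, ← prod_dvd_iff (T ∪ S) (by
          intro p hp
          rw [mem_union] at hp
          rcases hp with hp | hp
          · exact hTp p hp
          · exact hSp p hp)]
        constructor
        · rintro ⟨⟨g1, g2⟩, g3⟩
          refine ⟨g1, fun p hp => ?_⟩
          rw [mem_union] at hp
          rcases hp with hp | hp
          · exact g2 p hp
          · exact g3 p hp
        · rintro ⟨g1, g2⟩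
          exact ⟨⟨g1, fun p hp => g2 p (mem_union_left _ hp)⟩, fun p hp => g2 p (mem_union_right _ hp)⟩
      have e2 : X0 * ∏ p ∈ S, (1 / ((p : ℝ) - 1)) =
          t / (Nat.totient (q * ((∏ p ∈ T, p) * ∏ p ∈ S, p)) : ℝ) := by
        rw [hX0, tot_prod_real T hTp, tot_prod_real S hSp,
          Nat.totient_mul (Nat.Coprime.mul_right hcopT hcopS), Nat.totient_mul hcopTS]
        push_cast
        rw [div_mul_div_comm, div_mul_div_comm]
        congr 1
        · ring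
        · ring
      rw [e1, e2]
      have e3 : q * (∏ p ∈ T, p) * ∏ p ∈ S, p = q * ((∏ p ∈ T, p) * ∏ p ∈ S, p) := by ring
      rw [e3]
      exact h2)
  -- the integers with small prime factors
  set A1 := ∑ i ∈ s.filter (fun i : ℕ => ∀ p ∈ P, ¬ (p : ℤ) ∣ (i : ℤ) + h), vonMangoldt i with hA1
  have e1 : ∑ n ∈ (Icc 1 t).filter (fun n : ℕ => (n : ℤ) ≡ b [ZMOD q] ∧ (∀ p ∈ T, (p : ℤ) ∣ n + h) ∧
        Rg z h n), vonMangoldt n =
      ∑ i ∈ (s.filter (fun i : ℕ => ∀ p ∈ P, ¬ (p : ℤ) ∣ (i : ℤ) + h)).filter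
        (fun i : ℕ => ∀ p ∈ pz z, ¬ p ∣ i), vonMangoldt i := by
    rw [hs, filter_filter, filter_filter]
    apply sum_congr _ fun _ _ => rfl
    apply filter_congr
    intro n _
    constructor
    · rintro ⟨g1, g2, g3⟩
      refine ⟨⟨g1, g2⟩, fun p hp => ?_, fun p hp => ?_⟩
      · exact (g3 p (mem_pz.2 ⟨(hPm p hp).1, (hPm p hp).2.1⟩)).2
      · exact fun hd => (g3 p hp).1 (Int.natCast_dvd_natCast.2 hd)
    · rintro ⟨⟨g1, g2⟩, g3, g4⟩
      refine ⟨g1, g2, fun p hp => ⟨fun hd => g4 p hp (Int.natCast_dvd_natCast.1 hd), fun hd => ?_⟩⟩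
      have hpp := (mem_pz.1 hp)
      by_cases hpq : p ∣ q
      · apply (hqb p hpp.1 hpq).2
        have h3 := (Int.modEq_iff_dvd.1 g1)
        have h4 : (p : ℤ) ∣ b - n := (Int.natCast_dvd_natCast.2 hpq).trans h3
        have h5 := dvd_add h4 hd
        have h6 : b - (n : ℤ) + (n + h) = b + h := by ring
        rwa [h6] at h5
      · by_cases hph : (p : ℤ) ∣ h
        · apply g4 p hp
          exact Int.natCast_dvd_natCast.1 ((dvd_add_left hph).1 hd)
        · exact g3 p (by rw [hP, Pq, mem_filter]; exact ⟨hp, hpq, hph⟩) hd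
  have e2 : |∑ n ∈ (Icc 1 t).filter (fun n : ℕ => (n : ℤ) ≡ b [ZMOD q] ∧ (∀ p ∈ T, (p : ℤ) ∣ n + h) ∧
        Rg z h n), vonMangoldt n - A1| ≤ z * ((Nat.log 2 X + 1 : ℝ) * Real.log X) := by
    rw [e1, hA1, ← sum_filter_add_sum_filter_not (s.filter (fun i : ℕ => ∀ p ∈ P, ¬ (p : ℤ) ∣ (i : ℤ) + h))
      (fun i : ℕ => ∀ p ∈ pz z, ¬ p ∣ i), sub_add_cancel_left, abs_neg,
      abs_of_nonneg (sum_nonneg fun _ _ => vonMangoldt_nonneg)]
    have h2 : ∑ i ∈ (s.filter (fun i : ℕ => ∀ p ∈ P, ¬ (p : ℤ) ∣ (i : ℤ) + h)).filter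
        (fun i : ℕ => ¬ ∀ p ∈ pz z, ¬ p ∣ i), vonMangoldt i ≤
        ∑ i ∈ (pz z).biUnion (fun p => (Icc 1 X).filter (fun n => p ∣ n)), vonMangoldt i := by
      apply sum_le_sum_of_subset_of_nonneg
      · intro i hi
        rw [mem_filter, mem_filter, hs, mem_filter, mem_Icc] at hi
        obtain ⟨⟨⟨⟨g1, g2⟩, g3⟩, g4⟩, g5⟩ := hi
        push Not at g5
        obtain ⟨p, hp, hd⟩ := g5
        rw [mem_biUnion]
        exact ⟨p, hp, mem_filter.2 ⟨mem_Icc.2 ⟨g1, g2.trans ht⟩, hd⟩⟩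
      · intro _ _ _
        exact vonMangoldt_nonneg
    refine h2.trans ?_
    have h3 : ∑ i ∈ (pz z).biUnion (fun p => (Icc 1 X).filter (fun n => p ∣ n)), vonMangoldt i ≤
        ∑ p ∈ pz z, ∑ i ∈ (Icc 1 X).filter (fun n => p ∣ n), vonMangoldt i :=
      sum_bU_le _ _ _ fun _ => vonMangoldt_nonneg
    refine h3.trans ?_
    have h4 : ∀ p ∈ pz z, ∑ i ∈ (Icc 1 X).filter (fun n => p ∣ n), vonMangoldt i ≤
        (Nat.log 2 X + 1 : ℝ) * Real.log X := fun p hp => lam_mult_prime X p (mem_pz.1 hp).1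
    refine (sum_le_sum h4).trans ?_
    rw [sum_const, nsmul_eq_mul]
    apply mul_le_mul_of_nonneg_right
    · have : (pz z).card ≤ z := by
        unfold pz
        refine (card_filter_le _ _).trans ?_
        simp
      exact_mod_cast this
    · have : 0 ≤ Real.log X := Real.log_natCast_nonneg X
      positivity
  have h3 := abs_add_le (∑ n ∈ (Icc 1 t).filter (fun n : ℕ => (n : ℤ) ≡ b [ZMOD q] ∧ (∀ p ∈ T, (p : ℤ) ∣ n + h) ∧
        Rg z h n), vonMangoldt n - A1) (A1 - X0 * ∏ p ∈ P, (1 - 1 / ((p : ℝ) - 1)))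
  rw [sub_add_sub_cancel] at h3
  refine h3.trans ?_
  have h4 : |A1 - X0 * ∏ p ∈ P, (1 - 1 / ((p : ℝ) - 1))| ≤
      ∑ j ∈ range (r + 1), ∑ S ∈ P.powersetCard j, M (q * (∏ p ∈ T, p) * ∏ p ∈ S, p) +
      2 * X0 * es (fun p => 1 / ((p : ℝ) - 1)) P r := h1
  linarith

end Pool.Agent.H542.TW
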