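import Pool.Agent.H542.TW.T2

/-!
The integers `n` of a residue class such that `n` and `n + h` have no small prime factor, and the
comparison of the densities.
-/

set_option autoImplicit false

namespace Pool.Agent.H542.TW

open Finset
open Pool.Agent.H373R2.T7 (pz es es_nonneg sieve_gen' lam_mult_prime count_sys totient_prod)
open Pool.Agent.Y889.PN (PS)

/-- the number of the classes modulo `p` excluded by the conditions `p ∤ n`, `p ∤ n + h` -/
def om (h : ℤ) (p : ℕ) : ℕ := if (p : ℤ) ∣ h then 1 else 2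

lemma om_le (h : ℤ) (p : ℕ) : om h p ≤ 2 := by
  unfold om
  split_ifs <;> norm_num

lemma om_card (h : ℤ) (p : ℕ) (hp : p.Prime) :
    ((range p).filter (fun a : ℕ => (p : ℤ) ∣ a ∨ (p : ℤ) ∣ a + h)).card = om h p := by
  have hp0 : (0 : ℤ) < p := by exact_mod_cast hp.pos
  unfold om
  split_ifs with hd
  · have : (range p).filter (fun a : ℕ => (p : ℤ) ∣ a ∨ (p : ℤ) ∣ a + h) = {0} := by
      ext a
      rw [mem_filter, mem_range, mem_singleton]
      constructor
      · rintro ⟨h1, h2⟩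
        have h3 : (p : ℤ) ∣ a := by
          rcases h2 with h2 | h2
          · exact h2
          · exact (dvd_add_left hd).1 h2
        have h4 : p ∣ a := Int.natCast_dvd_natCast.1 h3
        exact Nat.eq_zero_of_dvd_of_lt h4 h1
      · rintro rfl
        exact ⟨hp.pos, Or.inl (by simp)⟩
    rw [this, card_singleton]
  · obtain ⟨r, hr⟩ : ∃ r : ℕ, (r : ℤ) = (-h) % p :=
      ⟨((-h) % p).toNat, Int.toNat_of_nonneg (Int.emod_nonneg _ hp0.ne')⟩
    have hrp : r < p := by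
      have := Int.emod_lt_of_pos (-h) hp0
      omega
    have hr2 : (r : ℤ) ≡ -h [ZMOD p] := by
      rw [hr]
      exact Int.mod_modEq _ _
    have hr0 : r ≠ 0 := by
      intro h0
      rw [h0] at hr2
      apply hd
      have h1 := Int.modEq_iff_dvd.1 hr2
      simpa using h1
    have : (range p).filter (fun a : ℕ => (p : ℤ) ∣ a ∨ (p : ℤ) ∣ a + h) = {0, r} := by
      ext a
      rw [mem_filter, mem_range, mem_insert, mem_singleton]
      constructor
      · rintro ⟨h1, h2⟩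
        rcases h2 with h2 | h2
        · left
          exact Nat.eq_zero_of_dvd_of_lt (Int.natCast_dvd_natCast.1 h2) h1
        · right
          have h3 : (a : ℤ) ≡ -h [ZMOD p] := by
            rw [Int.modEq_iff_dvd, ← dvd_neg]
            have : -(-h - (a : ℤ)) = a + h := by ring
            rw [this]
            exact h2
          have h4 : a ≡ r [MOD p] := Int.natCast_modEq_iff.1 (h3.trans hr2.symm)
          exact Nat.ModEq.eq_of_lt_of_lt h4 h1 hrp
      · rintro (rfl | rfl)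
        · exact ⟨hp.pos, Or.inl (by simp)⟩
        · refine ⟨hrp, Or.inr ?_⟩
          have h1 := Int.modEq_iff_dvd.1 hr2
          rw [← dvd_neg] at h1
          have : -(-h - (a : ℤ)) = a + h := by ring
          rwa [this] at h1
    rw [this, card_insert_of_notMem (by rw [mem_singleton]; exact hr0.symm), card_singleton]

/-- the primes up to `z` which do not divide `q` -/
def Pp (z q : ℕ) : Finset ℕ := (pz z).filter (fun p => ¬ p ∣ q)

open Classical in
/-- the count in a residue class -/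
lemma gOne (h : ℤ) (z q t r : ℕ) (b : ℤ) (hq : 1 ≤ q)
    (hqb : ∀ p : ℕ, p.Prime → p ∣ q → ¬ (p : ℤ) ∣ b ∧ ¬ (p : ℤ) ∣ b + h) :
    |(((Icc 1 t).filter (fun n : ℕ => (n : ℤ) ≡ b [ZMOD q] ∧ Rg z h n)).card : ℝ) -
      (t : ℝ) / q * ∏ p ∈ Pp z q, (1 - (om h p : ℝ) / p)| ≤
      (((z + 1) ^ r * 2 ^ r : ℕ) : ℝ) +
      2 * ((t : ℝ) / q) * es (fun p => (om h p : ℝ) / p) (Pp z q) r := by
  have hPm : ∀ p ∈ Pp z q, p.Prime ∧ p ≤ z ∧ ¬ p ∣ q := by
    intro p hp
    rw [Pp, mem_filter, mem_pz] at hp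
    exact ⟨hp.1.1, hp.1.2, hp.2⟩
  have hq0 : (0 : ℤ) < q := by exact_mod_cast hq
  obtain ⟨b', hb'⟩ : ∃ b' : ℕ, (b' : ℤ) = b % q :=
    ⟨(b % q).toNat, Int.toNat_of_nonneg (Int.emod_nonneg _ hq0.ne')⟩
  have hbb : (b' : ℤ) ≡ b [ZMOD q] := by
    rw [hb']; exact Int.mod_modEq _ _
  have hcls : ∀ n : ℕ, (n : ℤ) ≡ b [ZMOD q] ↔ n ≡ b' [MOD q] := by
    intro n
    constructor
    · intro h1
      exact Int.natCast_modEq_iff.1 (h1.trans hbb.symm)
    · intro h1
      exact (Int.natCast_modEq_iff.2 h1).trans hbb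
  set s := (Icc 1 t).filter (fun n : ℕ => (n : ℤ) ≡ b [ZMOD q]) with hs
  have h1 := sieve_gen' s (fun _ => (1 : ℝ)) (fun _ _ => zero_le_one)
    (fun p n => (p : ℤ) ∣ (n : ℤ) ∨ (p : ℤ) ∣ (n : ℤ) + h) (Pp z q) (fun p => (om h p : ℝ) / p) (by
      intro p hp
      have hp2 : (2 : ℝ) ≤ p := by exact_mod_cast (hPm p hp).1.two_le
      refine ⟨by positivity, ?_⟩
      rw [div_le_one (by linarith)]
      have : (om h p : ℝ) ≤ 2 := by exact_mod_cast om_le h p
      linarith) ((t : ℝ) / q) (by positivity) (fun S => (2 : ℝ) ^ r) r (by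
      intro S hS hSr
      have hSp : ∀ p ∈ S, p.Prime := fun p hp => (hPm p (hS hp)).1
      have h2 := count_sys (fun p a => (p : ℤ) ∣ (a : ℤ) ∨ (p : ℤ) ∣ (a : ℤ) + h) t S hSp q hq
        (fun p hp => (hPm p (hS hp)).2.2) b'
      have e1 : ∑ i ∈ s.filter (fun i : ℕ => ∀ p ∈ S, (p : ℤ) ∣ (i : ℤ) ∨ (p : ℤ) ∣ (i : ℤ) + h), (1 : ℝ) =
          (((Icc 1 t).filter (fun n => n ≡ b' [MOD q] ∧ ∀ p ∈ S, ((p : ℤ) ∣ ((n % p : ℕ) : ℤ) ∨
            (p : ℤ) ∣ ((n % p : ℕ) : ℤ) + h))).card : ℝ) := by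
        rw [sum_const, nsmul_eq_mul, mul_one, hs, filter_filter]
        congr 2
        apply filter_congr
        intro n _
        rw [hcls n]
        apply and_congr_right
        intro _
        apply forall₂_congr
        intro p _
        have h3 : (((n % p : ℕ)) : ℤ) ≡ n [ZMOD p] := by
          push_cast
          exact Int.mod_modEq _ _
        apply or_congr
        · rw [Int.ModEq.dvd_iff h3]
        · rw [Int.ModEq.dvd_iff (h3.add_right h)]
      have e2 : ∏ p ∈ S, ((((range p).filter (fun a : ℕ => (p : ℤ) ∣ (a : ℤ) ∨ (p : ℤ) ∣ (a : ℤ) + h)).card : ℝ) / p) =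
          ∏ p ∈ S, ((om h p : ℝ) / p) := by
        apply prod_congr rfl
        intro p hp
        rw [om_card h p (hSp p hp)]
      have e3 : ∏ p ∈ S, (((range p).filter (fun a : ℕ => (p : ℤ) ∣ (a : ℤ) ∨ (p : ℤ) ∣ (a : ℤ) + h)).card : ℝ) ≤
          2 ^ r := by
        calc ∏ p ∈ S, (((range p).filter (fun a : ℕ => (p : ℤ) ∣ (a : ℤ) ∨ (p : ℤ) ∣ (a : ℤ) + h)).card : ℝ) ≤
            ∏ p ∈ S, (2 : ℝ) := by
              apply prod_le_prod
              · intro p _
                exact Nat.cast_nonneg _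
              · intro p hp
                rw [om_card h p (hSp p hp)]
                exact_mod_cast om_le h p
          _ = 2 ^ S.card := by rw [prod_const]
          _ ≤ 2 ^ r := pow_le_pow_right₀ (by norm_num) hSr
      rw [e1, ← e2]
      exact h2.trans e3)
  have e1 : (((Icc 1 t).filter (fun n : ℕ => (n : ℤ) ≡ b [ZMOD q] ∧ Rg z h n)).card : ℝ) =
      ∑ i ∈ s.filter (fun i : ℕ => ∀ p ∈ Pp z q, ¬ ((p : ℤ) ∣ (i : ℤ) ∨ (p : ℤ) ∣ (i : ℤ) + h)), (1 : ℝ) := by
    rw [sum_const, nsmul_eq_mul, mul_one, hs, filter_filter]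
    congr 2
    apply filter_congr
    intro n _
    apply and_congr_right
    intro g1
    constructor
    · intro g2 p hp
      have h2 := g2 p (mem_pz.2 ⟨(hPm p hp).1, (hPm p hp).2.1⟩)
      tauto
    · intro g2 p hp
      by_cases hpq : p ∣ q
      · have h2 := hqb p (mem_pz.1 hp).1 hpq
        have h3 : (n : ℤ) ≡ b [ZMOD p] := g1.of_dvd (Int.natCast_dvd_natCast.2 hpq)
        rw [Int.ModEq.dvd_iff h3, Int.ModEq.dvd_iff (h3.add_right h)]
        exact h2
      · have h2 := g2 p (by rw [Pp, mem_filter]; exact ⟨hp, hpq⟩)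
        tauto
  rw [e1]
  refine h1.trans ?_
  have h2 : ∑ j ∈ range (r + 1), ∑ S ∈ (Pp z q).powersetCard j, (2 : ℝ) ^ r ≤
      (((z + 1) ^ r * 2 ^ r : ℕ) : ℝ) := by
    have h3 := Pool.Agent.H373R2.T7.card_small (Pp z q) r
    have h4 : ∑ j ∈ range (r + 1), ∑ S ∈ (Pp z q).powersetCard j, (2 : ℝ) ^ r =
        ((∑ j ∈ range (r + 1), ((Pp z q).powersetCard j).card : ℕ) : ℝ) * 2 ^ r := by
      push_cast
      rw [sum_mul]
      apply sum_congr rfl
      intro j _
      rw [sum_const, nsmul_eq_mul]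
    rw [h4]
    push_cast
    push_cast at h3
    apply mul_le_mul_of_nonneg_right _ (by positivity)
    refine h3.trans ?_
    apply pow_le_pow_left₀ (by positivity)
    have h5 : (Pp z q).card ≤ z := by
      unfold Pp pz
      refine ((card_filter_le _ _).trans (card_filter_le _ _)).trans ?_
      simp
    have h6 : ((Pp z q).card : ℝ) ≤ z := by exact_mod_cast h5
    linarith
  linarith

/-- **comparison of the densities** -/
lemma dens_eq (h : ℤ) (z q : ℕ) (hq : 1 ≤ q) (hqz : ∀ p : ℕ, p.Prime → p ∣ q → p ≤ z) :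
    1 / (Nat.totient q : ℝ) * ∏ p ∈ Pq z q h, (1 - 1 / ((p : ℝ) - 1)) =
      (∏ p ∈ pz z, (1 - 1 / (p : ℝ)))⁻¹ * (1 / (q : ℝ) * ∏ p ∈ Pp z q, (1 - (om h p : ℝ) / p)) := by
  have hpos : ∀ p ∈ pz z, 0 < 1 - 1 / (p : ℝ) := by
    intro p hp
    have : (2 : ℝ) ≤ p := by exact_mod_cast (mem_pz.1 hp).1.two_le
    rw [sub_pos, div_lt_one (by linarith)]
    linarith
  have hq0 : (0 : ℝ) < q := by exact_mod_cast hq
  -- the totient
  have h1 : (Nat.totient q : ℝ) = q * ∏ p ∈ (pz z).filter (fun p => p ∣ q), (1 - 1 / (p : ℝ)) := by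
    have h2 := Nat.totient_eq_mul_prod_factors q
    have h3 : ((Nat.totient q : ℕ) : ℝ) = (((Nat.totient q : ℚ)) : ℝ) := by push_cast; rfl
    rw [h3, h2]
    push_cast
    congr 1
    apply prod_congr _ (fun p _ => by rw [one_div])
    ext p
    rw [mem_filter, mem_pz, Nat.mem_primeFactors]
    constructor
    · rintro ⟨g1, g2, g3⟩
      exact ⟨⟨g1, hqz p g1 g2⟩, g2⟩
    · rintro ⟨⟨g1, g2⟩, g3⟩
      exact ⟨g1, g3, by omega⟩
  have h4 : ∏ p ∈ pz z, (1 - 1 / (p : ℝ)) = (∏ p ∈ (pz z).filter (fun p => p ∣ q), (1 - 1 / (p : ℝ))) *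
      ∏ p ∈ Pp z q, (1 - 1 / (p : ℝ)) := by
    rw [Pp, prod_filter_mul_prod_filter_not]
  have h5 : ∏ p ∈ Pp z q, (1 - (om h p : ℝ) / p) = (∏ p ∈ Pp z q, (1 - 1 / (p : ℝ))) *
      ∏ p ∈ Pq z q h, (1 - 1 / ((p : ℝ) - 1)) := by
    have h6 : Pq z q h = (Pp z q).filter (fun p : ℕ => ¬ (p : ℤ) ∣ h) := by
      unfold Pq Pp
      rw [filter_filter]
    rw [h6, prod_filter, ← prod_mul_distrib]
    apply prod_congr rfl
    intro p hp
    rw [Pp, mem_filter, mem_pz] at hp
    have hp2 : (2 : ℝ) ≤ p := by exact_mod_cast hp.1.1.two_le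
    unfold om
    by_cases hd : (p : ℤ) ∣ h
    · rw [if_pos hd, if_neg (by tauto)]
      push_cast
      ring
    · rw [if_neg hd, if_pos hd]
      have h7 : (p : ℝ) ≠ 0 := by linarith
      have h8 : (p : ℝ) - 1 ≠ 0 := by linarith
      field_simp
      push_cast
      ring
  have hA : 0 < ∏ p ∈ (pz z).filter (fun p => p ∣ q), (1 - 1 / (p : ℝ)) :=
    prod_pos fun p hp => hpos p (mem_filter.1 hp).1
  have hB : 0 < ∏ p ∈ Pp z q, (1 - 1 / (p : ℝ)) :=
    prod_pos fun p hp => hpos p (by rw [Pp, mem_filter] at hp; exact hp.1)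
  rw [h1, h4, h5]
  field_simp

end Pool.Agent.H542.TW
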