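import Pool.Agent.H542.TW.T3
import Pool.Graph.R_seed8.Y882.VV

/-!
The product of the von Mangoldt function at `n` and of a sieve weight at `n + h`, restricted to the
`n` such that `n` and `n + h` have no small prime factor, minus a multiple of the indicator function
of these `n`: sums over initial segments of residue classes.
-/

set_option autoImplicit false

namespace Pool.Agent.H542.TW

open Finset
open Pool.Agent.H373R2.T7 (pz es es_nonneg)
open Pool.Agent.Y889.PN (PS)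
open Pool.Agent.Y882 (VV prod_ind)
open ArithmeticFunction (vonMangoldt vonMangoldt_nonneg)

open Classical in
/-- the indicator function of the integers `n` such that `n` and `n + h` have no prime factor up to `z` -/
noncomputable def GG (z : ℕ) (h : ℤ) (n : ℤ) : ℝ := if Rg z h n then 1 else 0

open Classical in
/-- the product of the von Mangoldt function and of a sieve weight -/
noncomputable def FF (z : ℕ) (h : ℤ) (P : Finset ℕ) (c : Finset ℕ → ℝ) (n : ℤ) : ℝ :=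
  if Rg z h n then vonMangoldt n.toNat * VV P c (fun p => if (p : ℤ) ∣ n + h then 1 else 0) else 0

/-- the constant factor -/
noncomputable def kap (z : ℕ) (P : Finset ℕ) (c : Finset ℕ → ℝ) : ℝ :=
  (∏ p ∈ pz z, (1 - 1 / (p : ℝ)))⁻¹ * VV P c (fun p => 1 / ((p : ℝ) - 1))

open Classical in
lemma sum_Icc_int (g : ℤ → ℝ) (t : ℕ) (Q : ℤ → Prop) [DecidablePred Q] :
    ∑ n ∈ (Icc (1 : ℤ) t).filter Q, g n = ∑ n ∈ (Icc 1 t).filter (fun n : ℕ => Q (n : ℤ)), g (n : ℤ) := by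
  refine sum_nbij' (fun n : ℤ => n.toNat) (fun n : ℕ => (n : ℤ)) ?_ ?_ ?_ ?_ ?_
  · intro n hn
    rw [mem_filter, mem_Icc] at hn ⊢
    have h1 : ((n.toNat : ℕ) : ℤ) = n := Int.toNat_of_nonneg (by omega)
    rw [h1]
    exact ⟨⟨by omega, by omega⟩, hn.2⟩
  · intro n hn
    rw [mem_filter, mem_Icc] at hn ⊢
    exact ⟨⟨by omega, by omega⟩, hn.2⟩
  · intro n hn
    rw [mem_filter, mem_Icc] at hn
    exact Int.toNat_of_nonneg (by omega)
  · intro n _
    exact Int.toNat_natCast n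
  · intro n hn
    rw [mem_filter, mem_Icc] at hn
    rw [Int.toNat_of_nonneg (by omega)]

lemma prod_inj (P : Finset ℕ) (hP : ∀ p ∈ P, p.Prime) :
    Set.InjOn (fun T : Finset ℕ => ∏ p ∈ T, p) (P.powerset : Set (Finset ℕ)) := by
  intro T hT T' hT' h
  have h1 : T.val.prod = T'.val.prod := by
    have e : ∀ S : Finset ℕ, ∏ p ∈ S, p = S.val.prod := by
      intro S
      rw [Finset.prod, Multiset.map_id']
    rw [← e, ← e]
    exact h
  rw [mem_coe, mem_powerset] at hT hT'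
  ext p
  have hdvd : ∀ S ⊆ P, ∀ p : ℕ, p.Prime → (p ∣ ∏ q ∈ S, q ↔ p ∈ S) := by
    intro S hS p hp
    constructor
    · intro hd
      obtain ⟨q, hq, hd⟩ := (hp.prime.dvd_finsetProd_iff _).1 hd
      rw [Nat.prime_dvd_prime_iff_eq hp (hP q (hS hq))] at hd
      rwa [hd]
    · intro hp
      exact dvd_prod_of_mem _ hp
  constructor
  · intro hp
    rw [← hdvd T' hT' p (hP p (hT hp))]
    simp only at h
    rw [← h, hdvd T hT p (hP p (hT hp))]
    exact hp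
  · intro hp
    rw [← hdvd T hT p (hP p (hT' hp))]
    simp only at h
    rw [h, hdvd T' hT' p (hP p (hT' hp))]
    exact hp

/-- sums over pairs of sets of primes against sums over moduli -/
lemma sum_pairs (P P' : Finset ℕ) (z q D r : ℕ) (hz : 1 ≤ z) (hP : ∀ p ∈ P, p.Prime ∧ z < p)
    (hP' : ∀ p ∈ P', p.Prime ∧ p ≤ z) (hq : 1 ≤ q) (M : ℕ → ℝ) (hM : ∀ k, 0 ≤ M k)
    (𝒯 : Finset (Finset ℕ)) (h𝒯 : ∀ T ∈ 𝒯, T ⊆ P ∧ ∏ p ∈ T, p ≤ D) :
    ∑ T ∈ 𝒯, ∑ j ∈ range (r + 1), ∑ S ∈ P'.powersetCard j, M (q * (∏ p ∈ T, p) * ∏ p ∈ S, p) ≤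
      ∑ k ∈ Icc 1 (q * D * z ^ r), M k := by
  classical
  set 𝒮 := P'.powerset.filter (fun S => S.card ≤ r) with h𝒮
  have e1 : ∀ g : Finset ℕ → ℝ, ∑ j ∈ range (r + 1), ∑ S ∈ P'.powersetCard j, g S = ∑ S ∈ 𝒮, g S := by
    intro g
    have e2 : 𝒮 = (range (r + 1)).biUnion (fun j => P'.powersetCard j) := by
      ext S
      rw [h𝒮, mem_filter, mem_powerset, mem_biUnion]
      constructor
      · rintro ⟨g1, g2⟩
        exact ⟨S.card, mem_range.2 (by omega), mem_powersetCard.2 ⟨g1, rfl⟩⟩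
      · rintro ⟨j, g1, g2⟩
        rw [mem_powersetCard] at g2
        rw [mem_range] at g1
        exact ⟨g2.1, by omega⟩
    rw [e2, sum_biUnion]
    intro i _ j _ hij
    rw [Function.onFun, disjoint_left]
    intro S h1 h2
    rw [mem_powersetCard] at h1 h2
    exact hij (h1.2.symm.trans h2.2)
  have e3 : ∑ T ∈ 𝒯, ∑ j ∈ range (r + 1), ∑ S ∈ P'.powersetCard j, M (q * (∏ p ∈ T, p) * ∏ p ∈ S, p) =
      ∑ x ∈ 𝒯 ×ˢ 𝒮, M (q * (∏ p ∈ x.1, p) * ∏ p ∈ x.2, p) := by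
    rw [sum_product]
    apply sum_congr rfl
    intro T _
    exact e1 (fun S => M (q * (∏ p ∈ T, p) * ∏ p ∈ S, p))
  rw [e3]
  have hdis : Disjoint P P' := by
    rw [disjoint_left]
    intro p h1 h2
    have := (hP p h1).2
    have := (hP' p h2).2
    omega
  have hinj : Set.InjOn (fun x : Finset ℕ × Finset ℕ => q * (∏ p ∈ x.1, p) * ∏ p ∈ x.2, p)
      ((𝒯 ×ˢ 𝒮 : Finset (Finset ℕ × Finset ℕ)) : Set (Finset ℕ × Finset ℕ)) := by
    intro x hx y hy hxy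
    rw [mem_coe, mem_product, h𝒮, mem_filter, mem_powerset] at hx hy
    have hx1 := (h𝒯 x.1 hx.1).1
    have hy1 := (h𝒯 y.1 hy.1).1
    have hx2 := hx.2.1
    have hy2 := hy.2.1
    have h1 : ∏ p ∈ x.1 ∪ x.2, p = ∏ p ∈ y.1 ∪ y.2, p := by
      rw [prod_union (disjoint_of_subset_left hx1 (disjoint_of_subset_right hx2 hdis)),
        prod_union (disjoint_of_subset_left hy1 (disjoint_of_subset_right hy2 hdis))]
      simp only at hxy
      rw [mul_assoc, mul_assoc] at hxy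
      exact Nat.eq_of_mul_eq_mul_left (by omega) hxy
    have h2 : x.1 ∪ x.2 = y.1 ∪ y.2 := by
      refine prod_inj (P ∪ P') ?_ ?_ ?_ h1
      · intro p hp
        rw [mem_union] at hp
        rcases hp with hp | hp
        · exact (hP p hp).1
        · exact (hP' p hp).1
      · rw [mem_coe, mem_powerset]
        exact union_subset_union hx1 hx2
      · rw [mem_coe, mem_powerset]
        exact union_subset_union hy1 hy2
    apply Prod.ext
    · ext p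
      constructor
      · intro hp
        have h3 : p ∈ y.1 ∪ y.2 := by rw [← h2]; exact mem_union_left _ hp
        rw [mem_union] at h3
        rcases h3 with h3 | h3
        · exact h3
        · exact absurd (hy2 h3) (fun h4 => disjoint_left.1 hdis (hx1 hp) h4)
      · intro hp
        have h3 : p ∈ x.1 ∪ x.2 := by rw [h2]; exact mem_union_left _ hp
        rw [mem_union] at h3
        rcases h3 with h3 | h3
        · exact h3
        · exact absurd (hx2 h3) (fun h4 => disjoint_left.1 hdis (hy1 hp) h4)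
    · ext p
      constructor
      · intro hp
        have h3 : p ∈ y.1 ∪ y.2 := by rw [← h2]; exact mem_union_right _ hp
        rw [mem_union] at h3
        rcases h3 with h3 | h3
        · exact absurd (hx2 hp) (fun h4 => disjoint_left.1 hdis (hy1 h3) h4)
        · exact h3
      · intro hp
        have h3 : p ∈ x.1 ∪ x.2 := by rw [h2]; exact mem_union_right _ hp
        rw [mem_union] at h3
        rcases h3 with h3 | h3
        · exact absurd (hy2 hp) (fun h4 => disjoint_left.1 hdis (hx1 h3) h4)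
        · exact h3
  rw [← sum_image (f := M) hinj]
  apply sum_le_sum_of_subset_of_nonneg
  · intro k hk
    rw [mem_image] at hk
    obtain ⟨x, hx, rfl⟩ := hk
    rw [mem_product, h𝒮, mem_filter, mem_powerset] at hx
    have hx1 := (h𝒯 x.1 hx.1)
    rw [mem_Icc]
    constructor
    · apply Nat.mul_pos (Nat.mul_pos hq _)
      · exact Nat.pos_of_ne_zero (prod_ne_zero_iff.2 fun p hp => (hP' p (hx.2.1 hp)).1.ne_zero)
      · exact Nat.pos_of_ne_zero (prod_ne_zero_iff.2 fun p hp => (hP p (hx1.1 hp)).1.ne_zero)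
    · apply Nat.mul_le_mul (Nat.mul_le_mul_left _ hx1.2)
      calc ∏ p ∈ x.2, p ≤ ∏ p ∈ x.2, z := prod_le_prod' fun p hp => (hP' p (hx.2.1 hp)).2
        _ = z ^ x.2.card := by rw [prod_const]
        _ ≤ z ^ r := Nat.pow_le_pow_right hz hx.2.2
  · intro k _ _
    exact hM k

/-- the number of the sets of primes of the support of the weights -/
lemma card_supp (P : Finset ℕ) (D : ℕ) (hP : ∀ p ∈ P, p.Prime) (𝒯 : Finset (Finset ℕ))
    (h𝒯 : ∀ T ∈ 𝒯, T ⊆ P ∧ ∏ p ∈ T, p ≤ D) : 𝒯.card ≤ D := by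
  have h1 : 𝒯.card ≤ (Icc 1 D).card := by
    apply card_le_card_of_injOn (fun T => ∏ p ∈ T, p)
    · intro T hT
      have h2 := h𝒯 T hT
      rw [mem_coe, mem_Icc]
      exact ⟨Nat.pos_of_ne_zero (prod_ne_zero_iff.2 fun p hp => (hP p (h2.1 hp)).ne_zero), h2.2⟩
    · intro T hT T' hT' h
      exact prod_inj P hP (by rw [mem_coe, mem_powerset]; exact (h𝒯 T hT).1)
        (by rw [mem_coe, mem_powerset]; exact (h𝒯 T' hT').1) h
  rwa [Nat.card_Icc, Nat.add_sub_cancel] at h1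

lemma not_Rg (z q : ℕ) (h b n : ℤ) (hqz : ∀ p : ℕ, p.Prime → p ∣ q → p ≤ z) (hn : n ≡ b [ZMOD q])
    (hqb : ¬ ∀ p : ℕ, p.Prime → p ∣ q → ¬ (p : ℤ) ∣ b ∧ ¬ (p : ℤ) ∣ b + h) : ¬ Rg z h n := by
  push Not at hqb
  obtain ⟨p, hp, hpq, hd⟩ := hqb
  intro hR
  have h1 := hR p (mem_pz.2 ⟨hp, hqz p hp hpq⟩)
  have h3 : n ≡ b [ZMOD p] := hn.of_dvd (Int.natCast_dvd_natCast.2 hpq)
  rw [Int.ModEq.dvd_iff h3, Int.ModEq.dvd_iff (h3.add_right h)] at h1
  exact h1.2 (hd h1.1)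

open Classical in
/-- **The discrepancy in a residue class.** -/
theorem disc (h : ℤ) (z q X t r D : ℕ) (b : ℤ) (P : Finset ℕ) (c : Finset ℕ → ℝ) (M : ℕ → ℝ)
    (C5 : ℝ) (hz : 1 ≤ z) (hP : ∀ p ∈ P, p.Prime ∧ z < p ∧ ¬ (p : ℤ) ∣ h) (hq : 1 ≤ q)
    (hqz : ∀ p : ℕ, p.Prime → p ∣ q → p ≤ z) (ht : t ≤ X)
    (hc : ∀ T, |c T| ≤ C5) (hcD : ∀ T ⊆ P, c T ≠ 0 → ∏ p ∈ T, p ≤ D)
    (hM0 : ∀ k, 0 ≤ M k)
    (hM : ∀ k : ℕ, 1 ≤ k → ∀ a : ℕ, a.Coprime k → ∀ y : ℕ, y ≤ X →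
      |PS y k a - y / (Nat.totient k : ℝ)| ≤ M k) :
    |∑ n ∈ (Icc (1 : ℤ) t).filter (fun n => n ≡ b [ZMOD q]), (FF z h P c n - kap z P c * GG z h n)| ≤
      C5 * ∑ k ∈ Icc 1 (q * D * z ^ r), M k +
      C5 * (2 * X * es (fun p => 1 / ((p : ℝ) - 1)) (Pq z q h) r * ∏ p ∈ P, (1 + 1 / ((p : ℝ) - 1))) +
      C5 * (D * (z * ((Nat.log 2 X + 1 : ℝ) * Real.log X))) +
      |kap z P c| * ((((z + 1) ^ r * 2 ^ r : ℕ) : ℝ) +
        2 * X * es (fun p => (om h p : ℝ) / p) (Pp z q) r) := by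
  have hPp : ∀ p ∈ P, p.Prime := fun p hp => (hP p hp).1
  have hC50 : 0 ≤ C5 := (abs_nonneg _).trans (hc ∅)
  have hq1 : (1 : ℝ) ≤ q := by exact_mod_cast hq
  have hlX : 0 ≤ Real.log X := Real.log_natCast_nonneg X
  have hg1 : ∀ S : Finset ℕ, (∀ p ∈ S, p.Prime) → ∀ p ∈ S, 0 ≤ 1 / ((p : ℝ) - 1) := by
    intro S hS p hp
    have : (2 : ℝ) ≤ p := by exact_mod_cast (hS p hp).two_le
    exact div_nonneg zero_le_one (by linarith)
  have hPqp : ∀ p ∈ Pq z q h, p.Prime ∧ p ≤ z := by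
    intro p hp
    rw [Pq, mem_filter, mem_pz] at hp
    exact hp.1
  have hes1 : 0 ≤ es (fun p => 1 / ((p : ℝ) - 1)) (Pq z q h) r :=
    es_nonneg (hg1 _ fun p hp => (hPqp p hp).1) r
  have hes2 : 0 ≤ es (fun p => (om h p : ℝ) / p) (Pp z q) r :=
    es_nonneg (fun p _ => by positivity) r
  have hW0 : 0 ≤ ∏ p ∈ P, (1 + 1 / ((p : ℝ) - 1)) :=
    prod_nonneg fun p hp => by have := hg1 P hPp p hp; linarith
  have hMs : 0 ≤ ∑ k ∈ Icc 1 (q * D * z ^ r), M k := sum_nonneg fun k _ => hM0 k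
  have hRHS : 0 ≤ C5 * ∑ k ∈ Icc 1 (q * D * z ^ r), M k +
      C5 * (2 * X * es (fun p => 1 / ((p : ℝ) - 1)) (Pq z q h) r * ∏ p ∈ P, (1 + 1 / ((p : ℝ) - 1))) +
      C5 * (D * (z * ((Nat.log 2 X + 1 : ℝ) * Real.log X))) +
      |kap z P c| * ((((z + 1) ^ r * 2 ^ r : ℕ) : ℝ) +
        2 * X * es (fun p => (om h p : ℝ) / p) (Pp z q) r) := by positivity
  by_cases hqb : ∀ p : ℕ, p.Prime → p ∣ q → ¬ (p : ℤ) ∣ b ∧ ¬ (p : ℤ) ∣ b + h
  swap
  · have h0 : ∑ n ∈ (Icc (1 : ℤ) t).filter (fun n => n ≡ b [ZMOD q]),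
        (FF z h P c n - kap z P c * GG z h n) = 0 := by
      apply sum_eq_zero
      intro n hn
      rw [mem_filter] at hn
      have h1 := not_Rg z q h b n hqz hn.2 hqb
      unfold FF GG
      rw [if_neg h1, if_neg h1]
      ring
    rw [h0, abs_zero]
    exact hRHS
  set g1 : ℕ → ℝ := fun p => 1 / ((p : ℝ) - 1) with hg1d
  set ρ1 : ℝ := ∏ p ∈ Pq z q h, (1 - 1 / ((p : ℝ) - 1)) with hρ1
  set ρ2 : ℝ := ∏ p ∈ Pp z q, (1 - (om h p : ℝ) / p) with hρ2
  set V : ℝ := VV P c g1 with hV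
  set φq : ℝ := (Nat.totient q : ℝ) with hφq
  have hφ1 : (1 : ℝ) ≤ φq := by
    rw [hφq]
    exact_mod_cast Nat.totient_pos.2 (by omega)
  -- the sum of the first function
  set A : Finset ℕ → ℝ := fun T => ∑ n ∈ (Icc 1 t).filter (fun n : ℕ => (n : ℤ) ≡ b [ZMOD q] ∧
    (∀ p ∈ T, (p : ℤ) ∣ n + h) ∧ Rg z h n), vonMangoldt n with hA
  have e1 : ∑ n ∈ (Icc (1 : ℤ) t).filter (fun n => n ≡ b [ZMOD q]), FF z h P c n =
      ∑ T ∈ P.powerset, c T * A T := by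
    rw [sum_Icc_int]
    unfold FF VV
    have e2 : ∀ n : ℕ, (if Rg z h n then vonMangoldt ((n : ℤ).toNat) *
        ∑ T ∈ P.powerset, c T * ∏ p ∈ T, (if (p : ℤ) ∣ (n : ℤ) + h then (1 : ℝ) else 0) else 0) =
        ∑ T ∈ P.powerset, c T * (if (∀ p ∈ T, (p : ℤ) ∣ n + h) ∧ Rg z h n then vonMangoldt n else 0) := by
      intro n
      rw [Int.toNat_natCast]
      split_ifs with hR
      · rw [mul_sum]
        apply sum_congr rfl
        intro T _
        have e3 : ∏ p ∈ T, (if (p : ℤ) ∣ (n : ℤ) + h then (1 : ℝ) else 0) =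
            if ∀ p ∈ T, (p : ℤ) ∣ (n : ℤ) + h then 1 else 0 := by
          rw [Finset.prod_ite_zero]
          simp
        rw [e3]
        by_cases h2 : ∀ p ∈ T, (p : ℤ) ∣ (n : ℤ) + h
        · rw [if_pos h2, if_pos ⟨h2, hR⟩]; ring
        · rw [if_neg h2, if_neg (by tauto)]; ring
      · symm
        apply sum_eq_zero
        intro T _
        rw [if_neg (by tauto), mul_zero]
    simp_rw [e2]
    rw [sum_comm]
    apply sum_congr rfl
    intro T _
    rw [← mul_sum, hA]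
    congr 1
    rw [← sum_filter, filter_filter]
  have e4 : t / φq * ρ1 * V = ∑ T ∈ P.powerset, c T * ((t / φq * ∏ p ∈ T, (1 / ((p : ℝ) - 1))) * ρ1) := by
    rw [hV, VV, mul_sum]
    apply sum_congr rfl
    intro T _
    ring
  -- the second function
  have e5 : ∑ n ∈ (Icc (1 : ℤ) t).filter (fun n => n ≡ b [ZMOD q]), GG z h n =
      (((Icc 1 t).filter (fun n : ℕ => (n : ℤ) ≡ b [ZMOD q] ∧ Rg z h n)).card : ℝ) := by
    rw [sum_Icc_int]
    unfold GG
    rw [← sum_filter, filter_filter, sum_const, nsmul_eq_mul, mul_one]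
  have hG := gOne h z q t r b hq hqb
  rw [← e5] at hG
  have hF : |∑ T ∈ P.powerset, c T * A T - t / φq * ρ1 * V| ≤
      C5 * ∑ k ∈ Icc 1 (q * D * z ^ r), M k +
      C5 * (2 * X * es g1 (Pq z q h) r * ∏ p ∈ P, (1 + 1 / ((p : ℝ) - 1))) +
      C5 * (D * (z * ((Nat.log 2 X + 1 : ℝ) * Real.log X))) := by
    rw [e4, ← sum_sub_distrib]
    set 𝒯 := P.powerset.filter (fun T => c T ≠ 0) with h𝒯
    have h𝒯m : ∀ T ∈ 𝒯, T ⊆ P ∧ ∏ p ∈ T, p ≤ D := by
      intro T hT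
      rw [h𝒯, mem_filter, mem_powerset] at hT
      exact ⟨hT.1, hcD T hT.1 hT.2⟩
    have e6 : ∑ T ∈ P.powerset, (c T * A T - c T * ((t / φq * ∏ p ∈ T, (1 / ((p : ℝ) - 1))) * ρ1)) =
        ∑ T ∈ 𝒯, c T * (A T - (t / φq * ∏ p ∈ T, (1 / ((p : ℝ) - 1))) * ρ1) := by
      rw [h𝒯, sum_filter]
      apply sum_congr rfl
      intro T _
      by_cases h0 : c T = 0
      · rw [if_neg (by tauto), h0]; ring
      · rw [if_pos h0]; ring
    rw [e6]
    refine (abs_sum_le_sum_abs _ _).trans ?_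
    have h2 : ∀ T ∈ 𝒯, |c T * (A T - (t / φq * ∏ p ∈ T, (1 / ((p : ℝ) - 1))) * ρ1)| ≤
        C5 * (∑ j ∈ range (r + 1), ∑ S ∈ (Pq z q h).powersetCard j, M (q * (∏ p ∈ T, p) * ∏ p ∈ S, p) +
        2 * X * es g1 (Pq z q h) r * ∏ p ∈ T, (1 / ((p : ℝ) - 1)) +
        z * ((Nat.log 2 X + 1 : ℝ) * Real.log X)) := by
      intro T hT
      rw [abs_mul]
      apply mul_le_mul (hc T) _ (abs_nonneg _) hC50
      refine (oneT h z q X t r b T M (fun p hp => hP p ((h𝒯m T hT).1 hp)) hq hqz hqb ht hM).trans ?_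
      have hT0 : 0 ≤ ∏ p ∈ T, (1 / ((p : ℝ) - 1)) :=
        prod_nonneg fun p hp => hg1 P hPp p ((h𝒯m T hT).1 hp)
      have h3 : (t : ℝ) / φq * ∏ p ∈ T, (1 / ((p : ℝ) - 1)) ≤ X * ∏ p ∈ T, (1 / ((p : ℝ) - 1)) := by
        apply mul_le_mul_of_nonneg_right _ hT0
        have htX : (t : ℝ) ≤ X := by exact_mod_cast ht
        exact (div_le_self (Nat.cast_nonneg _) hφ1).trans htX
      have h4 : 2 * ((t : ℝ) / φq * ∏ p ∈ T, (1 / ((p : ℝ) - 1))) * es g1 (Pq z q h) r ≤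
          2 * X * es g1 (Pq z q h) r * ∏ p ∈ T, (1 / ((p : ℝ) - 1)) := by
        calc 2 * ((t : ℝ) / φq * ∏ p ∈ T, (1 / ((p : ℝ) - 1))) * es g1 (Pq z q h) r ≤
            2 * (X * ∏ p ∈ T, (1 / ((p : ℝ) - 1))) * es g1 (Pq z q h) r := by
              apply mul_le_mul_of_nonneg_right _ hes1
              linarith
          _ = _ := by ring
      have h5 : (∏ p ∈ T, (1 / ((p : ℝ) - 1))) = ∏ p ∈ T, (1 / ((p : ℝ) - 1)) := rfl
      linarith
    refine (sum_le_sum h2).trans ?_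
    rw [← mul_sum, sum_add_distrib, sum_add_distrib, ← mul_sum, sum_const, nsmul_eq_mul]
    have h3 := sum_pairs P (Pq z q h) z q D r hz (fun p hp => ⟨(hP p hp).1, (hP p hp).2.1⟩) hPqp hq
      M hM0 𝒯 h𝒯m
    have h4 : ∑ T ∈ 𝒯, ∏ p ∈ T, (1 / ((p : ℝ) - 1)) ≤ ∏ p ∈ P, (1 + 1 / ((p : ℝ) - 1)) := by
      calc ∑ T ∈ 𝒯, ∏ p ∈ T, (1 / ((p : ℝ) - 1)) ≤ ∑ T ∈ P.powerset, ∏ p ∈ T, (1 / ((p : ℝ) - 1)) := by
            apply sum_le_sum_of_subset_of_nonneg (filter_subset _ _)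
            intro T hT _
            rw [mem_powerset] at hT
            exact prod_nonneg fun p hp => hg1 P hPp p (hT hp)
        _ = ∏ p ∈ P, (1 + 1 / ((p : ℝ) - 1)) := by
            rw [prod_one_add]
    have h5 : (𝒯.card : ℝ) ≤ D := by exact_mod_cast card_supp P D hPp 𝒯 h𝒯m
    have h6 : 2 * X * es g1 (Pq z q h) r * ∑ T ∈ 𝒯, ∏ p ∈ T, (1 / ((p : ℝ) - 1)) ≤
        2 * X * es g1 (Pq z q h) r * ∏ p ∈ P, (1 + 1 / ((p : ℝ) - 1)) :=
      mul_le_mul_of_nonneg_left h4 (by positivity)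
    have h7 : (𝒯.card : ℝ) * (z * ((Nat.log 2 X + 1 : ℝ) * Real.log X)) ≤
        D * (z * ((Nat.log 2 X + 1 : ℝ) * Real.log X)) :=
      mul_le_mul_of_nonneg_right h5 (by positivity)
    have h8 := mul_le_mul_of_nonneg_left (add_le_add (add_le_add h3 h6) h7) hC50
    refine h8.trans (le_of_eq ?_)
    ring
  -- the densities
  have hd := dens_eq h z q hq hqz
  have e7 : t / φq * ρ1 * V = kap z P c * ((t : ℝ) / q * ρ2) := by
    have e8 : kap z P c = (∏ p ∈ pz z, (1 - 1 / (p : ℝ)))⁻¹ * V := rfl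
    rw [e8]
    have e9 : (t : ℝ) / φq * ρ1 = t * (1 / φq * ρ1) := by ring
    rw [e9, hd]
    ring
  rw [sum_sub_distrib, ← mul_sum, e1]
  have e10 : ∑ T ∈ P.powerset, c T * A T - kap z P c *
      ∑ n ∈ (Icc (1 : ℤ) t).filter (fun n => n ≡ b [ZMOD q]), GG z h n =
      (∑ T ∈ P.powerset, c T * A T - t / φq * ρ1 * V) - kap z P c *
      (∑ n ∈ (Icc (1 : ℤ) t).filter (fun n => n ≡ b [ZMOD q]), GG z h n - (t : ℝ) / q * ρ2) := by
    rw [e7]; ring
  rw [e10]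
  refine (abs_sub _ _).trans (add_le_add hF ?_)
  rw [abs_mul]
  apply mul_le_mul_of_nonneg_left _ (abs_nonneg _)
  refine hG.trans ?_
  have h3 : (t : ℝ) / q ≤ X := by
    have htX : (t : ℝ) ≤ X := by exact_mod_cast ht
    exact (div_le_self (Nat.cast_nonneg _) hq1).trans htX
  have h4 : 2 * ((t : ℝ) / q) * es (fun p => (om h p : ℝ) / p) (Pp z q) r ≤
      2 * X * es (fun p => (om h p : ℝ) / p) (Pp z q) r := by
    apply mul_le_mul_of_nonneg_right _ hes2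
    linarith
  linarith

end Pool.Agent.H542.TW
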