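import Pool.Agent.H542.TW.T4
import Pool.Graph.R_seed8.Y882.KW.Alm
import Pool.Graph.R_seed8.Y882.KW.Num
import Pool.Graph.R_seed8.W378.DC.MP

/-!
The weights of the weighted linear sieve, without the small primes, and the constant factor.
-/

set_option autoImplicit false

namespace Pool.Agent.H542.TW

open Finset
open Pool.Agent.H373R2.T7 (pz es es_nonneg)
open Pool.Agent.W23.DC
open Pool.Agent.Y882 (VV PZ)
open Pool.Agent.Y882.KW (WW)

theorem mert_up : ∃ c : ℝ, 0 < c ∧ ∀ z : ℕ, 3 ≤ z →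
    ∏ p ∈ pz z, (1 - 1 / (p : ℝ)) ≤ c / Real.log z := by
  obtain ⟨C, hC⟩ := Pool.Agent.Erdos456.Mert.mertens_inv
  refine ⟨Real.exp C, Real.exp_pos _, fun z hz => ?_⟩
  have h1 := hC z hz
  have hz3 : (3 : ℝ) ≤ z := by exact_mod_cast hz
  have hlz : 0 < Real.log z := Real.log_pos (by linarith)
  unfold pz
  calc ∏ p ∈ (Icc 1 z).filter Nat.Prime, (1 - 1 / (p : ℝ)) ≤
      ∏ p ∈ (Icc 1 z).filter Nat.Prime, Real.exp (-(1 / (p : ℝ))) := by
        apply Finset.prod_le_prod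
        · intro p hp
          have hp2 : (2 : ℝ) ≤ p := by exact_mod_cast (mem_filter.1 hp).2.two_le
          rw [sub_nonneg, div_le_one (by linarith)]
          linarith
        · intro p hp
          have := Real.add_one_le_exp (-(1 / (p : ℝ)))
          linarith
    _ = Real.exp (-(∑ p ∈ (Icc 1 z).filter Nat.Prime, 1 / (p : ℝ))) := by
        rw [← Real.exp_sum, sum_neg_distrib]
    _ ≤ Real.exp (-(Real.log (Real.log z) - C)) := by
        apply Real.exp_le_exp.2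
        have h4 := (abs_le.1 h1).1
        linarith
    _ = Real.exp C / Real.log z := by
        rw [show -(Real.log (Real.log z) - C) = C - Real.log (Real.log z) by ring, Real.exp_sub,
          Real.exp_log hlz]

lemma sum_tel (S : Finset ℕ) (hS : ∀ p ∈ S, 2 ≤ p) : ∑ p ∈ S, 1 / ((p : ℝ) * ((p : ℝ) - 1)) ≤ 1 := by
  have h3 : ∀ n : ℕ, ∑ p ∈ Icc 2 (n + 1), 1 / ((p : ℝ) * ((p : ℝ) - 1)) = 1 - 1 / ((n : ℝ) + 1) := by
    intro n
    induction n with
    | zero => simp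
    | succ n ih =>
      rw [sum_Icc_succ_top (by omega), ih]
      push_cast
      have e1 : (n : ℝ) + 1 ≠ 0 := by positivity
      have e2 : (n : ℝ) + 1 + 1 ≠ 0 := by positivity
      field_simp
      ring
  calc ∑ p ∈ S, 1 / ((p : ℝ) * ((p : ℝ) - 1)) ≤ ∑ p ∈ Icc 2 (S.sup id + 1), 1 / ((p : ℝ) * ((p : ℝ) - 1)) := by
        apply sum_le_sum_of_subset_of_nonneg
        · intro p hp
          have : p ≤ S.sup id := Finset.le_sup (f := id) hp
          rw [mem_Icc]
          exact ⟨hS p hp, by omega⟩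
        · intro p hp _
          rw [mem_Icc] at hp
          have : (2 : ℝ) ≤ p := by exact_mod_cast hp.1
          apply div_nonneg (by norm_num)
          nlinarith
    _ ≤ 1 := by
        rw [h3]
        have : (0 : ℝ) ≤ 1 / ((S.sup id : ℕ) + 1 : ℝ) := by positivity
        linarith

theorem mert_low : ∃ c : ℝ, 0 < c ∧ ∀ z : ℕ, 3 ≤ z →
    c / Real.log z ≤ ∏ p ∈ pz z, (1 - 1 / (p : ℝ)) := by
  obtain ⟨C, hC⟩ := Pool.Agent.Erdos456.Mert.mertens_inv
  refine ⟨Real.exp (-(C + 1)), Real.exp_pos _, fun z hz => ?_⟩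
  have h1 := hC z hz
  have hz3 : (3 : ℝ) ≤ z := by exact_mod_cast hz
  have hlz : 0 < Real.log z := Real.log_pos (by linarith)
  unfold pz
  have h2 : ∑ p ∈ (Icc 1 z).filter Nat.Prime, 1 / ((p : ℝ) - 1) ≤ Real.log (Real.log z) + C + 1 := by
    have e : ∑ p ∈ (Icc 1 z).filter Nat.Prime, 1 / ((p : ℝ) - 1) =
        ∑ p ∈ (Icc 1 z).filter Nat.Prime, 1 / (p : ℝ) +
        ∑ p ∈ (Icc 1 z).filter Nat.Prime, 1 / ((p : ℝ) * ((p : ℝ) - 1)) := by
      rw [← sum_add_distrib]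
      apply sum_congr rfl
      intro p hp
      have hp2 : (2 : ℝ) ≤ p := by exact_mod_cast (mem_filter.1 hp).2.two_le
      have e1 : (p : ℝ) ≠ 0 := by linarith
      have e2 : (p : ℝ) - 1 ≠ 0 := by linarith
      field_simp
      ring
    rw [e]
    have h3 := sum_tel ((Icc 1 z).filter Nat.Prime) (fun p hp => (mem_filter.1 hp).2.two_le)
    have h4 := (abs_le.1 h1).2
    linarith
  calc Real.exp (-(C + 1)) / Real.log z = Real.exp (-(Real.log (Real.log z) + C + 1)) := by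
        rw [show -(Real.log (Real.log z) + C + 1) = -(C + 1) - Real.log (Real.log z) by ring,
          Real.exp_sub, Real.exp_log hlz]
    _ ≤ Real.exp (-(∑ p ∈ (Icc 1 z).filter Nat.Prime, 1 / ((p : ℝ) - 1))) :=
        Real.exp_le_exp.2 (by linarith)
    _ = ∏ p ∈ (Icc 1 z).filter Nat.Prime, Real.exp (-(1 / ((p : ℝ) - 1))) := by
        rw [← Real.exp_sum, sum_neg_distrib]
    _ ≤ ∏ p ∈ (Icc 1 z).filter Nat.Prime, (1 - 1 / (p : ℝ)) := by
        apply Finset.prod_le_prod (fun p _ => (Real.exp_pos _).le)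
        intro p hp
        have hp2 : (2 : ℝ) ≤ p := by exact_mod_cast (mem_filter.1 hp).2.two_le
        have h5 := Real.add_one_le_exp (1 / ((p : ℝ) - 1))
        have h6 : 0 < 1 / ((p : ℝ) - 1) + 1 := by
          have : 0 < 1 / ((p : ℝ) - 1) := div_pos one_pos (by linarith)
          linarith
        rw [Real.exp_neg]
        refine (inv_anti₀ h6 h5).trans (le_of_eq ?_)
        have e1 : (p : ℝ) ≠ 0 := by linarith
        have e2 : (p : ℝ) - 1 ≠ 0 := by linarith
        have e3 : 1 / ((p : ℝ) - 1) + 1 = p / ((p : ℝ) - 1) := by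
          field_simp
          ring
        rw [e3, inv_div]
        field_simp

lemma pz_pos (z : ℕ) : 0 < ∏ p ∈ pz z, (1 - 1 / (p : ℝ)) := by
  apply prod_pos
  intro p hp
  have hp2 : (2 : ℝ) ≤ p := by exact_mod_cast (mem_pz.1 hp).1.two_le
  rw [sub_pos, div_lt_one (by linarith)]
  linarith

/-- products over medium primes -/
theorem mid_prod : ∃ c C : ℝ, 0 < c ∧ 0 < C ∧ ∀ z y : ℕ, 3 ≤ z → z ≤ y → ∀ S : Finset ℕ,
    (∀ p ∈ S, p.Prime ∧ z < p ∧ p ≤ y) →
    c * (Real.log z / Real.log y) ≤ ∏ p ∈ S, (1 - 1 / ((p : ℝ) - 1)) ∧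
    ∏ p ∈ S, (1 + 1 / ((p : ℝ) - 1)) ≤ C * Real.log y := by
  obtain ⟨c1, hc1, h1⟩ := mert_up
  obtain ⟨c2, hc2, h2⟩ := mert_low
  refine ⟨1 / 2 * (c2 / c1), 1 / c2, by positivity, by positivity, fun z y hz hzy S hS => ?_⟩
  have hz3 : (3 : ℝ) ≤ z := by exact_mod_cast hz
  have hy3 : (3 : ℝ) ≤ y := by exact_mod_cast hz.trans hzy
  have hlz : 0 < Real.log z := Real.log_pos (by linarith)
  have hly : 0 < Real.log y := Real.log_pos (by linarith)
  have hS2 : ∀ p ∈ S, (3 : ℝ) ≤ p := by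
    intro p hp
    have := (hS p hp).2.1
    exact_mod_cast (by omega : 3 ≤ p)
  have hSy : S ⊆ pz y := fun p hp => mem_pz.2 ⟨(hS p hp).1, (hS p hp).2.2⟩
  have hdis : Disjoint (pz z) S := by
    rw [Finset.disjoint_left]
    intro p hp hp2
    have h3 := (mem_pz.1 hp).2
    have h4 := (hS p hp2).2.1
    omega
  have hSy2 : pz z ∪ S ⊆ pz y := by
    apply union_subset _ hSy
    intro p hp
    have := mem_pz.1 hp
    exact mem_pz.2 ⟨this.1, this.2.trans hzy⟩
  have hf : ∀ p ∈ pz y, 0 < (1 - 1 / (p : ℝ)) ∧ (1 - 1 / (p : ℝ)) ≤ 1 := by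
    intro p hp
    have hp2 : (2 : ℝ) ≤ p := by exact_mod_cast (mem_pz.1 hp).1.two_le
    have h3 : 0 < 1 / (p : ℝ) := by positivity
    have h4 : 1 / (p : ℝ) < 1 := by rw [div_lt_one (by linarith)]; linarith
    constructor <;> linarith
  -- the product over a subset of the primes is at least the whole product
  have hsub : ∀ T ⊆ pz y, ∏ p ∈ pz y, (1 - 1 / (p : ℝ)) ≤ ∏ p ∈ T, (1 - 1 / (p : ℝ)) := by
    intro T hT
    rw [← prod_sdiff hT]
    have h5 : ∏ p ∈ pz y \ T, (1 - 1 / (p : ℝ)) ≤ 1 :=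
      prod_le_one (fun p hp => (hf p (mem_sdiff.1 hp).1).1.le) (fun p hp => (hf p (mem_sdiff.1 hp).1).2)
    have h6 : 0 ≤ ∏ p ∈ T, (1 - 1 / (p : ℝ)) := prod_nonneg fun p hp => (hf p (hT hp)).1.le
    nlinarith
  constructor
  · have h3 : ∏ p ∈ S, (1 - 1 / ((p : ℝ) - 1)) =
        (∏ p ∈ S, (1 - 1 / (p : ℝ))) * ∏ p ∈ S, (1 - 1 / ((p : ℝ) - 1) ^ 2) := by
      rw [← prod_mul_distrib]
      apply prod_congr rfl
      intro p hp
      have := hS2 p hp
      have e1 : (p : ℝ) ≠ 0 := by linarith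
      have e2 : (p : ℝ) - 1 ≠ 0 := by linarith
      field_simp
      ring
    have h4 := Pool.Agent.Y882.sq_prod S (fun p hp => by have := (hS p hp).2.1; omega)
    have h5 := hsub _ hSy2
    rw [prod_union hdis] at h5
    have h6 := h1 z hz
    have h7 := h2 y (hz.trans hzy)
    have h8 : 0 ≤ ∏ p ∈ S, (1 - 1 / (p : ℝ)) := prod_nonneg fun p hp => (hf p (hSy hp)).1.le
    have h9 : c2 / Real.log y ≤ c1 / Real.log z * ∏ p ∈ S, (1 - 1 / (p : ℝ)) :=
      (h7.trans h5).trans (mul_le_mul_of_nonneg_right h6 h8)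
    have h10 : c2 / c1 * (Real.log z / Real.log y) ≤ ∏ p ∈ S, (1 - 1 / (p : ℝ)) := by
      calc c2 / c1 * (Real.log z / Real.log y) = (Real.log z / c1) * (c2 / Real.log y) := by
            field_simp
        _ ≤ (Real.log z / c1) * (c1 / Real.log z * ∏ p ∈ S, (1 - 1 / (p : ℝ))) :=
            mul_le_mul_of_nonneg_left h9 (by positivity)
        _ = ∏ p ∈ S, (1 - 1 / (p : ℝ)) := by field_simp
    rw [h3]
    calc 1 / 2 * (c2 / c1) * (Real.log z / Real.log y) =
        (c2 / c1 * (Real.log z / Real.log y)) * (1 / 2) := by ring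
      _ ≤ (∏ p ∈ S, (1 - 1 / (p : ℝ))) * (1 / 2) := mul_le_mul_of_nonneg_right h10 (by norm_num)
      _ ≤ _ := mul_le_mul_of_nonneg_left h4 h8
  · have h3 : ∏ p ∈ S, (1 + 1 / ((p : ℝ) - 1)) = (∏ p ∈ S, (1 - 1 / (p : ℝ)))⁻¹ := by
      rw [← prod_inv_distrib]
      apply prod_congr rfl
      intro p hp
      have := hS2 p hp
      have e1 : (p : ℝ) ≠ 0 := by linarith
      have e2 : (p : ℝ) - 1 ≠ 0 := by linarith
      field_simp
      ring
    have h5 := (h2 y (hz.trans hzy)).trans (hsub S hSy)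
    rw [h3]
    calc (∏ p ∈ S, (1 - 1 / (p : ℝ)))⁻¹ ≤ (c2 / Real.log y)⁻¹ := inv_anti₀ (by positivity) h5
      _ = 1 / c2 * Real.log y := by rw [inv_div]; ring

lemma VV_restr (P' P : Finset ℕ) (hP : P ⊆ P') (c : Finset ℕ → ℝ) (g : ℕ → ℝ)
    (hg : ∀ p ∈ P', p ∉ P → g p = 0) : VV P' c g = VV P c g := by
  unfold VV
  symm
  apply sum_subset (powerset_mono.2 hP)
  intro T hT hT2
  rw [mem_powerset] at hT hT2
  obtain ⟨p, hp, hp2⟩ := not_subset.1 hT2
  rw [prod_eq_zero hp (hg p (hT hp) hp2), mul_zero]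

lemma VV_congr_fun (P : Finset ℕ) (c : Finset ℕ → ℝ) (g g' : ℕ → ℝ)
    (hg : ∀ p ∈ P, g p = g' p) : VV P c g = VV P c g' := by
  unfold VV
  apply sum_congr rfl
  intro T hT
  rw [mem_powerset] at hT
  congr 1
  exact prod_congr rfl fun p hp => hg p (hT hp)

lemma VV_le (P : Finset ℕ) (c : Finset ℕ → ℝ) (g : ℕ → ℝ) (C : ℝ) (hC : ∀ T, |c T| ≤ C)
    (hg : ∀ p ∈ P, 0 ≤ g p) : |VV P c g| ≤ C * ∏ p ∈ P, (1 + g p) := by
  unfold VV
  refine (abs_sum_le_sum_abs _ _).trans ?_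
  have h : ∏ p ∈ P, (1 + g p) = ∑ T ∈ P.powerset, ∏ p ∈ T, g p := by
    rw [Finset.prod_one_add]
  rw [h, mul_sum]
  apply sum_le_sum
  intro T hT
  rw [mem_powerset] at hT
  rw [abs_mul, abs_of_nonneg (prod_nonneg fun p hp => hg p (hT hp))]
  exact mul_le_mul_of_nonneg_right (hC T) (prod_nonneg fun p hp => hg p (hT hp))

open Classical in
lemma PZ_mem (X : ℕ) (υ : ℝ) (p : ℕ) : p ∈ PZ X υ ↔ p.Prime ∧ p ≤ X ∧ tt X p < υ := by
  unfold PZ
  rw [mem_filter, mem_Icc]
  constructor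
  · rintro ⟨h1, h2, h3⟩; exact ⟨h2, h1.2, h3⟩
  · rintro ⟨h1, h2, h3⟩; exact ⟨⟨h1.one_le, h2⟩, h1, h3⟩

/-- the primes between `z` and `X ^ υ` -/
noncomputable def Pm (X : ℕ) (υ : ℝ) (z : ℕ) : Finset ℕ := (PZ X υ).filter (fun p => z < p)

open Classical in
/-- **The weights.** -/
theorem wt : ∃ ε₁ c0 C0 : ℝ, 0 < ε₁ ∧ ε₁ ≤ 3 / 25 ∧ 0 < c0 ∧ 0 < C0 ∧ ∃ X0 : ℕ, ∀ X : ℕ, X0 ≤ X →
    ∃ c : Finset ℕ → ℝ, (∀ T, |c T| ≤ 5 * Real.log X) ∧
    (∀ T ⊆ PZ X (288 / 625), c T ≠ 0 → ((∏ p ∈ T, p : ℕ) : ℝ) ≤ (X : ℝ) ^ (49 / 100 : ℝ)) ∧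
    ∀ z : ℕ, 3 ≤ z → (z : ℝ) < (X : ℝ) ^ ε₁ →
      (∀ N : ℕ, (∀ p ∈ pz z, ¬ p ∣ N) → VV (Pm X (288 / 625) z) c (fun p => if p ∣ N then 1 else 0) ≤
        WW X (3 / 25) (288 / 625) (8 / 9) (8 / 9 / (288 / 625)) N) ∧
      c0 * (Real.log z) ^ 2 / Real.log X ≤ kap z (Pm X (288 / 625) z) c ∧
      |kap z (Pm X (288 / 625) z) c| ≤ C0 * (Real.log X) ^ 3 ∧
      ∏ p ∈ Pm X (288 / 625) z, (1 + 1 / ((p : ℝ) - 1)) ≤ C0 * Real.log X := by
  obtain ⟨ε₁, η, f, hε, hε2, -, hη, hf, Y0, H⟩ := Pool.Agent.Y882.KW.core3 1 (12 / 25) (3 / 25)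
    (288 / 625) (8 / 9) (8 / 9 / (288 / 625)) (49 / 100) 1 (by norm_num) (by norm_num) (by norm_num)
    (by norm_num) (by norm_num) (by norm_num) (by norm_num) (by norm_num) (by norm_num)
    (by
      have h := Pool.Agent.Y882.KW.cond_A (12 / 25) (8 / 9) (by norm_num) (by norm_num) (by norm_num)
      have e1 : (12 / 25 : ℝ) / 4 = 3 / 25 := by norm_num
      have e2 : (24 / 25 : ℝ) * (12 / 25) = 288 / 625 := by norm_num
      rw [e1, e2] at h
      exact h) (by norm_num) one_pos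
  obtain ⟨N0, HM⟩ := Pool.Agent.W378.DC.MP ε₁ η hε hη
  obtain ⟨c1, C1, hc1, hC1, Hm⟩ := mid_prod
  obtain ⟨c2, hc2, Hu⟩ := mert_up
  obtain ⟨c3, hc3, Hl⟩ := mert_low
  refine ⟨ε₁, f * c1 / c2, 5 / c3 * C1 + C1, hε, hε2, by positivity, by positivity,
    max (max Y0 N0) 3, fun X hX => ?_⟩
  have hX0 : Y0 ≤ X := (le_max_left _ _).trans ((le_max_left _ _).trans hX)
  have hX1 : N0 ≤ X := (le_max_right _ _).trans ((le_max_left _ _).trans hX)
  have hX3 : 3 ≤ X := (le_max_right _ _).trans hX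
  have hX3r : (3 : ℝ) ≤ X := by exact_mod_cast hX3
  have hlX : 0 < Real.log X := Real.log_pos (by linarith)
  have hlX1 : 1 ≤ Real.log X := by
    rw [Real.le_log_iff_exp_le (by linarith)]
    exact Real.exp_one_lt_three.le.trans hX3r
  obtain ⟨c, Hc1, Hc2, Hc3, Hc4⟩ := H X hX0
  refine ⟨c, Hc1, Hc2, fun z hz hzX => ?_⟩
  have hz3 : (3 : ℝ) ≤ z := by exact_mod_cast hz
  have hlz : 0 < Real.log z := Real.log_pos (by linarith)
  have hzX2 : z ≤ X := by
    have h1 : (X : ℝ) ^ ε₁ ≤ (X : ℝ) ^ (1 : ℝ) :=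
      Real.rpow_le_rpow_of_exponent_le (by linarith) (by linarith)
    rw [Real.rpow_one] at h1
    exact_mod_cast (hzX.le.trans h1)
  set P := Pm X (288 / 625) z with hP
  have hPm : ∀ p ∈ P, p ∈ PZ X (288 / 625) ∧ z < p := by
    intro p hp
    rw [hP, Pm, mem_filter] at hp
    exact hp
  have hPs : P ⊆ PZ X (288 / 625) := fun p hp => (hPm p hp).1
  have hPp : ∀ p ∈ P, p.Prime ∧ z < p ∧ p ≤ X := by
    intro p hp
    have h1 := hPm p hp
    rw [PZ_mem] at h1
    exact ⟨h1.1.1, h1.2, h1.1.2.1⟩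
  obtain ⟨-, hmid2⟩ := Hm z X hz hzX2 P hPp
  have hMpos := pz_pos z
  have hMup := Hu z hz
  have hMlow := Hl z hz
  refine ⟨?_, ?_, ?_, ?_⟩
  · intro N hN
    rw [← VV_restr _ P hPs]
    · exact Hc3 N
    · intro p hp hp2
      rw [PZ_mem] at hp
      have hpz : p ≤ z := by
        by_contra h
        push Not at h
        exact hp2 (by rw [hP, Pm, mem_filter, PZ_mem]; exact ⟨hp, h⟩)
      rw [if_neg (hN p (mem_pz.2 ⟨hp.1, hpz⟩))]
  · -- the lower bound
    set g : ℕ → ℝ := fun p => if z < p then 1 / ((p : ℝ) - 1) else 0 with hg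
    have hg0 : ∀ p : ℕ, 0 ≤ g p := by
      intro p
      simp only [hg]
      split_ifs with h
      · have : (3 : ℝ) ≤ p := hz3.trans (by exact_mod_cast h.le)
        exact div_nonneg one_pos.le (by linarith)
      · exact le_refl _
    have hg1 : ∀ p : ℕ, g p ≤ 1 := by
      intro p
      simp only [hg]
      split_ifs with h
      · have : (3 : ℝ) ≤ p := hz3.trans (by exact_mod_cast h.le)
        rw [div_le_one (by linarith)]
        linarith
      · norm_num
    have h1 := Hc4 g (fun p _ => hg0 p) (fun p _ => hg1 p)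
      (by
        intro p hp hp1
        simp only [hg]
        split_ifs with h
        · push_cast
          exact le_refl _
        · have h2 : (1 : ℝ) < p := by exact_mod_cast hp1
          push_cast
          exact div_nonneg one_pos.le (by linarith))
      (by
        intro a b ha hab hb
        have h2 := HM X hX1 a b ha hab (hb.trans (by norm_num))
        have h3 : (pr X ε₁ (288 / 625)).filter (fun p => a ≤ tt X p ∧ tt X p < b) = pr X a b := by
          ext p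
          unfold pr
          rw [mem_filter, mem_filter, mem_filter]
          constructor
          · rintro ⟨⟨h4, h5, h6, h7⟩, h8, h9⟩
            exact ⟨h4, h5, h8, h9⟩
          · rintro ⟨h4, h5, h6, h7⟩
            exact ⟨⟨h4, h5, ha.trans h6, h7.trans_le hb⟩, h6, h7⟩
        rw [h3]
        have h4 : ∑ p ∈ pr X a b, g p = ∑ p ∈ pr X a b, 1 / ((p : ℝ) - 1) := by
          apply sum_congr rfl
          intro p hp
          unfold pr at hp
          rw [mem_filter, mem_Icc] at hp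
          have h5 : ¬ tt X p < ε₁ := by
            have := ha.trans hp.2.2.1
            linarith
          rw [Pool.Agent.Y882.tt_lt X p ε₁ (by omega) (by omega)] at h5
          push Not at h5
          have h6 : (z : ℝ) < p := hzX.trans_le h5
          have h7 : z < p := by exact_mod_cast h6
          simp only [hg]
          rw [if_pos h7]
        rw [h4]
        exact h2)
    rw [VV_restr _ P hPs c g (by
      intro p hp hp2
      rw [PZ_mem] at hp
      have hpz : ¬ z < p := by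
        intro h
        exact hp2 (by rw [hP, Pm, mem_filter, PZ_mem]; exact ⟨hp, h⟩)
      simp only [hg]
      rw [if_neg hpz])] at h1
    rw [VV_congr_fun P c g (fun p => 1 / ((p : ℝ) - 1)) (by
      intro p hp
      simp only [hg]
      rw [if_pos (hPp p hp).2.1])] at h1
    have h2 : c1 * (Real.log z / Real.log X) ≤ ∏ p ∈ PZ X ε₁, (1 - g p) := by
      have h3 : ∏ p ∈ PZ X ε₁, (1 - g p) =
          ∏ p ∈ (PZ X ε₁).filter (fun p => z < p), (1 - 1 / ((p : ℝ) - 1)) := by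
        rw [prod_filter]
        apply prod_congr rfl
        intro p hp
        simp only [hg]
        split_ifs with h
        · rfl
        · ring
      rw [h3]
      apply (Hm z X hz hzX2 _ _).1
      intro p hp
      rw [mem_filter, PZ_mem] at hp
      exact ⟨hp.1.1, hp.2, hp.1.2.1⟩
    have h3 : f * (c1 * (Real.log z / Real.log X)) ≤ VV P c (fun p => 1 / ((p : ℝ) - 1)) :=
      (mul_le_mul_of_nonneg_left h2 hf.le).trans h1
    have h4 : Real.log z / c2 ≤ (∏ p ∈ pz z, (1 - 1 / (p : ℝ)))⁻¹ := by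
      have h5 := inv_anti₀ hMpos hMup
      rw [inv_div] at h5
      exact h5
    unfold kap
    calc f * c1 / c2 * (Real.log z) ^ 2 / Real.log X =
        (Real.log z / c2) * (f * (c1 * (Real.log z / Real.log X))) := by ring
      _ ≤ (∏ p ∈ pz z, (1 - 1 / (p : ℝ)))⁻¹ * (f * (c1 * (Real.log z / Real.log X))) :=
          mul_le_mul_of_nonneg_right h4 (by positivity)
      _ ≤ _ := mul_le_mul_of_nonneg_left h3 (inv_pos.2 hMpos).le
  · -- the upper bound
    have h1 := VV_le P c (fun p => 1 / ((p : ℝ) - 1)) (5 * Real.log X) Hc1 (by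
      intro p hp
      have : (3 : ℝ) ≤ p := hz3.trans (by exact_mod_cast (hPp p hp).2.1.le)
      exact div_nonneg one_pos.le (by linarith))
    have h2 : |VV P c (fun p => 1 / ((p : ℝ) - 1))| ≤ 5 * Real.log X * (C1 * Real.log X) :=
      h1.trans (mul_le_mul_of_nonneg_left hmid2 (by positivity))
    have h3 : (∏ p ∈ pz z, (1 - 1 / (p : ℝ)))⁻¹ ≤ Real.log X / c3 := by
      have h5 := inv_anti₀ (by positivity) hMlow
      rw [inv_div] at h5
      refine h5.trans (div_le_div_of_nonneg_right ?_ hc3.le)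
      exact Real.log_le_log (by linarith) (by exact_mod_cast hzX2)
    unfold kap
    rw [abs_mul, abs_of_pos (inv_pos.2 hMpos)]
    calc (∏ p ∈ pz z, (1 - 1 / (p : ℝ)))⁻¹ * |VV P c (fun p => 1 / ((p : ℝ) - 1))| ≤
        (Real.log X / c3) * (5 * Real.log X * (C1 * Real.log X)) :=
          mul_le_mul h3 h2 (abs_nonneg _) (by positivity)
      _ = (5 / c3 * C1) * (Real.log X) ^ 3 := by ring
      _ ≤ (5 / c3 * C1 + C1) * (Real.log X) ^ 3 :=
          mul_le_mul_of_nonneg_right (by linarith) (by positivity)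
  · calc ∏ p ∈ P, (1 + 1 / ((p : ℝ) - 1)) ≤ C1 * Real.log X := hmid2
      _ ≤ (5 / c3 * C1 + C1) * Real.log X := by
          apply mul_le_mul_of_nonneg_right _ hlX.le
          have : 0 < 5 / c3 * C1 := by positivity
          linarith

end Pool.Agent.H542.TW
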