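import Pool.Agent.H542.TW.T5
import Pool.Agent.H542.TW.T1

/-!
The discrepancy with explicit parameters.
-/

set_option autoImplicit false

namespace Pool.Agent.H542.TW

open Finset
open Pool.Agent.H373R2.T7 (pz es es_nonneg es_le sum_pz_le choice)
open Pool.Agent.Y889.PN (PS bvmax)
open Pool.Agent.W23.DC (tt)
open Pool.Agent.Y882 (VV PZ)
open Pool.Agent.Y882.KW (WW)

lemma log_X_pow (a : ℕ) (θ : ℝ) (hθ : 0 < θ) (K : ℝ) :
    ∀ᶠ X : ℕ in Filter.atTop, K * Real.log X ^ a ≤ (X : ℝ) ^ θ := by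
  have h1 := (isLittleO_log_rpow_rpow_atTop (a : ℝ) hθ).bound
    (show (0 : ℝ) < 1 / (|K| + 1) by positivity)
  have h2 := (tendsto_natCast_atTop_atTop (R := ℝ)).eventually h1
  filter_upwards [h2, Filter.eventually_ge_atTop 3] with X h3 h4
  have hX : (3 : ℝ) ≤ X := by exact_mod_cast h4
  have hl : 0 < Real.log X := Real.log_pos (by linarith)
  rw [Real.rpow_natCast, Real.norm_of_nonneg (by positivity),
    Real.norm_of_nonneg (by positivity)] at h3
  have h5 : (|K| + 1) * Real.log X ^ a ≤ (X : ℝ) ^ θ := by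
    have := mul_le_mul_of_nonneg_left h3 (show (0 : ℝ) ≤ |K| + 1 by positivity)
    rwa [← mul_assoc, mul_one_div_cancel (by positivity), one_mul] at this
  refine le_trans ?_ h5
  apply mul_le_mul_of_nonneg_right _ (by positivity)
  have := le_abs_self K
  linarith

lemma log_big (K : ℝ) : ∀ᶠ X : ℕ in Filter.atTop, K ≤ Real.log X :=
  (Real.tendsto_log_atTop.comp (tendsto_natCast_atTop_atTop (R := ℝ))).eventually_ge_atTop K

/-- **The discrepancy.** -/
theorem disc2 (C0 : ℝ) (hC0 : 0 < C0) (E U B' : ℕ) (h : ℤ) (hh : h ≠ 0) : ∃ X0 : ℕ, ∀ X : ℕ, X0 ≤ X →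
    ∀ c : Finset ℕ → ℝ, (∀ T, |c T| ≤ 5 * Real.log X) →
    (∀ T ⊆ PZ X (288 / 625), c T ≠ 0 → ((∏ p ∈ T, p : ℕ) : ℝ) ≤ (X : ℝ) ^ (49 / 100 : ℝ)) →
    ∀ z : ℕ, 3 ≤ z → h.natAbs ≤ z → (z : ℝ) ≤ Real.log X ^ E →
    |kap z (Pm X (288 / 625) z) c| ≤ C0 * (Real.log X) ^ 3 →
    ∏ p ∈ Pm X (288 / 625) z, (1 + 1 / ((p : ℝ) - 1)) ≤ C0 * Real.log X →
    ∀ q : ℕ, 1 ≤ q → (q : ℝ) ≤ Real.log X ^ B' → (∀ p : ℕ, p.Prime → p ∣ q → p ≤ z) →
    ∀ (b : ℤ) (t : ℕ), t ≤ X →
    |∑ n ∈ (Icc (1 : ℤ) t).filter (fun n => n ≡ b [ZMOD q]),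
        (FF z h (Pm X (288 / 625) z) c n - kap z (Pm X (288 / 625) z) c * GG z h n)| ≤
      X / Real.log X ^ U := by
  obtain ⟨B, X1, hbv⟩ := bvmax (U + 2)
  obtain ⟨X2, hch⟩ := choice 2 E (U + 4) 1000
  have hev : ∀ᶠ X : ℕ in Filter.atTop, (1 * Real.log X ^ (2 * B' + B) ≤ (X : ℝ) ^ (18 / 1000 : ℝ) ∧
      60 * Real.log X ^ (E + 3 + U) ≤ (X : ℝ) ^ (51 / 100 : ℝ) ∧
      8 * C0 * Real.log X ^ (3 + U) ≤ (X : ℝ) ^ (1 / 2 : ℝ)) ∧
      20 ≤ Real.log X ∧ 40 * C0 ≤ Real.log X ∧ X1 ≤ X ∧ X2 ≤ X ∧ 3 ≤ X := by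
    filter_upwards [log_X_pow (2 * B' + B) (18 / 1000) (by norm_num) 1,
      log_X_pow (E + 3 + U) (51 / 100) (by norm_num) 60,
      log_X_pow (3 + U) (1 / 2) (by norm_num) (8 * C0), log_big 20, log_big (40 * C0),
      Filter.eventually_ge_atTop X1, Filter.eventually_ge_atTop X2, Filter.eventually_ge_atTop 3]
      with X h1 h2 h3 h4 h5 h6 h7 h8
    exact ⟨⟨h1, h2, h3⟩, h4, h5, h6, h7, h8⟩
  obtain ⟨X0, hX0⟩ := Filter.eventually_atTop.1 hev
  refine ⟨X0, fun X hX c hc hcD z hz hhz hzE hk hprod q hq hqB hqz b t ht => ?_⟩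
  obtain ⟨⟨e1, e2, e3⟩, e4, e5, e6, e7, e8⟩ := hX0 X hX
  set L := Real.log X with hL
  have hX3 : (3 : ℝ) ≤ X := by exact_mod_cast e8
  have hXpos : (0 : ℝ) < X := by linarith
  have hL0 : 0 < L := by linarith
  have hL1 : 1 ≤ L := by linarith
  have hz3 : (3 : ℝ) ≤ z := by exact_mod_cast hz
  obtain ⟨r, hr1, hr2, -⟩ := hch X e7 z hzE
  set D : ℕ := ⌊(X : ℝ) ^ (49 / 100 : ℝ)⌋₊ with hD
  have hDr : (D : ℝ) ≤ (X : ℝ) ^ (49 / 100 : ℝ) := Nat.floor_le (by positivity)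
  set P := Pm X (288 / 625) z with hP
  -- the power of `z`
  have hzr : ((z : ℝ) + 1) ^ r ≤ (X : ℝ) ^ (1 / 1000 : ℝ) := by
    have h1 := Real.rpow_le_rpow (by positivity) hr2 (show (0 : ℝ) ≤ 1 / 1000 by norm_num)
    have h2 : ((((z : ℝ) + 1) ^ r) ^ 1000) ^ (1 / 1000 : ℝ) = ((z : ℝ) + 1) ^ r := by
      rw [← Real.rpow_natCast (((z : ℝ) + 1) ^ r) 1000, ← Real.rpow_mul (by positivity)]
      norm_num
    rw [h2] at h1
    exact h1
  have hzr' : (z : ℝ) ^ r ≤ (X : ℝ) ^ (1 / 1000 : ℝ) :=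
    (pow_le_pow_left₀ (by positivity) (by linarith) r).trans hzr
  have hQ : ((q * D * z ^ r : ℕ) : ℝ) ^ 2 * Real.log X ^ B ≤ X := by
    push_cast
    calc ((q : ℝ) * D * (z : ℝ) ^ r) ^ 2 * Real.log X ^ B ≤
        (L ^ B' * (X : ℝ) ^ (49 / 100 : ℝ) * (X : ℝ) ^ (1 / 1000 : ℝ)) ^ 2 * L ^ B := by
          apply mul_le_mul_of_nonneg_right _ (by positivity)
          apply pow_le_pow_left₀ (by positivity)
          apply mul_le_mul _ hzr' (by positivity) (by positivity)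
          exact mul_le_mul hqB hDr (by positivity) (by positivity)
      _ = (1 * L ^ (2 * B' + B)) * (X : ℝ) ^ (982 / 1000 : ℝ) := by
          have h3 : (X : ℝ) ^ (982 / 1000 : ℝ) =
              ((X : ℝ) ^ (49 / 100 : ℝ) * (X : ℝ) ^ (1 / 1000 : ℝ)) ^ 2 := by
            rw [← Real.rpow_add hXpos, ← Real.rpow_natCast, ← Real.rpow_mul hXpos.le]
            norm_num
          rw [h3]
          ring
      _ ≤ (X : ℝ) ^ (18 / 1000 : ℝ) * (X : ℝ) ^ (982 / 1000 : ℝ) :=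
          mul_le_mul_of_nonneg_right e1 (by positivity)
      _ = X := by
          rw [← Real.rpow_add hXpos]
          norm_num
  obtain ⟨M, hM0, hM1, -, hM2⟩ := hbv X e6 (q * D * z ^ r) hQ
  have hmain := disc h z q X t r D b P c M (5 * L) (by omega)
    (by
      intro p hp
      rw [hP, Pm, mem_filter, PZ_mem] at hp
      refine ⟨hp.1.1, hp.2, fun hd => ?_⟩
      have h1 : p ∣ h.natAbs := Int.natCast_dvd.1 hd
      have h2 := Nat.le_of_dvd (Int.natAbs_pos.2 hh) h1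
      omega) hq hqz ht hc
    (by
      intro T hT hcT
      have h1 := hcD T (hT.trans (by rw [hP]; exact filter_subset _ _)) hcT
      exact Nat.le_floor h1) hM0 hM1
  refine hmain.trans ?_
  -- the elementary symmetric functions
  have hes : ∀ (x : ℕ → ℝ) (T : Finset ℕ), T ⊆ pz z → (∀ p ∈ T, 0 ≤ x p ∧ x p ≤ 2 * (1 / (p : ℝ))) →
      es x T r ≤ 1 / L ^ (U + 4) := by
    intro x T hT hx
    refine (es_le (fun p hp => (hx p hp).1) r).trans (le_trans ?_ hr1)
    apply Real.exp_le_exp.2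
    have h1 : ∑ p ∈ T, x p ≤ 2 * (1 + Real.log z) := by
      calc ∑ p ∈ T, x p ≤ ∑ p ∈ T, 2 * (1 / (p : ℝ)) := sum_le_sum fun p hp => (hx p hp).2
        _ ≤ ∑ p ∈ pz z, 2 * (1 / (p : ℝ)) :=
            sum_le_sum_of_subset_of_nonneg hT fun _ _ _ => by positivity
        _ = 2 * ∑ p ∈ pz z, 1 / (p : ℝ) := by rw [mul_sum]
        _ ≤ _ := mul_le_mul_of_nonneg_left (sum_pz_le z) (by norm_num)
    push_cast
    linarith
  have hes1 : es (fun p => 1 / ((p : ℝ) - 1)) (Pq z q h) r ≤ 1 / L ^ (U + 4) := by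
    apply hes _ _ (filter_subset _ _)
    intro p hp
    have hp2 : (2 : ℝ) ≤ p := by exact_mod_cast (mem_pz.1 (mem_filter.1 hp).1).1.two_le
    constructor
    · exact div_nonneg one_pos.le (by linarith)
    · rw [mul_one_div, div_le_div_iff₀ (by linarith) (by linarith)]
      linarith
  have hes2 : es (fun p => (om h p : ℝ) / p) (Pp z q) r ≤ 1 / L ^ (U + 4) := by
    apply hes _ _ (filter_subset _ _)
    intro p hp
    constructor
    · positivity
    · rw [mul_one_div]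
      apply div_le_div_of_nonneg_right _ (Nat.cast_nonneg _)
      exact_mod_cast om_le h p
  have hes1' : 0 ≤ es (fun p => 1 / ((p : ℝ) - 1)) (Pq z q h) r := by
    apply es_nonneg
    intro p hp
    have hp2 : (2 : ℝ) ≤ p := by exact_mod_cast (mem_pz.1 (mem_filter.1 hp).1).1.two_le
    exact div_nonneg one_pos.le (by linarith)
  have hes2' : 0 ≤ es (fun p => (om h p : ℝ) / p) (Pp z q) r := by
    apply es_nonneg
    intro p hp
    positivity
  have hprod0 : 0 ≤ ∏ p ∈ P, (1 + 1 / ((p : ℝ) - 1)) := by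
    apply prod_nonneg
    intro p hp
    rw [hP, Pm, mem_filter, PZ_mem] at hp
    have hp2 : (2 : ℝ) ≤ p := by exact_mod_cast hp.1.1.two_le
    have : 0 ≤ 1 / ((p : ℝ) - 1) := div_nonneg one_pos.le (by linarith)
    linarith
  -- term 1
  have t1 : 5 * L * ∑ k ∈ Icc 1 (q * D * z ^ r), M k ≤ X / (4 * L ^ U) := by
    calc 5 * L * ∑ k ∈ Icc 1 (q * D * z ^ r), M k ≤ 5 * L * (X / L ^ (U + 2)) :=
          mul_le_mul_of_nonneg_left hM2 (by positivity)
      _ = (X / (4 * L ^ U)) * (20 / L) := by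
          field_simp
          ring
      _ ≤ (X / (4 * L ^ U)) * 1 := by
          apply mul_le_mul_of_nonneg_left _ (by positivity)
          rw [div_le_one hL0]
          exact e4
      _ = _ := mul_one _
  -- term 2
  have t2 : 5 * L * (2 * X * es (fun p => 1 / ((p : ℝ) - 1)) (Pq z q h) r *
      ∏ p ∈ P, (1 + 1 / ((p : ℝ) - 1))) ≤ X / (4 * L ^ U) := by
    calc 5 * L * (2 * X * es (fun p => 1 / ((p : ℝ) - 1)) (Pq z q h) r *
        ∏ p ∈ P, (1 + 1 / ((p : ℝ) - 1))) ≤ 5 * L * (2 * X * (1 / L ^ (U + 4)) * (C0 * L)) := by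
          apply mul_le_mul_of_nonneg_left _ (by positivity)
          apply mul_le_mul _ hprod hprod0 (by positivity)
          exact mul_le_mul_of_nonneg_left hes1 (by positivity)
      _ = (X / (4 * L ^ U)) * ((40 * C0) / L ^ 2) := by
          field_simp
          ring
      _ ≤ (X / (4 * L ^ U)) * 1 := by
          apply mul_le_mul_of_nonneg_left _ (by positivity)
          rw [div_le_one (by positivity)]
          nlinarith
      _ = _ := mul_one _
  -- term 3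
  have t3 : 5 * L * (D * (z * ((Nat.log 2 X + 1 : ℝ) * Real.log X))) ≤ X / (4 * L ^ U) := by
    have hlog2 : (Nat.log 2 X : ℝ) + 1 ≤ 3 * L := by
      have h1 : (Nat.log 2 X : ℝ) ≤ 2 * L := by
        have h2 : (2 : ℝ) ^ (Nat.log 2 X) ≤ X := by exact_mod_cast Nat.pow_log_le_self 2 (by omega)
        have h3 := Real.log_le_log (by positivity) h2
        rw [Real.log_pow] at h3
        have h4 := Real.log_two_gt_d9
        have h5 : (0 : ℝ) ≤ Nat.log 2 X := Nat.cast_nonneg _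
        nlinarith
      linarith
    have h6 : 5 * L * (D * (z * ((Nat.log 2 X + 1 : ℝ) * Real.log X))) ≤
        5 * L * ((X : ℝ) ^ (49 / 100 : ℝ) * (L ^ E * ((3 * L) * L))) := by
      apply mul_le_mul_of_nonneg_left _ (by positivity)
      apply mul_le_mul hDr _ (by positivity) (by positivity)
      apply mul_le_mul hzE _ (by positivity) (by positivity)
      exact mul_le_mul_of_nonneg_right hlog2 hL0.le
    refine h6.trans ?_
    rw [le_div_iff₀ (by positivity)]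
    calc 5 * L * ((X : ℝ) ^ (49 / 100 : ℝ) * (L ^ E * ((3 * L) * L))) * (4 * L ^ U) =
        (X : ℝ) ^ (49 / 100 : ℝ) * (60 * L ^ (E + 3 + U)) := by ring
      _ ≤ (X : ℝ) ^ (49 / 100 : ℝ) * (X : ℝ) ^ (51 / 100 : ℝ) :=
          mul_le_mul_of_nonneg_left e2 (by positivity)
      _ = X := by
          rw [← Real.rpow_add hXpos]
          norm_num
  -- term 4
  have t4 : |kap z P c| * ((((z + 1) ^ r * 2 ^ r : ℕ) : ℝ) +
      2 * X * es (fun p => (om h p : ℝ) / p) (Pp z q) r) ≤ X / (4 * L ^ U) := by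
    have h1 : (((z + 1) ^ r * 2 ^ r : ℕ) : ℝ) ≤ (X : ℝ) ^ (1 / 2 : ℝ) := by
      push_cast
      calc ((z : ℝ) + 1) ^ r * 2 ^ r ≤ ((z : ℝ) + 1) ^ r * ((z : ℝ) + 1) ^ r := by
            apply mul_le_mul_of_nonneg_left _ (by positivity)
            exact pow_le_pow_left₀ (by norm_num) (by linarith) r
        _ ≤ (X : ℝ) ^ (1 / 1000 : ℝ) * (X : ℝ) ^ (1 / 1000 : ℝ) :=
            mul_le_mul hzr hzr (by positivity) (by positivity)
        _ = (X : ℝ) ^ (2 / 1000 : ℝ) := by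
            rw [← Real.rpow_add hXpos]
            norm_num
        _ ≤ _ := Real.rpow_le_rpow_of_exponent_le (by linarith) (by norm_num)
    calc |kap z P c| * ((((z + 1) ^ r * 2 ^ r : ℕ) : ℝ) +
        2 * X * es (fun p => (om h p : ℝ) / p) (Pp z q) r) ≤
        (C0 * L ^ 3) * ((X : ℝ) ^ (1 / 2 : ℝ) + 2 * X * (1 / L ^ (U + 4))) := by
          apply mul_le_mul hk _ (by positivity) (by positivity)
          exact add_le_add h1 (mul_le_mul_of_nonneg_left hes2 (by positivity))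
      _ = (C0 * L ^ 3) * (X : ℝ) ^ (1 / 2 : ℝ) + (X / (8 * L ^ U)) * ((16 * C0) / L) := by
          field_simp
          ring
      _ ≤ X / (8 * L ^ U) + (X / (8 * L ^ U)) * 1 := by
          apply add_le_add
          · rw [le_div_iff₀ (by positivity)]
            calc C0 * L ^ 3 * (X : ℝ) ^ (1 / 2 : ℝ) * (8 * L ^ U) =
                (8 * C0 * L ^ (3 + U)) * (X : ℝ) ^ (1 / 2 : ℝ) := by ring
              _ ≤ (X : ℝ) ^ (1 / 2 : ℝ) * (X : ℝ) ^ (1 / 2 : ℝ) :=
                  mul_le_mul_of_nonneg_right e3 (by positivity)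
              _ = X := by
                  rw [← Real.rpow_add hXpos]
                  norm_num
          · apply mul_le_mul_of_nonneg_left _ (by positivity)
            rw [div_le_one hL0]
            linarith
      _ = X / (4 * L ^ U) := by
          field_simp
          ring
  have hfin : X / (4 * L ^ U) + X / (4 * L ^ U) + X / (4 * L ^ U) + X / (4 * L ^ U) = X / L ^ U := by
    field_simp
    ring
  rw [← hfin]
  exact add_le_add (add_le_add (add_le_add t1 t2) t3) t4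

end Pool.Agent.H542.TW
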