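import Pool.Agent.H542.TW.T6

/-!
The second moment over the shifts.
-/

set_option autoImplicit false

namespace Pool.Agent.H542.TW

open Finset Polynomial
open Pool.Agent.H373R2.T7 (pz)
open Pool.Agent.Y882 (VV PZ)
open Pool.Agent.TH204.WR (TT cutf)
open ArithmeticFunction (vonMangoldt vonMangoldt_nonneg)

lemma sum_inj_le (S : Finset ℤ) (g : ℤ → ℕ) (N : ℕ) (hg : Set.InjOn g (S : Set ℤ))
    (hN : ∀ n ∈ S, 1 ≤ g n ∧ g n ≤ N) (F : ℕ → ℝ) (hF : ∀ k, 0 ≤ F k) :
    ∑ n ∈ S, F (g n) ≤ ∑ k ∈ Icc 1 N, F k := by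
  rw [← sum_image hg]
  apply sum_le_sum_of_subset_of_nonneg
  · intro k hk
    obtain ⟨n, hn, rfl⟩ := mem_image.1 hk
    exact mem_Icc.2 (hN n hn)
  · intro k _ _
    exact hF k

lemma two_pow_div (P : Finset ℕ) (hP : ∀ p ∈ P, p.Prime) (N : ℕ) (hN : N ≠ 0) :
    2 ^ (P.filter (fun p => p ∣ N)).card ≤ N.divisors.card := by
  classical
  rw [← card_powerset]
  apply card_le_card_of_injOn (fun T : Finset ℕ => ∏ p ∈ T, p)
  · intro T hT
    rw [mem_coe, mem_powerset] at hT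
    rw [mem_coe, Nat.mem_divisors]
    refine ⟨?_, hN⟩
    apply Finset.prod_primes_dvd
    · intro p hp
      exact (hP p (mem_filter.1 (hT hp)).1).prime
    · intro p hp
      exact (mem_filter.1 (hT hp)).2
  · apply prod_inj
    intro p hp
    exact hP p (mem_filter.1 hp).1

lemma VV_div (P : Finset ℕ) (hP : ∀ p ∈ P, p.Prime) (c : Finset ℕ → ℝ) (C : ℝ) (hC0 : 0 ≤ C)
    (hC : ∀ T, |c T| ≤ C) (n : ℤ) (hn : n ≠ 0) :
    |VV P c (fun p => if (p : ℤ) ∣ n then 1 else 0)| ≤ C * (n.natAbs.divisors.card : ℝ) := by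
  classical
  refine (VV_le P c _ C hC (fun p _ => by split_ifs <;> norm_num)).trans ?_
  apply mul_le_mul_of_nonneg_left _ hC0
  have h1 : ∏ p ∈ P, ((1 : ℝ) + if (p : ℤ) ∣ n then 1 else 0) =
      ((2 ^ (P.filter (fun p => p ∣ n.natAbs)).card : ℕ) : ℝ) := by
    push_cast
    rw [← prod_const, prod_filter]
    apply prod_congr rfl
    intro p _
    by_cases h : (p : ℤ) ∣ n
    · rw [if_pos h, if_pos (Int.natCast_dvd.1 h)]
      norm_num
    · rw [if_neg h, if_neg (fun h2 => h (Int.natCast_dvd.2 h2))]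
      norm_num
  rw [h1]
  exact_mod_cast two_pow_div P hP n.natAbs (by simpa using hn)

/-- the second moment of the function -/
theorem l2 (C0 : ℝ) (h : ℤ) : ∃ X0 : ℕ, ∀ X : ℕ, X0 ≤ X → ∀ (z : ℕ) (P : Finset ℕ)
    (c : Finset ℕ → ℝ), 3 ≤ z → (∀ p ∈ P, p.Prime) → (∀ T, |c T| ≤ 5 * Real.log X) →
    |kap z P c| ≤ C0 * (Real.log X) ^ 3 →
    ∑ n ∈ Icc (1 : ℤ) X, (FF z h P c n - kap z P c * GG z h n) ^ 2 ≤ X * Real.log X ^ 9 := by
  have hev : ∀ᶠ X : ℕ in Filter.atTop, 3200 + 2 * C0 ^ 2 ≤ Real.log X ∧ h.natAbs ≤ X ∧ 3 ≤ X := by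
    filter_upwards [log_big (3200 + 2 * C0 ^ 2), Filter.eventually_ge_atTop h.natAbs,
      Filter.eventually_ge_atTop 3] with X h1 h2 h3
    exact ⟨h1, h2, h3⟩
  obtain ⟨X0, hX0⟩ := Filter.eventually_atTop.1 hev
  refine ⟨X0, fun X hX z P c hz hP hc hk => ?_⟩
  obtain ⟨e1, e2, e3⟩ := hX0 X hX
  set L := Real.log X with hL
  have hX3 : (3 : ℝ) ≤ X := by exact_mod_cast e3
  have hL1 : 3200 ≤ L := by nlinarith [sq_nonneg C0]
  have hL0 : 0 < L := by linarith
  classical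
  set τ : ℤ → ℝ := fun n => ((n.natAbs.divisors.card : ℕ) : ℝ) with hτ
  have hpt : ∀ n ∈ Icc (1 : ℤ) X, (FF z h P c n - kap z P c * GG z h n) ^ 2 ≤
      50 * L ^ 4 * τ (n + h) ^ 2 + 2 * (C0 * L ^ 3) ^ 2 := by
    intro n hn
    rw [mem_Icc] at hn
    have h1 : (FF z h P c n - kap z P c * GG z h n) ^ 2 ≤
        2 * (FF z h P c n) ^ 2 + 2 * (kap z P c * GG z h n) ^ 2 := by
      nlinarith [sq_nonneg (FF z h P c n + kap z P c * GG z h n)]
    have h2 : (kap z P c * GG z h n) ^ 2 ≤ (C0 * L ^ 3) ^ 2 := by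
      rw [← sq_abs]
      apply pow_le_pow_left₀ (abs_nonneg _)
      rw [abs_mul]
      have h3 : |GG z h n| ≤ 1 := by
        unfold GG
        split_ifs <;> norm_num
      calc |kap z P c| * |GG z h n| ≤ |kap z P c| * 1 :=
            mul_le_mul_of_nonneg_left h3 (abs_nonneg _)
        _ ≤ _ := by rw [mul_one]; exact hk
    have h4 : (FF z h P c n) ^ 2 ≤ 25 * L ^ 4 * τ (n + h) ^ 2 := by
      unfold FF
      split_ifs with hR
      · have hn0 : n + h ≠ 0 := by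
          intro h0
          have h5 := (hR 2 (mem_pz.2 ⟨Nat.prime_two, by omega⟩)).2
          rw [h0] at h5
          exact h5 (dvd_zero _)
        have h5 := VV_div P hP c (5 * L) (by positivity) hc (n + h) hn0
        have h6 : |vonMangoldt n.toNat| ≤ L := by
          rw [abs_of_nonneg vonMangoldt_nonneg]
          refine (ArithmeticFunction.vonMangoldt_le_log).trans ?_
          have h7 : n.toNat ≤ X := by omega
          have h8 : 1 ≤ n.toNat := by omega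
          exact Real.log_le_log (by exact_mod_cast h8) (by exact_mod_cast h7)
        have h9 : |vonMangoldt n.toNat * VV P c (fun p => if (p : ℤ) ∣ n + h then 1 else 0)| ≤
            L * (5 * L * τ (n + h)) := by
          rw [abs_mul]
          exact mul_le_mul h6 h5 (abs_nonneg _) hL0.le
        rw [← sq_abs]
        calc _ ≤ (L * (5 * L * τ (n + h))) ^ 2 := pow_le_pow_left₀ (abs_nonneg _) h9 2
          _ = _ := by ring
      · rw [zero_pow (by norm_num)]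
        positivity
    linarith
  refine (sum_le_sum hpt).trans ?_
  rw [sum_add_distrib, ← mul_sum, sum_const, Int.card_Icc, nsmul_eq_mul]
  have hcard : ((((X : ℤ) + 1 - 1).toNat : ℕ) : ℝ) = X := by
    rw [add_sub_cancel_right, Int.toNat_natCast]
  rw [hcard]
  -- the divisor sum
  have hdiv : ∑ n ∈ Icc (1 : ℤ) X, τ (n + h) ^ 2 ≤ 64 * X * L ^ 4 := by
    set F : ℕ → ℝ := fun k => ((k.divisors.card : ℕ) : ℝ) ^ 2 with hF
    have hF0 : ∀ k, 0 ≤ F k := fun k => sq_nonneg _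
    have h1 : ∑ n ∈ Icc (1 : ℤ) X, τ (n + h) ^ 2 =
        ∑ n ∈ (Icc (1 : ℤ) X).filter (fun n => 0 < n + h), F (n + h).natAbs +
        ∑ n ∈ (Icc (1 : ℤ) X).filter (fun n => ¬ 0 < n + h), F (n + h).natAbs := by
      rw [sum_filter_add_sum_filter_not]
    have h2 : ∑ n ∈ (Icc (1 : ℤ) X).filter (fun n => 0 < n + h), F (n + h).natAbs ≤
        ∑ k ∈ Icc 1 (2 * X), F k := by
      apply sum_inj_le _ (fun n => (n + h).natAbs) _ _ _ F hF0
      · intro a ha b hb hab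
        rw [mem_coe, mem_filter] at ha hb
        simp only at hab
        omega
      · intro n hn
        rw [mem_filter, mem_Icc] at hn
        constructor <;> omega
    have h3 : ∑ n ∈ (Icc (1 : ℤ) X).filter (fun n => ¬ 0 < n + h), F (n + h).natAbs ≤
        ∑ k ∈ Icc 1 (2 * X), F k := by
      have h4 : ∑ n ∈ (Icc (1 : ℤ) X).filter (fun n => ¬ 0 < n + h), F (n + h).natAbs =
          ∑ n ∈ (Icc (1 : ℤ) X).filter (fun n => n + h < 0), F (n + h).natAbs := by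
        symm
        apply sum_subset
        · intro n hn
          rw [mem_filter] at hn ⊢
          exact ⟨hn.1, by omega⟩
        · intro n hn hn2
          rw [mem_filter] at hn hn2
          have : n + h = 0 := by
            by_contra h0
            exact hn2 ⟨hn.1, by omega⟩
          rw [this]
          simp [hF]
      rw [h4]
      apply sum_inj_le _ (fun n => (n + h).natAbs) _ _ _ F hF0
      · intro a ha b hb hab
        rw [mem_coe, mem_filter] at ha hb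
        simp only at hab
        omega
      · intro n hn
        rw [mem_filter, mem_Icc] at hn
        constructor <;> omega
    have h5 := Pool.Agent.TH892.SW.div_sq (2 * X)
    have h6 : 1 + Real.log ((2 * X : ℕ) : ℝ) ≤ 2 * L := by
      push_cast
      rw [Real.log_mul (by norm_num) (by linarith)]
      have := Real.log_two_lt_d9
      linarith
    have h7 : 0 ≤ 1 + Real.log ((2 * X : ℕ) : ℝ) := by
      have : 0 ≤ Real.log ((2 * X : ℕ) : ℝ) := Real.log_natCast_nonneg _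
      linarith
    have h8 : ∑ k ∈ Icc 1 (2 * X), F k ≤ 32 * X * L ^ 4 := by
      calc ∑ k ∈ Icc 1 (2 * X), F k ≤ ((2 * X : ℕ) : ℝ) * (1 + Real.log ((2 * X : ℕ) : ℝ)) ^ 4 := h5
        _ ≤ ((2 * X : ℕ) : ℝ) * (2 * L) ^ 4 :=
            mul_le_mul_of_nonneg_left (pow_le_pow_left₀ h7 h6 4) (Nat.cast_nonneg _)
        _ = _ := by push_cast; ring
    rw [h1]
    linarith
  have hX0' : (0 : ℝ) < X := by linarith
  calc 50 * L ^ 4 * ∑ n ∈ Icc (1 : ℤ) X, τ (n + h) ^ 2 + X * (2 * (C0 * L ^ 3) ^ 2) ≤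
      50 * L ^ 4 * (64 * X * L ^ 4) + X * (2 * (C0 * L ^ 3) ^ 2) := by
        have := mul_le_mul_of_nonneg_left hdiv (show 0 ≤ 50 * L ^ 4 by positivity)
        linarith
    _ = X * L ^ 6 * (3200 * L ^ 2 + 2 * C0 ^ 2) := by ring
    _ ≤ X * L ^ 6 * ((3200 + 2 * C0 ^ 2) * L ^ 2) := by
        apply mul_le_mul_of_nonneg_left _ (by positivity)
        have h1 : 2 * C0 ^ 2 * 1 ≤ 2 * C0 ^ 2 * L ^ 2 := by
          apply mul_le_mul_of_nonneg_left _ (by positivity)
          nlinarith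
        linarith
    _ ≤ X * L ^ 6 * (L * L ^ 2) := by
        apply mul_le_mul_of_nonneg_left _ (by positivity)
        exact mul_le_mul_of_nonneg_right e1 (by positivity)
    _ = _ := by ring

/-- the exponent of the sifting limit -/
theorem sm (C0 : ℝ) (hC0 : 0 < C0) (f : ℤ[X]) (hd : 1 ≤ f.natDegree) (K : ℕ) (hK : 1 ≤ K)
    (h : ℤ) (hh : h ≠ 0) (U : ℕ) : ∃ E x0 : ℕ, 1 ≤ E ∧ ∀ x : ℕ, x0 ≤ x →
    ∀ c : Finset ℕ → ℝ, (∀ T, |c T| ≤ 5 * Real.log (K * x ^ f.natDegree : ℕ)) →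
    (∀ T ⊆ PZ (K * x ^ f.natDegree) (288 / 625), c T ≠ 0 →
      ((∏ p ∈ T, p : ℕ) : ℝ) ≤ ((K * x ^ f.natDegree : ℕ) : ℝ) ^ (49 / 100 : ℝ)) →
    ∀ z : ℕ, z = ⌊Real.log (K * x ^ f.natDegree : ℕ) ^ E⌋₊ →
    |kap z (Pm (K * x ^ f.natDegree) (288 / 625) z) c| ≤
      C0 * (Real.log (K * x ^ f.natDegree : ℕ)) ^ 3 →
    ∏ p ∈ Pm (K * x ^ f.natDegree) (288 / 625) z, (1 + 1 / ((p : ℝ) - 1)) ≤
      C0 * Real.log (K * x ^ f.natDegree : ℕ) →
    ∀ I : Finset ℤ,
    ∑ a ∈ I, TT (fun n => f.eval (n : ℤ)) 1 x (K * x ^ f.natDegree)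
      (fun n => FF z h (Pm (K * x ^ f.natDegree) (288 / 625) z) c n -
        kap z (Pm (K * x ^ f.natDegree) (288 / 625) z) c * GG z h n) a ^ 2 ≤
      (x : ℝ) ^ 2 * (K * x ^ f.natDegree : ℕ) / Real.log (K * x ^ f.natDegree : ℕ) ^ U := by
  obtain ⟨d, hdd⟩ : ∃ d, d = f.natDegree := ⟨_, rfl⟩
  rw [← hdd] at hd ⊢
  obtain ⟨cc, m, hcc, HT⟩ := transf d hd
  set A : ℕ := (|(d.factorial : ℤ) * f.coeff d|).toNat with hA
  have hA1 : (A : ℤ) = |(d.factorial : ℤ) * f.coeff d| := Int.toNat_of_nonneg (abs_nonneg _)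
  have hA2 : 1 ≤ A := by
    have h1 : f.coeff d ≠ 0 := by
      rw [hdd]
      have : f ≠ 0 := by
        rintro rfl
        simp at hdd
        omega
      exact leadingCoeff_ne_zero.2 this
    have h2 : (d.factorial : ℤ) * f.coeff d ≠ 0 :=
      mul_ne_zero (by exact_mod_cast (Nat.factorial_pos d).ne') h1
    have h3 : 0 < |(d.factorial : ℤ) * f.coeff d| := abs_pos.2 h2
    omega
  obtain ⟨U1, hU1⟩ : ∃ U1, U1 = U + 10 := ⟨_, rfl⟩
  obtain ⟨B', hB'⟩ : ∃ B', B' = U1 * m + 1 := ⟨_, rfl⟩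
  obtain ⟨U', hU'⟩ : ∃ U', U' = 3 * B' + U + 1 := ⟨_, rfl⟩
  obtain ⟨E, hE⟩ : ∃ E, E = B' + 1 := ⟨_, rfl⟩
  obtain ⟨X1, H1⟩ := disc2 C0 hC0 E U' B' h hh
  obtain ⟨X2, H2⟩ := l2 C0 h
  have hev : ∀ᶠ X : ℕ in Filter.atTop, ((A * cc : ℕ) : ℝ) ≤ Real.log X ∧
      8192 * (K : ℝ) ^ 2 * (1 + A) ≤ Real.log X ∧ (4 + h.natAbs : ℝ) ≤ Real.log X ∧
      (16 * K) * Real.log X ^ B' ≤ (X : ℝ) ^ (1 : ℝ) ∧ X1 ≤ X ∧ X2 ≤ X ∧ 3 ≤ X := by
    filter_upwards [log_big ((A * cc : ℕ) : ℝ), log_big (8192 * (K : ℝ) ^ 2 * (1 + A)),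
      log_big (4 + h.natAbs : ℝ), log_X_pow B' 1 one_pos (16 * K),
      Filter.eventually_ge_atTop X1, Filter.eventually_ge_atTop X2,
      Filter.eventually_ge_atTop 3] with X h1 h2 h3 h4 h5 h6 h7
    exact ⟨h1, h2, h3, h4, h5, h6, h7⟩
  obtain ⟨X0, hX0⟩ := Filter.eventually_atTop.1 hev
  refine ⟨E, max X0 1, by omega, fun x hx c hc hcD z hz hk hprod I => ?_⟩
  have hx0 : X0 ≤ x := (le_max_left _ _).trans hx
  have hx1 : 1 ≤ x := (le_max_right _ _).trans hx
  obtain ⟨X, hX⟩ : ∃ X, X = K * x ^ d := ⟨_, rfl⟩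
  rw [← hX] at hc hcD hz hk hprod ⊢
  have hxX : x ≤ X := by
    rw [hX]
    calc x = 1 * x ^ 1 := by ring
      _ ≤ K * x ^ d := Nat.mul_le_mul hK (Nat.pow_le_pow_right hx1 hd)
  obtain ⟨e1, e2, e3, e4, e5, e6, e7⟩ := hX0 X (hx0.trans hxX)
  rw [Real.rpow_one] at e4
  have hX3 : (3 : ℝ) ≤ X := by exact_mod_cast e7
  have hXpos : (0 : ℝ) < X := by linarith
  have hna : (0 : ℝ) ≤ h.natAbs := Nat.cast_nonneg _
  have hL4 : 4 ≤ Real.log X := by linarith
  obtain ⟨L, hL⟩ : ∃ L, L = Real.log X := ⟨_, rfl⟩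
  rw [← hL] at hc hk hprod hz e1 e2 e3 e4 hL4 ⊢
  have hL0 : 0 < L := by linarith
  have hL1 : 1 ≤ L := by linarith
  have hzr : (z : ℝ) ≤ L ^ E := by
    rw [hz]
    exact Nat.floor_le (by positivity)
  have hzlow : L ^ B' ≤ z := by
    have h1 : L ^ E < z + 1 := by
      rw [hz]
      exact Nat.lt_floor_add_one _
    have h2 : L ^ E = L * L ^ B' := by rw [hE]; ring
    have h3 : 1 ≤ L ^ B' := one_le_pow₀ hL1
    rw [h2] at h1
    nlinarith
  have hLB : L ≤ L ^ B' := by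
    calc L = L ^ 1 := (pow_one _).symm
      _ ≤ L ^ B' := pow_le_pow_right₀ hL1 (by omega)
  have hz3 : 3 ≤ z := by
    have : (3 : ℝ) ≤ z := by linarith
    exact_mod_cast this
  have hzh : h.natAbs ≤ z := by
    have : (h.natAbs : ℝ) ≤ z := by linarith
    exact_mod_cast this
  -- parameters
  have hK0 : (0 : ℝ) < K := by exact_mod_cast hK
  have hK1 : (1 : ℝ) ≤ K := by exact_mod_cast hK
  have hxd : (X : ℝ) = K * (x : ℝ) ^ d := by rw [hX]; push_cast; ring
  have hxr : (1 : ℝ) ≤ x := by exact_mod_cast hx1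
  set V : ℝ := cc * (L ^ U1) ^ m with hV
  have hcc1 : (1 : ℝ) ≤ cc := by exact_mod_cast hcc
  have hA1r : (1 : ℝ) ≤ A := by exact_mod_cast hA2
  have hV1 : 1 ≤ V := by
    rw [hV]
    have : 1 ≤ (L ^ U1) ^ m := one_le_pow₀ (one_le_pow₀ hL1)
    nlinarith
  have hAV : A * V ≤ L ^ B' := by
    rw [hV, hB', pow_succ, pow_mul]
    push_cast at e1
    calc (A : ℝ) * (cc * (L ^ U1) ^ m) = (L ^ U1) ^ m * (A * cc) := by ring
      _ ≤ (L ^ U1) ^ m * L := mul_le_mul_of_nonneg_left e1 (by positivity)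
  have hVB : V ≤ L ^ B' := by nlinarith
  set y : ℝ := (x : ℝ) ^ d / (8 * V) with hy
  have hy2 : 2 ≤ y := by
    rw [hy, le_div_iff₀ (by positivity)]
    have h1 : 16 * K * L ^ B' ≤ K * (x : ℝ) ^ d := by rw [← hxd]; exact e4
    have h2 : 16 * L ^ B' ≤ (x : ℝ) ^ d := by
      have h3 : K * (16 * L ^ B') ≤ K * (x : ℝ) ^ d := by linarith
      exact le_of_mul_le_mul_left h3 hK0
    linarith
  set J : ℕ := ⌊y⌋₊ with hJ
  have hJle : (J : ℝ) ≤ y := Nat.floor_le (by linarith)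
  have hJge : y / 2 ≤ J := by
    have h1 : y < J + 1 := Nat.lt_floor_add_one y
    linarith
  have hJ1 : 1 ≤ J := by
    have : (1 : ℝ) ≤ J := by linarith
    exact_mod_cast this
  have hJpos : (0 : ℝ) < J := by exact_mod_cast hJ1
  have hyV : y * (8 * V) = (x : ℝ) ^ d := by
    rw [hy]
    field_simp
  set e : ℤ → ℝ := fun n => FF z h (Pm X (288 / 625) z) c n - kap z (Pm X (288 / 625) z) c * GG z h n
    with he
  have hPp : ∀ p ∈ Pm X (288 / 625) z, p.Prime := by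
    intro p hp
    rw [Pm, mem_filter, PZ_mem] at hp
    exact hp.1.1
  have hQ := H2 X e6 z (Pm X (288 / 625) z) c hz3 hPp (by rw [← hL]; exact hc) (by rw [← hL]; exact hk)
  rw [← hL] at hQ
  have hmain := HT f A hdd.symm.le hA1 hA2 x X J e (X * L ^ 9) (X / L ^ U') (L ^ U1) I hx1 hJ1
    (one_le_pow₀ hL1)
    (by
      calc 8 * (J : ℝ) * (cc * (L ^ U1) ^ m) = J * (8 * V) := by rw [hV]; ring
        _ ≤ y * (8 * V) := mul_le_mul_of_nonneg_right hJle (by positivity)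
        _ = _ := hyV) hQ
    (by
      intro q hq hq2 b t ht
      have hqB : (q : ℝ) ≤ L ^ B' := hq2.trans hAV
      have h1 := H1 X e5 c (by rw [← hL]; exact hc) hcD z hz3 hzh (by rw [← hL]; exact hzr)
        (by rw [← hL]; exact hk) (by rw [← hL]; exact hprod) q hq (by rw [← hL]; exact hqB)
        (by
          intro p hp hpq
          have h2 := Nat.le_of_dvd (by omega) hpq
          have h3 : (q : ℝ) ≤ z := hqB.trans hzlow
          have h4 : q ≤ z := by exact_mod_cast h3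
          omega) b t ht
      rw [← hL] at h1
      exact h1)
  refine hmain.trans ?_
  -- the first term
  have t1 : (x : ℝ) ^ 2 / L ^ U1 * (X * L ^ 9) ≤ (x : ℝ) ^ 2 * X / (2 * L ^ U) := by
    calc (x : ℝ) ^ 2 / L ^ U1 * (X * L ^ 9) = (x : ℝ) ^ 2 * X / (2 * L ^ U) * (2 / L) := by
          rw [hU1]
          field_simp
          ring
      _ ≤ (x : ℝ) ^ 2 * X / (2 * L ^ U) * 1 := by
          apply mul_le_mul_of_nonneg_left _ (by positivity)
          rw [div_le_one hL0]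
          linarith
      _ = _ := mul_one _
  -- the second term
  have t2 : (x : ℝ) ^ 2 * ((cc * (L ^ U1) ^ m) * (4 / (J : ℝ) ^ 2 *
      (((X : ℝ) + A * (cc * (L ^ U1) ^ m) * J) * (2 * (X / L ^ U')) ^ 2))) ≤
      (x : ℝ) ^ 2 * X / (2 * L ^ U) := by
    rw [← hV]
    have h1 : (X : ℝ) + A * V * J ≤ X * (1 + A) := by
      have h2 : V * J ≤ (x : ℝ) ^ d := by
        calc V * J ≤ V * y := mul_le_mul_of_nonneg_left hJle (by positivity)
          _ ≤ y * (8 * V) := by nlinarith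
          _ = _ := hyV
      have h3 : (x : ℝ) ^ d ≤ X := by
        rw [hxd]
        have : 0 ≤ (x : ℝ) ^ d := by positivity
        nlinarith
      have h4 : A * (V * J) ≤ A * (X : ℝ) := mul_le_mul_of_nonneg_left (h2.trans h3) (by positivity)
      linarith
    have h2 : 4 / (J : ℝ) ^ 2 ≤ 1024 * V ^ 2 / ((x : ℝ) ^ d) ^ 2 := by
      have h3 : (x : ℝ) ^ d / (16 * V) ≤ J := by
        have : (x : ℝ) ^ d / (16 * V) = y / 2 := by
          rw [hy]
          field_simp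
          ring
        rw [this]
        exact hJge
      have h4 : ((x : ℝ) ^ d / (16 * V)) ^ 2 ≤ (J : ℝ) ^ 2 := pow_le_pow_left₀ (by positivity) h3 2
      calc 4 / (J : ℝ) ^ 2 ≤ 4 / ((x : ℝ) ^ d / (16 * V)) ^ 2 :=
            div_le_div_of_nonneg_left (by norm_num) (by positivity) h4
        _ = _ := by
            field_simp
            ring
    have h5 : V ^ 3 ≤ (L ^ B') ^ 3 := pow_le_pow_left₀ (by linarith) hVB 3
    have hxd0 : (0 : ℝ) < (x : ℝ) ^ d := by positivity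
    calc (x : ℝ) ^ 2 * (V * (4 / (J : ℝ) ^ 2 * (((X : ℝ) + A * V * J) * (2 * (X / L ^ U')) ^ 2))) ≤
        (x : ℝ) ^ 2 * (V * (1024 * V ^ 2 / ((x : ℝ) ^ d) ^ 2 *
          ((X * (1 + A)) * (2 * (X / L ^ U')) ^ 2))) := by
          apply mul_le_mul_of_nonneg_left _ (by positivity)
          apply mul_le_mul_of_nonneg_left _ (by positivity)
          apply mul_le_mul h2 _ (by positivity) (by positivity)
          exact mul_le_mul_of_nonneg_right h1 (by positivity)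
      _ = (x : ℝ) ^ 2 * X * (4096 * (K : ℝ) ^ 2 * (1 + A)) * V ^ 3 / (L ^ U') ^ 2 := by
          rw [hxd]
          field_simp
          ring
      _ ≤ (x : ℝ) ^ 2 * X * (4096 * (K : ℝ) ^ 2 * (1 + A)) * (L ^ B') ^ 3 / (L ^ U') ^ 2 := by
          apply div_le_div_of_nonneg_right _ (by positivity)
          exact mul_le_mul_of_nonneg_left h5 (by positivity)
      _ = (x : ℝ) ^ 2 * X / (2 * L ^ U) * ((8192 * (K : ℝ) ^ 2 * (1 + A)) / (L * L ^ U')) := by
          have h6 : (L ^ U') ^ 2 = L ^ U' * ((L ^ B') ^ 3 * L ^ U * L) := by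
            rw [hU']
            ring
          rw [h6]
          field_simp
          ring
      _ ≤ (x : ℝ) ^ 2 * X / (2 * L ^ U) * 1 := by
          apply mul_le_mul_of_nonneg_left _ (by positivity)
          rw [div_le_one (by positivity)]
          have h7 : 1 ≤ L ^ U' := one_le_pow₀ hL1
          nlinarith
      _ = _ := mul_one _
  calc _ ≤ (x : ℝ) ^ 2 * X / (2 * L ^ U) + (x : ℝ) ^ 2 * X / (2 * L ^ U) := add_le_add t1 t2
    _ = (x : ℝ) ^ 2 * X / L ^ U := by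
        field_simp
        ring

end Pool.Agent.H542.TW
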