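import Pool.Agent.H542.TW.T7
import Pool.Graph.R_seed8.TH204.WR.W7

/-!
Local factors and bad integers.
-/

set_option autoImplicit false

namespace Pool.Agent.H542.TW

open Finset Polynomial
open Pool.Agent.H373R2.T7 (pz)
open Pool.Agent.TH204.WR (rho rho_card)
open Pool.Agent.W23.DC (tt pr)

lemma rho_le_lc (F : ℤ[X]) (t : ℤ) (p : ℕ) (hp : p.Prime) (hd : 1 ≤ F.natDegree)
    (hlc : ¬ (p : ℤ) ∣ F.leadingCoeff) : rho F t p ≤ F.natDegree := by
  have : Fact p.Prime := ⟨hp⟩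
  set Fp : (ZMod p)[X] := F.map (Int.castRingHom (ZMod p)) + C (t : ZMod p) with hFp
  have hz : univ.filter (fun x : ZMod p => (F.map (Int.castRingHom (ZMod p))).eval x + (t : ZMod p) = 0) =
      univ.filter (fun x : ZMod p => Fp.eval x = 0) := by
    apply filter_congr
    intro x _
    rw [hFp, eval_add, eval_C]
  have hne : Fp ≠ 0 := by
    intro h0
    have h1 : Fp.coeff F.natDegree = ((F.leadingCoeff : ℤ) : ZMod p) := by
      rw [hFp, coeff_add, coeff_map, coeff_C_of_ne_zero (by omega), add_zero]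
      rfl
    rw [h0, coeff_zero] at h1
    exact hlc ((ZMod.intCast_zmod_eq_zero_iff_dvd _ p).1 h1.symm)
  rw [rho_card F t p, hz]
  have h1 : #(univ.filter (fun x : ZMod p => Fp.eval x = 0)) ≤ #Fp.roots.toFinset := by
    apply card_le_card
    intro x hx
    rw [mem_filter] at hx
    rw [Multiset.mem_toFinset, mem_roots hne]
    exact hx.2
  refine h1.trans ((Multiset.toFinset_card_le _).trans ((card_roots' _).trans ?_))
  rw [hFp]
  refine (natDegree_add_C).le.trans ?_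
  exact natDegree_map_le

lemma fac_low (k p ω : ℕ) (hk : 1 ≤ k) (hp : k < p) (hω : ω ≤ k) :
    Real.exp (-((k : ℝ) * (1 / p) + (k : ℝ) ^ 3 * (1 / ((p : ℝ) * ((p : ℝ) - 1))))) ≤
      1 - (ω : ℝ) / p := by
  have hk1 : (1 : ℝ) ≤ k := by exact_mod_cast hk
  have hpk : (k : ℝ) + 1 ≤ p := by exact_mod_cast hp
  have hωk : (ω : ℝ) ≤ k := by exact_mod_cast hω
  have hp0 : (0 : ℝ) < p := by linarith
  have hpk0 : (0 : ℝ) < p - k := by linarith
  have h1 : 1 - (k : ℝ) / p ≤ 1 - (ω : ℝ) / p := by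
    have := div_le_div_of_nonneg_right hωk hp0.le
    linarith
  refine le_trans ?_ h1
  have h2 : (k : ℝ) / (p - k) ≤ (k : ℝ) * (1 / p) + (k : ℝ) ^ 3 * (1 / ((p : ℝ) * ((p : ℝ) - 1))) := by
    have e : (k : ℝ) * (1 / p) + (k : ℝ) ^ 3 * (1 / ((p : ℝ) * ((p : ℝ) - 1))) - (k : ℝ) / (p - k) =
        (k : ℝ) ^ 2 * (k * (p - k) - (p - 1)) / (p * (p - 1) * (p - k)) := by
      have e1 : (p : ℝ) - 1 ≠ 0 := by linarith
      have e2 : (p : ℝ) - k ≠ 0 := by linarith
      field_simp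
      ring
    have h3 : 0 ≤ (k : ℝ) ^ 2 * (k * (p - k) - (p - 1)) / (p * (p - 1) * (p - k)) := by
      apply div_nonneg
      · apply mul_nonneg (by positivity)
        nlinarith
      · apply mul_nonneg (mul_nonneg hp0.le (by linarith)) hpk0.le
    linarith
  have h4 : (p : ℝ) / (p - k) ≤ Real.exp ((k : ℝ) / (p - k)) := by
    have h5 := Real.add_one_le_exp ((k : ℝ) / (p - k))
    have h6 : (p : ℝ) / (p - k) = (k : ℝ) / (p - k) + 1 := by
      field_simp
      ring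
    rw [h6]
    exact h5
  calc Real.exp (-((k : ℝ) * (1 / p) + (k : ℝ) ^ 3 * (1 / ((p : ℝ) * ((p : ℝ) - 1))))) ≤
      Real.exp (-((k : ℝ) / (p - k))) := Real.exp_le_exp.2 (by linarith)
    _ = (Real.exp ((k : ℝ) / (p - k)))⁻¹ := Real.exp_neg _
    _ ≤ ((p : ℝ) / (p - k))⁻¹ := inv_anti₀ (div_pos hp0 hpk0) h4
    _ = 1 - (k : ℝ) / p := by
        rw [inv_div]
        field_simp

lemma set_low (k : ℕ) (hk : 1 ≤ k) (S : Finset ℕ) (hS : ∀ p ∈ S, k < p) (ω : ℕ → ℕ)
    (hω : ∀ p ∈ S, ω p ≤ k) :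
    Real.exp (-((k : ℝ) * ∑ p ∈ S, 1 / (p : ℝ) + (k : ℝ) ^ 3)) ≤ ∏ p ∈ S, (1 - (ω p : ℝ) / p) := by
  calc Real.exp (-((k : ℝ) * ∑ p ∈ S, 1 / (p : ℝ) + (k : ℝ) ^ 3)) ≤
      Real.exp (-(∑ p ∈ S, ((k : ℝ) * (1 / p) + (k : ℝ) ^ 3 * (1 / ((p : ℝ) * ((p : ℝ) - 1)))))) := by
        apply Real.exp_le_exp.2
        rw [sum_add_distrib, ← mul_sum, ← mul_sum]
        have h1 := sum_tel S (fun p hp => by have := hS p hp; omega)
        have h2 : (k : ℝ) ^ 3 * ∑ p ∈ S, 1 / ((p : ℝ) * ((p : ℝ) - 1)) ≤ (k : ℝ) ^ 3 * 1 :=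
          mul_le_mul_of_nonneg_left h1 (by positivity)
        linarith
    _ = ∏ p ∈ S, Real.exp (-((k : ℝ) * (1 / p) + (k : ℝ) ^ 3 * (1 / ((p : ℝ) * ((p : ℝ) - 1))))) := by
        rw [← Real.exp_sum, sum_neg_distrib]
    _ ≤ _ := by
        apply Finset.prod_le_prod (fun p _ => (Real.exp_pos _).le)
        intro p hp
        exact fac_low k p (ω p) hk (hS p hp) (hω p hp)

/-- lower bound for the whole product -/
theorem prod_low (k : ℕ) (hk : 1 ≤ k) : ∃ c : ℝ, 0 < c ∧ ∀ z : ℕ, 3 ≤ z → ∀ ω : ℕ → ℕ,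
    (∀ p ∈ pz z, ω p ≤ k ∧ ω p < p) →
    c / Real.log z ^ k ≤ ∏ p ∈ pz z, (1 - (ω p : ℝ) / p) := by
  obtain ⟨C, hC⟩ := Pool.Agent.Erdos456.Mert.mertens_inv
  refine ⟨(1 / (k : ℝ)) ^ k * Real.exp (-(k * C + (k : ℝ) ^ 3)), by positivity, fun z hz ω hω => ?_⟩
  have hz3 : (3 : ℝ) ≤ z := by exact_mod_cast hz
  have hlz : 0 < Real.log z := Real.log_pos (by linarith)
  have hk1 : (1 : ℝ) ≤ k := by exact_mod_cast hk
  have h1 : ∏ p ∈ pz z, (1 - (ω p : ℝ) / p) =
      (∏ p ∈ (pz z).filter (fun p => p ≤ k), (1 - (ω p : ℝ) / p)) *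
      ∏ p ∈ (pz z).filter (fun p => ¬ p ≤ k), (1 - (ω p : ℝ) / p) := by
    rw [prod_filter_mul_prod_filter_not]
  have h2 : (1 / (k : ℝ)) ^ k ≤ ∏ p ∈ (pz z).filter (fun p => p ≤ k), (1 - (ω p : ℝ) / p) := by
    have hone : (1 / (k : ℝ)) ≤ 1 := by rw [div_le_one (by linarith)]; exact hk1
    calc (1 / (k : ℝ)) ^ k ≤ (1 / (k : ℝ)) ^ ((pz z).filter (fun p => p ≤ k)).card := by
          apply pow_le_pow_of_le_one (by positivity) hone
          calc ((pz z).filter (fun p => p ≤ k)).card ≤ (Icc 1 k).card := by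
                apply card_le_card
                intro p hp
                rw [mem_filter, mem_pz] at hp
                rw [mem_Icc]
                exact ⟨hp.1.1.one_le, hp.2⟩
            _ = k := by simp
      _ = ∏ p ∈ (pz z).filter (fun p => p ≤ k), (1 / (k : ℝ)) := by rw [prod_const]
      _ ≤ _ := by
          apply Finset.prod_le_prod (fun p _ => by positivity)
          intro p hp
          rw [mem_filter] at hp
          have h3 := hω p hp.1
          have hp0 : 0 < p := (mem_pz.1 hp.1).1.pos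
          have hp0r : (0 : ℝ) < p := by exact_mod_cast hp0
          have h4 : (p : ℝ) ≤ k := by exact_mod_cast hp.2
          have h5 : (ω p : ℝ) + 1 ≤ p := by exact_mod_cast h3.2
          calc 1 / (k : ℝ) ≤ 1 / p := one_div_le_one_div_of_le hp0r h4
            _ ≤ 1 - (ω p : ℝ) / p := by
                rw [le_sub_iff_add_le, ← add_div, div_le_one hp0r]
                linarith
  have h3 : Real.exp (-(k * C + (k : ℝ) ^ 3)) / Real.log z ^ k ≤
      ∏ p ∈ (pz z).filter (fun p => ¬ p ≤ k), (1 - (ω p : ℝ) / p) := by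
    have h4 := set_low k hk ((pz z).filter (fun p => ¬ p ≤ k))
      (fun p hp => by rw [mem_filter] at hp; omega) ω (fun p hp => (hω p (mem_filter.1 hp).1).1)
    refine le_trans ?_ h4
    have h5 : ∑ p ∈ (pz z).filter (fun p => ¬ p ≤ k), 1 / (p : ℝ) ≤ Real.log (Real.log z) + C := by
      have h6 : ∑ p ∈ (pz z).filter (fun p => ¬ p ≤ k), 1 / (p : ℝ) ≤ ∑ p ∈ pz z, 1 / (p : ℝ) :=
        sum_le_sum_of_subset_of_nonneg (filter_subset _ _) (fun _ _ _ => by positivity)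
      have h7 := (abs_le.1 (hC z hz)).2
      unfold pz at h6 ⊢
      linarith
    calc Real.exp (-(k * C + (k : ℝ) ^ 3)) / Real.log z ^ k =
        Real.exp (-((k : ℝ) * (Real.log (Real.log z) + C) + (k : ℝ) ^ 3)) := by
          rw [show -((k : ℝ) * (Real.log (Real.log z) + C) + (k : ℝ) ^ 3) =
            -(k * C + (k : ℝ) ^ 3) - k * Real.log (Real.log z) by ring, Real.exp_sub]
          congr 1
          rw [mul_comm, Real.exp_mul, Real.exp_log hlz, Real.rpow_natCast]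
      _ ≤ _ := by
          apply Real.exp_le_exp.2
          have := mul_le_mul_of_nonneg_left h5 (show (0 : ℝ) ≤ k by linarith)
          linarith
  rw [h1, mul_div_assoc]
  exact mul_le_mul h2 h3 (by positivity) (le_trans (by positivity) h2)

/-- lower bound for the product over medium primes -/
theorem mid_low (k : ℕ) (hk : 1 ≤ k) : ∃ c : ℝ, 0 < c ∧ ∀ w z : ℕ, 3 ≤ w → w ≤ z → k ≤ w →
    ∀ ω : ℕ → ℕ, (∀ p ∈ pz z, w < p → ω p ≤ k) →
    c * (Real.log w / Real.log z) ^ k ≤ ∏ p ∈ (pz z).filter (fun p => ¬ p ≤ w), (1 - (ω p : ℝ) / p) := by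
  obtain ⟨C, hC⟩ := Pool.Agent.Erdos456.Mert.mertens_inv
  refine ⟨Real.exp (-(k * (2 * C) + (k : ℝ) ^ 3)), by positivity, fun w z hw hwz hkw ω hω => ?_⟩
  have hw3 : (3 : ℝ) ≤ w := by exact_mod_cast hw
  have hz3 : (3 : ℝ) ≤ z := by exact_mod_cast hw.trans hwz
  have hlz : 0 < Real.log z := Real.log_pos (by linarith)
  have hlw : 0 < Real.log w := Real.log_pos (by linarith)
  have hk1 : (1 : ℝ) ≤ k := by exact_mod_cast hk
  have h4 := set_low k hk ((pz z).filter (fun p => ¬ p ≤ w))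
    (fun p hp => by rw [mem_filter] at hp; omega) ω
    (fun p hp => by rw [mem_filter] at hp; exact hω p hp.1 (by omega))
  refine le_trans ?_ h4
  have h5 : ∑ p ∈ (pz z).filter (fun p => ¬ p ≤ w), 1 / (p : ℝ) ≤
      Real.log (Real.log z) - Real.log (Real.log w) + 2 * C := by
    have h6 : ∑ p ∈ (pz z).filter (fun p => p ≤ w), 1 / (p : ℝ) +
        ∑ p ∈ (pz z).filter (fun p => ¬ p ≤ w), 1 / (p : ℝ) = ∑ p ∈ pz z, 1 / (p : ℝ) :=
      sum_filter_add_sum_filter_not _ _ _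
    have h7 : (pz z).filter (fun p => p ≤ w) = pz w := by
      ext p
      rw [mem_filter, mem_pz, mem_pz]
      constructor
      · rintro ⟨⟨h1, h2⟩, h3⟩; exact ⟨h1, h3⟩
      · rintro ⟨h1, h2⟩; exact ⟨⟨h1, h2.trans hwz⟩, h2⟩
    rw [h7] at h6
    have h8 := (abs_le.1 (hC z (hw.trans hwz))).2
    have h9 := (abs_le.1 (hC w hw)).1
    unfold pz at h6 ⊢
    linarith
  calc Real.exp (-(k * (2 * C) + (k : ℝ) ^ 3)) * (Real.log w / Real.log z) ^ k =
      Real.exp (-((k : ℝ) * (Real.log (Real.log z) - Real.log (Real.log w) + 2 * C) + (k : ℝ) ^ 3)) := by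
        rw [show -((k : ℝ) * (Real.log (Real.log z) - Real.log (Real.log w) + 2 * C) + (k : ℝ) ^ 3) =
          -(k * (2 * C) + (k : ℝ) ^ 3) + Real.log (Real.log w / Real.log z) * k by
            rw [Real.log_div hlw.ne' hlz.ne']; ring, Real.exp_add]
        congr 1
        rw [Real.exp_mul, Real.exp_log (by positivity), Real.rpow_natCast]
    _ ≤ _ := by
        apply Real.exp_le_exp.2
        have := mul_le_mul_of_nonneg_left h5 (show (0 : ℝ) ≤ k by linarith)
        linarith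

end Pool.Agent.H542.TW
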