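import Pool.Agent.H542.TW.T8

/-!
Bad integers.
-/

set_option autoImplicit false

namespace Pool.Agent.H542.TW

open Finset Polynomial
open Pool.Agent.H373R2.T7 (pz)
open Pool.Agent.W23.DC (tt pr)
open ArithmeticFunction (vonMangoldt vonMangoldt_nonneg)

open Classical in
/-- the bad integers: proper prime powers, squares of medium primes dividing `n + h` -/
noncomputable def Bd (X : ℕ) (h : ℤ) : Finset ℤ := (Icc (1 : ℤ) X).filter (fun n =>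
  (¬ n.toNat.Prime ∧ vonMangoldt n.toNat ≠ 0) ∨
  (∃ q ∈ pr X (3 / 25) (288 / 625), ((q : ℤ) ^ 2) ∣ n + h) ∨ n + h ≤ 1)

lemma cnt_dvd (X m : ℕ) (hm : 1 ≤ m) (h : ℤ) :
    (((Icc (1 : ℤ) X).filter (fun n => (m : ℤ) ∣ n + h)).card : ℝ) ≤ X / m + 1 := by
  have h1 : (Icc (1 : ℤ) X).filter (fun n => (m : ℤ) ∣ n + h) =
      (Ioc (0 : ℤ) X).filter (fun n => n ≡ -h [ZMOD m]) := by
    ext n
    rw [mem_filter, mem_filter, mem_Icc, mem_Ioc]
    have h2 : ((m : ℤ) ∣ n + h) ↔ n ≡ -h [ZMOD m] := by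
      rw [Int.modEq_comm, Int.modEq_iff_dvd]
      rw [sub_neg_eq_add]
    rw [h2]
    constructor
    · rintro ⟨h3, h4⟩; exact ⟨⟨by omega, h3.2⟩, h4⟩
    · rintro ⟨h3, h4⟩; exact ⟨⟨by omega, h3.2⟩, h4⟩
  rw [h1]
  have hm0 : (0 : ℤ) < m := by exact_mod_cast hm
  have h2 := Int.Ioc_filter_modEq_card (0 : ℤ) X hm0 (-h)
  have hmr : (0 : ℝ) < m := by exact_mod_cast hm
  have h3 : ((((Ioc (0 : ℤ) X).filter (fun n => n ≡ -h [ZMOD m])).card : ℤ) : ℝ) ≤ X / m + 1 := by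
    have h4 : ((⌊(((X : ℤ) : ℚ) - ((-h : ℤ) : ℚ)) / ((m : ℤ) : ℚ)⌋ : ℤ) : ℚ) ≤
        (((X : ℤ) : ℚ) - ((-h : ℤ) : ℚ)) / ((m : ℤ) : ℚ) := Int.floor_le _
    have h5 : ((((0 : ℤ) : ℚ) - ((-h : ℤ) : ℚ)) / ((m : ℤ) : ℚ)) - 1 <
        ((⌊(((0 : ℤ) : ℚ) - ((-h : ℤ) : ℚ)) / ((m : ℤ) : ℚ)⌋ : ℤ) : ℚ) := Int.sub_one_lt_floor _
    rw [h2]
    generalize ⌊(((X : ℤ) : ℚ) - ((-h : ℤ) : ℚ)) / ((m : ℤ) : ℚ)⌋ = u at h4 ⊢
    generalize ⌊(((0 : ℤ) : ℚ) - ((-h : ℤ) : ℚ)) / ((m : ℤ) : ℚ)⌋ = v at h5 ⊢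
    have h6 : ((u - v : ℤ) : ℚ) ≤ (X : ℚ) / m + 1 := by
      have h7 : (((X : ℤ) : ℚ) - ((-h : ℤ) : ℚ)) / ((m : ℤ) : ℚ) -
          ((((0 : ℤ) : ℚ) - ((-h : ℤ) : ℚ)) / ((m : ℤ) : ℚ)) = (X : ℚ) / m := by
        push_cast
        ring
      push_cast at h4 h5 h7 ⊢
      linarith
    have h8 : (((u - v : ℤ) : ℚ) : ℝ) ≤ (((X : ℚ) / m + 1 : ℚ) : ℝ) := Rat.cast_le.2 h6
    rw [Rat.cast_intCast] at h8
    have h9 : (((X : ℚ) / m + 1 : ℚ) : ℝ) = (X : ℝ) / m + 1 := by push_cast; rfl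
    rw [h9] at h8
    rcases le_total (u - v) 0 with h10 | h10
    · rw [max_eq_right h10]
      push_cast
      positivity
    · rw [max_eq_left h10]
      exact h8
  exact_mod_cast h3

lemma sum_sq_tail (S : Finset ℕ) (Q0 : ℝ) (hQ0 : 2 ≤ Q0) (hS : ∀ q ∈ S, Q0 ≤ q) :
    ∑ q ∈ S, 1 / (q : ℝ) ^ 2 ≤ 2 / Q0 := by
  obtain ⟨k, hk⟩ : ∃ k, k = ⌈Q0⌉₊ - 1 := ⟨_, rfl⟩
  have hc : Q0 ≤ ⌈Q0⌉₊ := Nat.le_ceil _
  have hc2 : 2 ≤ ⌈Q0⌉₊ := by
    have : (2 : ℝ) ≤ ⌈Q0⌉₊ := hQ0.trans hc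
    exact_mod_cast this
  have hk1 : k + 1 = ⌈Q0⌉₊ := by omega
  have hk0 : k ≠ 0 := by omega
  have hkr : Q0 / 2 ≤ k := by
    have h1 : ((k + 1 : ℕ) : ℝ) = ⌈Q0⌉₊ := by rw [hk1]
    push_cast at h1
    linarith
  calc ∑ q ∈ S, 1 / (q : ℝ) ^ 2 ≤ ∑ q ∈ Ioc k (max k (S.sup id)), 1 / (q : ℝ) ^ 2 := by
        apply sum_le_sum_of_subset_of_nonneg
        · intro q hq
          have h1 : q ≤ S.sup id := Finset.le_sup (f := id) hq
          have h2 : ⌈Q0⌉₊ ≤ q := Nat.ceil_le.2 (hS q hq)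
          rw [mem_Ioc]
          exact ⟨by omega, h1.trans (le_max_right _ _)⟩
        · intro q _ _
          positivity
    _ = ∑ q ∈ Ioc k (max k (S.sup id)), ((q : ℝ) ^ 2)⁻¹ := by simp only [one_div]
    _ ≤ (k : ℝ)⁻¹ - ((max k (S.sup id) : ℕ) : ℝ)⁻¹ := sum_Ioc_inv_sq_le_sub hk0 (le_max_left _ _)
    _ ≤ (k : ℝ)⁻¹ := by
        have : (0 : ℝ) ≤ ((max k (S.sup id) : ℕ) : ℝ)⁻¹ := by positivity
        linarith
    _ ≤ (Q0 / 2)⁻¹ := inv_anti₀ (by linarith) hkr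
    _ = 2 / Q0 := by rw [inv_div]

open Classical in
lemma Bd1 (X : ℕ) (hX : 3 ≤ X) :
    (((Icc (1 : ℤ) X).filter (fun n => ¬ n.toNat.Prime ∧ vonMangoldt n.toNat ≠ 0)).card : ℝ) ≤
      Real.sqrt X * (Nat.log 2 X + 1) := by
  have h1 : ((Icc (1 : ℤ) X).filter (fun n => ¬ n.toNat.Prime ∧ vonMangoldt n.toNat ≠ 0)).card ≤
      (Icc 1 (Nat.sqrt X) ×ˢ range (Nat.log 2 X + 1)).card := by
    calc _ ≤ ((Icc 1 (Nat.sqrt X) ×ˢ range (Nat.log 2 X + 1)).image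
        (fun u : ℕ × ℕ => ((u.1 ^ u.2 : ℕ) : ℤ))).card := by
          apply card_le_card
          intro n hn
          rw [mem_filter, mem_Icc] at hn
          obtain ⟨⟨hn1, hn2⟩, hn3, hn4⟩ := hn
          have h2 : IsPrimePow n.toNat := ArithmeticFunction.vonMangoldt_ne_zero_iff.1 hn4
          obtain ⟨p, k, hp, hk, hpk⟩ := (isPrimePow_nat_iff _).1 h2
          have hk2 : 2 ≤ k := by
            by_contra hk2
            have : k = 1 := by omega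
            rw [this, pow_one] at hpk
            exact hn3 (by rw [← hpk]; exact hp)
          have hnX : n.toNat ≤ X := by omega
          rw [mem_image]
          refine ⟨(p, k), ?_, ?_⟩
          · rw [mem_product, mem_Icc, mem_range]
            refine ⟨⟨hp.one_le, ?_⟩, ?_⟩
            · rw [Nat.le_sqrt']
              calc p ^ 2 ≤ p ^ k := Nat.pow_le_pow_right hp.pos hk2
                _ ≤ X := by rw [hpk]; exact hnX
            · have h3 : 2 ^ k ≤ X := by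
                calc 2 ^ k ≤ p ^ k := Nat.pow_le_pow_left hp.two_le k
                  _ ≤ X := by rw [hpk]; exact hnX
              have h4 := (Nat.le_log_iff_pow_le (by norm_num) (by omega)).2 h3
              omega
          · simp only
            rw [hpk]
            exact Int.toNat_of_nonneg (by omega)
      _ ≤ _ := card_image_le
  rw [card_product, Nat.card_Icc, card_range, Nat.add_sub_cancel] at h1
  calc _ ≤ ((Nat.sqrt X * (Nat.log 2 X + 1) : ℕ) : ℝ) := by exact_mod_cast h1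
    _ = (Nat.sqrt X : ℝ) * (Nat.log 2 X + 1) := by push_cast; ring
    _ ≤ _ := by
        apply mul_le_mul_of_nonneg_right _ (by positivity)
        exact Real.nat_sqrt_le_real_sqrt

open Classical in
lemma Bd2 (X : ℕ) (h : ℤ) (hX : 3 ≤ X) (hh : h.natAbs ≤ X) (hbig : 2 ≤ (X : ℝ) ^ (3 / 25 : ℝ)) :
    (((Icc (1 : ℤ) X).filter (fun n =>
      (∃ q ∈ pr X (3 / 25) (288 / 625), ((q : ℤ) ^ 2) ∣ n + h) ∧ 0 < n + h)).card : ℝ) ≤
      6 * (X : ℝ) ^ (22 / 25 : ℝ) := by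
  have hX3 : (3 : ℝ) ≤ X := by exact_mod_cast hX
  set S := (pr X (3 / 25) (288 / 625)).filter (fun q => q ^ 2 ≤ 2 * X) with hS
  have hSq : ∀ q ∈ S, (X : ℝ) ^ (3 / 25 : ℝ) ≤ q ∧ q ^ 2 ≤ 2 * X ∧ 1 ≤ q := by
    intro q hq
    rw [hS, mem_filter] at hq
    obtain ⟨hq1, hq2⟩ := hq
    unfold pr at hq1
    rw [mem_filter, mem_Icc] at hq1
    have h1 : ¬ tt X q < 3 / 25 := by have := hq1.2.2.1; linarith
    rw [Pool.Agent.Y882.tt_lt X q (3 / 25) (by omega) (by omega)] at h1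
    push Not at h1
    exact ⟨h1, hq2, by omega⟩
  have h1 : ((Icc (1 : ℤ) X).filter (fun n =>
      (∃ q ∈ pr X (3 / 25) (288 / 625), ((q : ℤ) ^ 2) ∣ n + h) ∧ 0 < n + h)).card ≤
      ∑ q ∈ S, ((Icc (1 : ℤ) X).filter (fun n => ((q ^ 2 : ℕ) : ℤ) ∣ n + h)).card := by
    refine le_trans (card_le_card ?_) card_biUnion_le
    intro n hn
    rw [mem_filter, mem_Icc] at hn
    obtain ⟨⟨hn1, hn2⟩, ⟨q, hq, hqd⟩, hn3⟩ := hn
    rw [mem_biUnion]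
    refine ⟨q, ?_, ?_⟩
    · rw [hS, mem_filter]
      refine ⟨hq, ?_⟩
      have h2 := Int.le_of_dvd hn3 hqd
      have h3 : ((q ^ 2 : ℕ) : ℤ) ≤ ((2 * X : ℕ) : ℤ) := by
        push_cast
        omega
      exact_mod_cast h3
    · rw [mem_filter, mem_Icc]
      exact ⟨⟨hn1, hn2⟩, by push_cast; exact hqd⟩
  calc _ ≤ ((∑ q ∈ S, ((Icc (1 : ℤ) X).filter (fun n => ((q ^ 2 : ℕ) : ℤ) ∣ n + h)).card : ℕ) : ℝ) := by
        exact_mod_cast h1
    _ = ∑ q ∈ S, (((Icc (1 : ℤ) X).filter (fun n => ((q ^ 2 : ℕ) : ℤ) ∣ n + h)).card : ℝ) := by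
        push_cast
        rfl
    _ ≤ ∑ q ∈ S, 3 * X * (1 / (q : ℝ) ^ 2) := by
        apply sum_le_sum
        intro q hq
        obtain ⟨h2, h3, h4⟩ := hSq q hq
        have h5 := cnt_dvd X (q ^ 2) (Nat.one_le_pow _ _ h4) h
        refine h5.trans ?_
        have h6 : ((q ^ 2 : ℕ) : ℝ) ≤ 2 * X := by exact_mod_cast h3
        push_cast at h6 ⊢
        have h7 : (0 : ℝ) < (q : ℝ) ^ 2 := by
          have : (0 : ℝ) < q := by exact_mod_cast h4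
          positivity
        have h8 : 1 ≤ 2 * X / (q : ℝ) ^ 2 := by rw [one_le_div h7]; exact h6
        calc (X : ℝ) / (q : ℝ) ^ 2 + 1 ≤ X / (q : ℝ) ^ 2 + 2 * X / (q : ℝ) ^ 2 := by linarith
          _ = _ := by ring
    _ = 3 * X * ∑ q ∈ S, 1 / (q : ℝ) ^ 2 := by rw [mul_sum]
    _ ≤ 3 * X * (2 / (X : ℝ) ^ (3 / 25 : ℝ)) := by
        apply mul_le_mul_of_nonneg_left _ (by positivity)
        exact sum_sq_tail S _ hbig (fun q hq => (hSq q hq).1)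
    _ = 6 * (X : ℝ) ^ (22 / 25 : ℝ) := by
        have h9 : (X : ℝ) ^ (22 / 25 : ℝ) = X / (X : ℝ) ^ (3 / 25 : ℝ) := by
          rw [show (22 / 25 : ℝ) = 1 - 3 / 25 by norm_num, Real.rpow_sub (by linarith), Real.rpow_one]
        rw [h9]
        ring

open Classical in
theorem Bd_card (h : ℤ) : ∀ᶠ X : ℕ in Filter.atTop, ((Bd X h).card : ℝ) ≤ (X : ℝ) ^ (19 / 20 : ℝ) := by
  filter_upwards [log_X_pow 1 (1 / 20) (by norm_num) 9, log_X_pow 0 (3 / 25) (by norm_num) 2,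
    log_X_pow 0 (7 / 100) (by norm_num) 18, Filter.eventually_ge_atTop 3,
    log_X_pow 0 (95 / 100) (by norm_num) (3 * (h.natAbs + 1 : ℕ)),
    Filter.eventually_ge_atTop h.natAbs, log_big 1] with X e1 e2 e3 e4 e5 e6 e7
  rw [pow_one] at e1
  rw [pow_zero, mul_one] at e2 e3 e5
  have hX3 : (3 : ℝ) ≤ X := by exact_mod_cast e4
  have hX0 : (0 : ℝ) < X := by linarith
  set L := Real.log X with hL
  have hsub : Bd X h ⊆ (Icc (1 : ℤ) X).filter (fun n => ¬ n.toNat.Prime ∧ vonMangoldt n.toNat ≠ 0) ∪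
      (Icc (1 : ℤ) X).filter (fun n =>
        (∃ q ∈ pr X (3 / 25) (288 / 625), ((q : ℤ) ^ 2) ∣ n + h) ∧ 0 < n + h) ∪
      Icc (1 : ℤ) (h.natAbs + 1 : ℕ) := by
    intro n hn
    rw [Bd, mem_filter] at hn
    rw [mem_union, mem_union, mem_filter, mem_filter, mem_Icc, mem_Icc]
    obtain ⟨hn1, hn2⟩ := hn
    rw [mem_Icc] at hn1
    rcases hn2 with h1 | h1 | h1
    · exact Or.inl (Or.inl ⟨hn1, h1⟩)
    · by_cases h2 : 0 < n + h
      · exact Or.inl (Or.inr ⟨hn1, h1, h2⟩)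
      · exact Or.inr ⟨hn1.1, by omega⟩
    · exact Or.inr ⟨hn1.1, by omega⟩
  have hcard : ((Bd X h).card : ℝ) ≤ Real.sqrt X * (Nat.log 2 X + 1) +
      6 * (X : ℝ) ^ (22 / 25 : ℝ) + (h.natAbs + 1 : ℕ) := by
    have h1 : ((Bd X h).card : ℝ) ≤
        (((Icc (1 : ℤ) X).filter (fun n => ¬ n.toNat.Prime ∧ vonMangoldt n.toNat ≠ 0)).card : ℝ) +
        (((Icc (1 : ℤ) X).filter (fun n =>
          (∃ q ∈ pr X (3 / 25) (288 / 625), ((q : ℤ) ^ 2) ∣ n + h) ∧ 0 < n + h)).card : ℝ) +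
        ((Icc (1 : ℤ) (h.natAbs + 1 : ℕ)).card : ℝ) := by
      have h2 := (card_le_card hsub).trans ((card_union_le _ _).trans
        (Nat.add_le_add_right (card_union_le _ _) _))
      exact_mod_cast h2
    have h3 : ((Icc (1 : ℤ) (h.natAbs + 1 : ℕ)).card : ℝ) = (h.natAbs + 1 : ℕ) := by
      rw [Int.card_Icc, add_sub_cancel_right, Int.toNat_natCast]
    rw [h3] at h1
    have h4 := Bd1 X e4
    have h5 := Bd2 X h e4 e6 e2
    linarith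
  refine hcard.trans ?_
  have t1 : Real.sqrt X * (Nat.log 2 X + 1) ≤ (X : ℝ) ^ (19 / 20 : ℝ) / 3 := by
    have hlog2 : (Nat.log 2 X : ℝ) + 1 ≤ 3 * L := by
      have h1 : (Nat.log 2 X : ℝ) ≤ 2 * L := by
        have h2 : (2 : ℝ) ^ (Nat.log 2 X) ≤ X := by exact_mod_cast Nat.pow_log_le_self 2 (by omega)
        have h3 := Real.log_le_log (by positivity) h2
        rw [Real.log_pow] at h3
        have h4 := Real.log_two_gt_d9
        have h5 : (0 : ℝ) ≤ Nat.log 2 X := Nat.cast_nonneg _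
        nlinarith
      linarith
    calc Real.sqrt X * (Nat.log 2 X + 1) ≤ Real.sqrt X * (3 * L) :=
          mul_le_mul_of_nonneg_left hlog2 (Real.sqrt_nonneg _)
      _ = (X : ℝ) ^ (1 / 2 : ℝ) * (9 * L) / 3 := by
          rw [Real.sqrt_eq_rpow]
          ring
      _ ≤ (X : ℝ) ^ (1 / 2 : ℝ) * (X : ℝ) ^ (1 / 20 : ℝ) / 3 := by
          apply div_le_div_of_nonneg_right _ (by norm_num)
          exact mul_le_mul_of_nonneg_left e1 (by positivity)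
      _ = (X : ℝ) ^ (11 / 20 : ℝ) / 3 := by
          rw [← Real.rpow_add hX0]
          norm_num
      _ ≤ _ := by
          apply div_le_div_of_nonneg_right _ (by norm_num)
          exact Real.rpow_le_rpow_of_exponent_le (by linarith) (by norm_num)
  have t2 : 6 * (X : ℝ) ^ (22 / 25 : ℝ) ≤ (X : ℝ) ^ (19 / 20 : ℝ) / 3 := by
    have h1 : (X : ℝ) ^ (19 / 20 : ℝ) = (X : ℝ) ^ (22 / 25 : ℝ) * (X : ℝ) ^ (7 / 100 : ℝ) := by
      rw [← Real.rpow_add hX0]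
      norm_num
    rw [h1]
    have h2 : 0 ≤ (X : ℝ) ^ (22 / 25 : ℝ) := by positivity
    have := mul_le_mul_of_nonneg_left e3 h2
    linarith
  have t3 : ((h.natAbs + 1 : ℕ) : ℝ) ≤ (X : ℝ) ^ (19 / 20 : ℝ) / 3 := by
    have h1 : (X : ℝ) ^ (95 / 100 : ℝ) = (X : ℝ) ^ (19 / 20 : ℝ) := by norm_num
    rw [h1] at e5
    linarith
  linarith

end Pool.Agent.H542.TW
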